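import Pool.Agent.Work.MP_02e829_ps.Interface
set_option autoImplicit false

/-! Block ANL: a one-parameter family of curvatures has no interval of closed curves. -/

open Set Filter Manifold
open scoped Topology ContDiff Manifold

namespace Pool.PSC

/-- joint continuity on `U × ℝ` -/
theorem ANL_on {U : Set ℂ} {F : ℂ → ℝ → ℂ} (h : Continuous (fun p : U × ℝ => F p.1 p.2)) :
    ContinuousOn (fun p : ℂ × ℝ => F p.1 p.2) (U ×ˢ univ) := by
  rw [continuousOn_iff_continuous_domRestrict]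
  have h1 : Continuous (fun p : (U ×ˢ (univ : Set ℝ) : Set (ℂ × ℝ)) =>
      ((⟨p.1.1, p.2.1⟩ : U), p.1.2)) := by
    refine Continuous.prodMk ?_ (by fun_prop)
    exact Continuous.subtype_mk (by fun_prop) _
  exact h.comp h1

/-- derivative of a parametric integral -/
theorem ANL_par {U : Set ℂ} (hU : IsOpen U) {F F' : ℂ → ℝ → ℂ}
    (hF : Continuous (fun p : U × ℝ => F p.1 p.2)) (hF' : Continuous (fun p : U × ℝ => F' p.1 p.2))
    (hd : ∀ μ ∈ U, ∀ s, HasDerivAt (fun μ => F μ s) (F' μ s) μ) (a b : ℝ) :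
    ∀ μ ∈ U, HasDerivAt (fun μ => ∫ s in a..b, F μ s) (∫ s in a..b, F' μ s) μ := by
  intro μ hμ
  obtain ⟨ε, hε, hball⟩ := Metric.nhds_basis_closedBall.mem_iff.1 (hU.mem_nhds hμ)
  have hc : ∀ ν ∈ U, Continuous (F ν) := by
    intro ν hν
    exact hF.comp (Continuous.prodMk (continuous_const (y := (⟨ν, hν⟩ : U))) continuous_id)
  have hc' : ∀ ν ∈ U, Continuous (F' ν) := by
    intro ν hν
    exact hF'.comp (Continuous.prodMk (continuous_const (y := (⟨ν, hν⟩ : U))) continuous_id)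
  have hK : IsCompact (Metric.closedBall μ ε ×ˢ uIcc a b) :=
    (isCompact_closedBall μ ε).prod isCompact_uIcc
  obtain ⟨M, hM⟩ := hK.exists_bound_of_continuousOn
    ((ANL_on hF').mono (prod_mono hball (subset_univ _)))
  refine (intervalIntegral.hasDerivAt_integral_of_dominated_loc_of_deriv_le
    (bound := fun _ => M) (Metric.closedBall_mem_nhds μ hε) ?_ ?_ ?_ ?_ ?_ ?_).2
  · filter_upwards [hU.mem_nhds hμ] with ν hν
    exact (hc ν hν).aestronglyMeasurable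
  · exact (hc μ hμ).intervalIntegrable _ _
  · exact (hc' μ hμ).aestronglyMeasurable
  · refine Eventually.of_forall fun t ht x hx => ?_
    exact hM (x, t) ⟨hx, uIoc_subset_uIcc ht⟩
  · exact intervalIntegrable_const
  · exact Eventually.of_forall fun t _ x hx => hd x (hball hx) t

/-- joint continuity of a parametric primitive -/
theorem ANL_prim {U : Set ℂ} {F : ℂ → ℝ → ℂ} (hF : Continuous (fun p : U × ℝ => F p.1 p.2)) (a : ℝ) :
    Continuous (fun p : U × ℝ => ∫ r in a..p.2, F p.1 r) := by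
  exact intervalIntegral.continuous_parametric_primitive_of_continuous
    (f := fun (x : U) r => F x r) (a₀ := a) hF

/-- the holomorphic step: from a jointly continuous and holomorphic integrand -/
theorem ANL_hol {U : Set ℂ} (hU : IsOpen U) {g g' : ℂ → ℝ → ℂ}
    (hg : Continuous (fun p : U × ℝ => g p.1 p.2)) (hg' : Continuous (fun p : U × ℝ => g' p.1 p.2))
    (hd : ∀ μ ∈ U, ∀ s, HasDerivAt (fun μ => g μ s) (g' μ s) μ) (s1 s2 : ℝ) :
    AnalyticOnNhd ℂ (fun μ => ∫ s in s1..s2, Complex.exp (Complex.I * ∫ r in s1..s, g μ r)) U ∧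
      Continuous (fun p : U × ℝ => Complex.exp (Complex.I * ∫ r in s1..p.2, g p.1 r)) := by
  have hθc : Continuous (fun p : U × ℝ => ∫ r in s1..p.2, g p.1 r) := ANL_prim hg s1
  have hθc' : Continuous (fun p : U × ℝ => ∫ r in s1..p.2, g' p.1 r) := ANL_prim hg' s1
  have hHc : Continuous (fun p : U × ℝ => Complex.exp (Complex.I * ∫ r in s1..p.2, g p.1 r)) :=
    Complex.continuous_exp.comp (continuous_const.mul hθc)
  refine ⟨?_, hHc⟩
  have hHd : ∀ μ ∈ U, ∀ s, HasDerivAt (fun μ => Complex.exp (Complex.I * ∫ r in s1..s, g μ r))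
      (Complex.exp (Complex.I * ∫ r in s1..s, g μ r) * (Complex.I * ∫ r in s1..s, g' μ r)) μ :=
    fun μ hμ s => ((ANL_par hU hg hg' hd s1 s μ hμ).const_mul Complex.I).cexp
  have hHc' : Continuous (fun p : U × ℝ => Complex.exp (Complex.I * ∫ r in s1..p.2, g p.1 r) *
      (Complex.I * ∫ r in s1..p.2, g' p.1 r)) := hHc.mul (continuous_const.mul hθc')
  have hC := ANL_par hU (F := fun μ s => Complex.exp (Complex.I * ∫ r in s1..s, g μ r))
    (F' := fun μ s => Complex.exp (Complex.I * ∫ r in s1..s, g μ r) * (Complex.I * ∫ r in s1..s, g' μ r))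
    hHc hHc' hHd s1 s2
  exact DifferentiableOn.analyticOnNhd
    (fun μ hμ => (hC μ hμ).differentiableAt.differentiableWithinAt) hU

/-- the integrand -/
noncomputable def ANL_g (k b : ℝ → ℝ) (μ : ℂ) (s : ℝ) : ℂ :=
  ((k s / Real.sqrt (b s) : ℝ) : ℂ) * (1 - μ * (b s : ℂ)) ^ (-(1 / 2) : ℂ)

/-- its derivative -/
noncomputable def ANL_g' (k b : ℝ → ℝ) (μ : ℂ) (s : ℝ) : ℂ :=
  ((k s / Real.sqrt (b s) : ℝ) : ℂ) *
    ((-(1 / 2) : ℂ) * (1 - μ * (b s : ℂ)) ^ ((-(1 / 2) : ℂ) - 1) * (-(b s : ℂ)))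

theorem ANL_slit {b : ℝ → ℝ} (hpos : ∀ s, 0 < b s) {M : ℝ} (hM : ∀ s, b s ≤ M) (hMp : 0 < M)
    {μ : ℂ} (hμ : μ.re < 1 / M) (s : ℝ) : 1 - μ * (b s : ℂ) ∈ Complex.slitPlane := by
  rw [Complex.mem_slitPlane_iff]
  left
  have h1 : (1 - μ * (b s : ℂ)).re = 1 - μ.re * b s := by simp
  rw [h1]
  have h2 : μ.re * M < 1 := by
    rwa [lt_div_iff₀ hMp] at hμ
  rcases le_or_gt μ.re 0 with h3 | h3
  · have h4 : μ.re * b s ≤ 0 := mul_nonpos_of_nonpos_of_nonneg h3 (hpos s).le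
    linarith
  · have h4 : μ.re * b s ≤ μ.re * M := mul_le_mul_of_nonneg_left (hM s) h3.le
    linarith

theorem ANL_hol2 {k b : ℝ → ℝ} (hk : Continuous k) (hb : Continuous b) (hpos : ∀ s, 0 < b s) {M : ℝ}
    (hM : ∀ s, b s ≤ M) (hMp : 0 < M) (s1 s2 : ℝ) :
    AnalyticOnNhd ℂ (fun μ => ∫ s in s1..s2, Complex.exp (Complex.I * ∫ r in s1..s, ANL_g k b μ r))
      {μ : ℂ | μ.re < 1 / M} ∧
      Continuous (fun p : {μ : ℂ | μ.re < 1 / M} × ℝ =>
        Complex.exp (Complex.I * ∫ r in s1..p.2, ANL_g k b p.1 r)) := by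
  have hbase : Continuous (fun p : {μ : ℂ | μ.re < 1 / M} × ℝ => 1 - (p.1 : ℂ) * (b p.2 : ℂ)) := by
    refine continuous_const.sub ((continuous_subtype_val.comp continuous_fst).mul ?_)
    exact Complex.continuous_ofReal.comp (hb.comp continuous_snd)
  have hA : Continuous (fun s => k s / Real.sqrt (b s)) := hk.div (Real.continuous_sqrt.comp hb)
    (fun s => (Real.sqrt_pos.2 (hpos s)).ne')
  have hA2 : Continuous (fun p : {μ : ℂ | μ.re < 1 / M} × ℝ => ((k p.2 / Real.sqrt (b p.2) : ℝ) : ℂ)) :=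
    Complex.continuous_ofReal.comp (hA.comp continuous_snd)
  have hb2 : Continuous (fun p : {μ : ℂ | μ.re < 1 / M} × ℝ => (b p.2 : ℂ)) :=
    Complex.continuous_ofReal.comp (hb.comp continuous_snd)
  refine ANL_hol (g' := ANL_g' k b) (isOpen_lt Complex.continuous_re continuous_const) ?_ ?_ ?_ s1 s2
  · exact hA2.mul (hbase.cpow continuous_const (fun p => ANL_slit hpos hM hMp p.1.2 p.2))
  · exact hA2.mul ((continuous_const.mul (hbase.cpow continuous_const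
      (fun p => ANL_slit hpos hM hMp p.1.2 p.2))).mul hb2.neg)
  · intro μ hμ s
    have h1 : HasDerivAt (fun μ : ℂ => 1 - μ * (b s : ℂ)) (-(b s : ℂ)) μ := by
      have h2 := ((hasDerivAt_id μ).mul_const (b s : ℂ)).const_sub 1
      simpa using h2
    exact (h1.cpow_const (ANL_slit hpos hM hMp hμ s)).const_mul _

/-- real parameters -/
theorem ANL_real {k b : ℝ → ℝ} (hpos : ∀ s, 0 < b s) {M : ℝ} (hM : ∀ s, b s ≤ M) {μ : ℝ}
    (hμ : μ * M < 1) (r : ℝ) :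
    ANL_g k b (μ : ℂ) r = ((k r / Real.sqrt (b r - μ * b r ^ 2) : ℝ) : ℂ) := by
  have hpB : 0 < b r := hpos r
  have h2 : 0 < 1 - μ * b r := by
    have h4 := hM r
    rcases le_or_gt μ 0 with h3 | h3
    · have : μ * b r ≤ 0 := mul_nonpos_of_nonpos_of_nonneg h3 hpB.le
      linarith
    · have : μ * b r ≤ μ * M := mul_le_mul_of_nonneg_left h4 h3.le
      linarith
  have h5 : b r - μ * b r ^ 2 = b r * (1 - μ * b r) := by ring
  have h6 : (1 - (μ : ℂ) * (b r : ℂ)) ^ (-(1 / 2) : ℂ) =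
      (((1 - μ * b r) ^ (-(1 / 2) : ℝ) : ℝ) : ℂ) := by
    rw [Complex.ofReal_cpow h2.le]
    push_cast
    rfl
  have h7 : (1 - μ * b r) ^ (-(1 / 2) : ℝ) = 1 / Real.sqrt (1 - μ * b r) := by
    rw [Real.rpow_neg h2.le, ← Real.sqrt_eq_rpow, one_div]
  unfold ANL_g
  rw [h6, h7, h5, Real.sqrt_mul hpB.le, ← Complex.ofReal_mul, div_mul_div_comm, mul_one]

theorem ANL_real2 {k b : ℝ → ℝ} (hpos : ∀ s, 0 < b s) {M : ℝ} (hM : ∀ s, b s ≤ M) {μ : ℝ}
    (hμ : μ * M < 1) (s1 s : ℝ) :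
    ∫ r in s1..s, ANL_g k b (μ : ℂ) r =
      ((∫ r in s1..s, k r / Real.sqrt (b r - μ * b r ^ 2) : ℝ) : ℂ) := by
  rw [← intervalIntegral.integral_ofReal]
  exact intervalIntegral.integral_congr fun r _ => ANL_real hpos hM hμ r

theorem ANL_small {k b : ℝ → ℝ} (hpos : ∀ s, 0 < b s) {m Q y s1 s2 : ℝ} (hm : ∀ s, m ≤ b s)
    (hmp : 0 < m) (hQ : ∀ s, |k s| ≤ Q) (h12 : s1 < s2) (hy : y = 2 * (s2 - s1) * Q / m + 1)
    {s : ℝ} (hs : s ∈ Icc s1 s2) :
    |∫ r in s1..s, k r / Real.sqrt (b r - (-(y ^ 2)) * b r ^ 2)| ≤ 1 / 2 := by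
  have hQ0 : 0 ≤ Q := (abs_nonneg _).trans (hQ s1)
  have hL : 0 < s2 - s1 := by linarith
  have hy0 : 0 < y := by rw [hy]; positivity
  have h1 : ∀ r ∈ Set.uIoc s1 s, ‖k r / Real.sqrt (b r - (-(y ^ 2)) * b r ^ 2)‖ ≤ Q / (y * m) := by
    intro r hr
    have h3 : y * m ≤ Real.sqrt (b r - (-(y ^ 2)) * b r ^ 2) := by
      apply Real.le_sqrt_of_sq_le
      have h4 : (y * m) ^ 2 ≤ (y * b r) ^ 2 :=
        pow_le_pow_left₀ (by positivity) (mul_le_mul_of_nonneg_left (hm r) hy0.le) 2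
      nlinarith [hpos r]
    rw [norm_div, Real.norm_eq_abs (Real.sqrt _), abs_of_nonneg (Real.sqrt_nonneg _)]
    exact div_le_div₀ hQ0 (hQ r) (by positivity) h3
  have h5 := intervalIntegral.norm_integral_le_of_norm_le_const h1
  rw [Real.norm_eq_abs] at h5
  refine h5.trans ?_
  rw [abs_of_nonneg (by linarith [hs.1])]
  have h6 : s - s1 ≤ s2 - s1 := by linarith [hs.2]
  calc Q / (y * m) * (s - s1) ≤ Q / (y * m) * (s2 - s1) :=
        mul_le_mul_of_nonneg_left h6 (by positivity)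
    _ = ((s2 - s1) * Q / m) / y := by
        field_simp
    _ ≤ 1 / 2 := by
        rw [div_le_iff₀ hy0, hy]
        have h7 : 2 * (s2 - s1) * Q / m = 2 * ((s2 - s1) * Q / m) := by ring
        rw [h7]
        have h8 : 0 ≤ (s2 - s1) * Q / m := by positivity
        linarith

/-- the closing function vanishes at real parameters -/
theorem ANL_czero {k b : ℝ → ℝ} (hpos : ∀ s, 0 < b s) {M : ℝ} (hM : ∀ s, b s ≤ M) {s1 s2 μ : ℝ}
    (hμ : μ * M < 1)
    (hzero : (∫ s in s1..s2, Complex.exp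
      (((∫ r in s1..s, k r / Real.sqrt (b r - μ * b r ^ 2)) : ℝ) * Complex.I)) = 0) :
    ∫ s in s1..s2, Complex.exp (Complex.I * ∫ r in s1..s, ANL_g k b (μ : ℂ) r) = 0 := by
  rw [← hzero]
  refine intervalIntegral.integral_congr fun s _ => ?_
  have h := ANL_real2 (k := k) hpos hM hμ s1 s
  exact congrArg Complex.exp (by rw [h, mul_comm])

/-- a function vanishing at real parameters vanishes -/
theorem ANL_ident {C : ℂ → ℂ} {M μ1 μ2 : ℝ} (hMp : 0 < M)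
    (hC : AnalyticOnNhd ℂ C {μ : ℂ | μ.re < 1 / M}) (hμ : μ1 < μ2)
    (hlt : ∀ μ ∈ Ioo μ1 μ2, μ * M < 1) (hz : ∀ μ ∈ Ioo μ1 μ2, C ((μ : ℝ) : ℂ) = 0) (y : ℝ)
    (hy : y * M < 1) : C ((y : ℝ) : ℂ) = 0 := by
  have hUc : IsPreconnected {μ : ℂ | μ.re < 1 / M} := (convex_halfSpace_re_lt (1 / M)).isPreconnected
  have hmid : (μ1 + μ2) / 2 ∈ Ioo μ1 μ2 := ⟨by linarith, by linarith⟩
  obtain ⟨z, hz0⟩ : ∃ z : ℝ, z = (μ1 + μ2) / 2 := ⟨_, rfl⟩
  rw [← hz0] at hmid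
  have hmidU : (z : ℂ) ∈ {μ : ℂ | μ.re < 1 / M} := by
    rw [mem_ofPred_eq, Complex.ofReal_re, lt_div_iff₀ hMp]
    exact hlt _ hmid
  have hyU : (y : ℂ) ∈ {μ : ℂ | μ.re < 1 / M} := by
    rw [mem_ofPred_eq, Complex.ofReal_re, lt_div_iff₀ hMp]
    exact hy
  have hfreq : ∃ᶠ w in 𝓝[≠] (z : ℂ), C w = 0 := by
    have h1 : ∀ᶠ t : ℝ in 𝓝[≠] z, C ((t : ℝ) : ℂ) = 0 := by
      refine Filter.Eventually.filter_mono nhdsWithin_le_nhds ?_
      filter_upwards [isOpen_Ioo.mem_nhds hmid] with t ht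
      exact hz t ht
    have h2 : Tendsto (fun t : ℝ => (t : ℂ)) (𝓝[≠] z) (𝓝[≠] (z : ℂ)) := by
      refine tendsto_nhdsWithin_of_tendsto_nhds_of_eventually_within _
        (Complex.continuous_ofReal.continuousAt.tendsto.mono_left nhdsWithin_le_nhds) ?_
      filter_upwards [self_mem_nhdsWithin] with t ht
      intro h
      exact ht (Complex.ofReal_injective h)
    exact h2.frequently h1.frequently
  exact hC.eqOn_zero_of_preconnected_of_frequently_eq_zero hUc hmidU hfreq hyU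

/-- a nearly constant unit integrand does not integrate to zero -/
theorem ANL_near {θ : ℝ → ℝ} {s1 s2 : ℝ} (h12 : s1 < s2)
    (hc : Continuous (fun s => Complex.exp (Complex.I * (θ s : ℂ))))
    (hθ : ∀ s ∈ Icc s1 s2, |θ s| ≤ 1 / 2)
    (hz : ∫ s in s1..s2, Complex.exp (Complex.I * (θ s : ℂ)) = 0) : False := by
  have hL : 0 < s2 - s1 := by linarith
  have h1 : ∫ s in s1..s2, (Complex.exp (Complex.I * (θ s : ℂ)) - 1) = -((s2 - s1 : ℝ) : ℂ) := by
    rw [intervalIntegral.integral_sub (hc.intervalIntegrable _ _) intervalIntegrable_const]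
    rw [hz, intervalIntegral.integral_const]
    simp
  have h2 : ‖∫ s in s1..s2, (Complex.exp (Complex.I * (θ s : ℂ)) - 1)‖ ≤ 1 / 2 * |s2 - s1| := by
    refine intervalIntegral.norm_integral_le_of_norm_le_const fun s hs => ?_
    rw [uIoc_of_le h12.le] at hs
    refine (Real.norm_exp_I_mul_ofReal_sub_one_le).trans ?_
    rw [Real.norm_eq_abs]
    exact hθ s ⟨hs.1.le, hs.2⟩
  rw [h1, norm_neg, Complex.norm_real, Real.norm_eq_abs, abs_of_pos hL] at h2
  linarith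

theorem ANL_sec {A : Set ℂ} {H : A × ℝ → ℂ} (h : Continuous H) (u : A) :
    Continuous (fun s => H (u, s)) :=
  h.comp (Continuous.prodMk continuous_const continuous_id)

theorem ANL_core {k b : ℝ → ℝ} (hk : Continuous k) (hb : Continuous b) (hpos : ∀ s, 0 < b s)
    {M m Q s1 s2 μ1 μ2 : ℝ} (hM : ∀ s, b s ≤ M) (hMp : 0 < M) (hm : ∀ s, m ≤ b s) (hmp : 0 < m)
    (hQ : ∀ s, |k s| ≤ Q) (h12 : s1 < s2) (hμ : μ1 < μ2) (hlt : ∀ μ ∈ Ioo μ1 μ2, μ * M < 1)
    (hzero : ∀ μ ∈ Ioo μ1 μ2, (∫ s in s1..s2, Complex.exp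
      (((∫ r in s1..s, k r / Real.sqrt (b r - μ * b r ^ 2)) : ℝ) * Complex.I)) = 0) : False := by
  have hL : 0 < s2 - s1 := by linarith
  have hQ0 : 0 ≤ Q := (abs_nonneg _).trans (hQ s1)
  obtain ⟨hCa, hHc⟩ := ANL_hol2 hk hb hpos hM hMp s1 s2
  obtain ⟨y, hy⟩ : ∃ y : ℝ, y = 2 * (s2 - s1) * Q / m + 1 := ⟨_, rfl⟩
  have hy0 : 0 < y := by rw [hy]; positivity
  have hyM : (-(y ^ 2)) * M < 1 := by
    have : 0 < y ^ 2 * M := by positivity
    linarith
  have hsm : ∀ s ∈ Icc s1 s2, |∫ r in s1..s, k r / Real.sqrt (b r - (-(y ^ 2)) * b r ^ 2)| ≤ 1 / 2 :=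
    fun s hs => ANL_small hpos hm hmp hQ h12 hy hs
  have hCy := ANL_ident hMp hCa hμ hlt (fun μ hμ => ANL_czero hpos hM (hlt μ hμ) (hzero μ hμ))
    (-(y ^ 2)) hyM
  have hyU : ((-(y ^ 2) : ℝ) : ℂ) ∈ {μ : ℂ | μ.re < 1 / M} := by
    rw [mem_ofPred_eq, Complex.ofReal_re, lt_div_iff₀ hMp]
    exact hyM
  generalize -(y ^ 2) = x at hyM hsm hCy hyU
  obtain ⟨u, hu⟩ : ∃ u : {μ : ℂ | μ.re < 1 / M}, (u : ℂ) = (x : ℂ) := ⟨⟨_, hyU⟩, rfl⟩
  have hint := ANL_sec hHc u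
  simp only [hu] at hint
  have he : ∀ s, ∫ r in s1..s, ANL_g k b (x : ℂ) r =
      ((∫ r in s1..s, k r / Real.sqrt (b r - x * b r ^ 2) : ℝ) : ℂ) :=
    fun s => ANL_real2 hpos hM hyM s1 s
  have he2 : (fun s => Complex.exp (Complex.I * ∫ r in s1..s, ANL_g k b (x : ℂ) r)) =
      (fun s => Complex.exp (Complex.I *
        ((∫ r in s1..s, k r / Real.sqrt (b r - x * b r ^ 2) : ℝ) : ℂ))) := by
    funext s
    rw [he s]
  rw [he2] at hint
  refine ANL_near h12 hint hsm ?_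
  rw [← he2]
  exact hCy

theorem blk_ANL : Stmt_ANL := by
  intro s1 s2 B K h12 hB hK hpos μ1 μ2 hμ hlt hzero
  obtain ⟨sM, hsM, hM⟩ := isCompact_Icc.exists_isMaxOn (nonempty_Icc.2 h12.le) hB
  obtain ⟨sm, hsm, hm⟩ := isCompact_Icc.exists_isMinOn (nonempty_Icc.2 h12.le) hB
  obtain ⟨Q, hQ⟩ := isCompact_Icc.exists_bound_of_continuousOn hK
  have hprc : Continuous (fun s => (projIcc s1 s2 h12.le s : ℝ)) :=
    continuous_subtype_val.comp continuous_projIcc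
  have hprm : ∀ s, (projIcc s1 s2 h12.le s : ℝ) ∈ Icc s1 s2 := fun s => (projIcc s1 s2 h12.le s).2
  have hpre : ∀ s ∈ Icc s1 s2, (projIcc s1 s2 h12.le s : ℝ) = s := by
    intro s hs
    rw [projIcc_of_mem h12.le hs]
  refine ANL_core (k := fun s => K (projIcc s1 s2 h12.le s)) (b := fun s => B (projIcc s1 s2 h12.le s))
    (hK.comp_continuous hprc hprm) (hB.comp_continuous hprc hprm) (fun s => hpos _ (hprm s))
    (M := B sM) (m := B sm) (Q := Q) (fun s => hM (hprm s)) (hpos _ hsM) (fun s => hm (hprm s))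
    (hpos _ hsm) (fun s => hQ _ (hprm s)) h12 hμ (fun μ hμ => hlt μ hμ sM hsM) ?_
  intro μ hμ
  rw [← hzero μ hμ]
  refine intervalIntegral.integral_congr fun s hs => ?_
  rw [uIcc_of_le h12.le] at hs
  have h1 : ∫ r in s1..s, K (projIcc s1 s2 h12.le r) / Real.sqrt (B (projIcc s1 s2 h12.le r) -
      μ * B (projIcc s1 s2 h12.le r) ^ 2) = ∫ r in s1..s, K r / Real.sqrt (B r - μ * B r ^ 2) := by
    refine intervalIntegral.integral_congr fun r hr => ?_
    rw [uIcc_of_le hs.1] at hr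
    rw [hpre r ⟨hr.1, hr.2.trans hs.2⟩]
  exact congrArg (fun x : ℝ => Complex.exp ((x : ℂ) * Complex.I)) h1

end Pool.PSC
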