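import Pool.Agent.Work.MP_02e829_ps.Interface

/-! # Block DENS (helper96) -/

open Set Filter Manifold MeasureTheory
open scoped Topology ContDiff Manifold

set_option autoImplicit false
set_option linter.unusedSectionVars false

universe w

namespace Pool.PSC

section

variable {S : Type w} [TopologicalSpace S] [ChartedSpace E2 S] [IsManifold (𝓡 2) 2 S]

/-- the height in a chart -/
noncomputable def DENS_z (g : S → E3) (i : S) (y : E2) : ℝ := g ((extChartAt (𝓡 2) i).symm y) 2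

theorem DENS_cd {g : S → E3} (hg : ContMDiff (𝓡 2) (𝓡 3) 2 g) (i : S) :
    ContDiffOn ℝ 2 (fun y => g ((extChartAt (𝓡 2) i).symm y)) (extChartAt (𝓡 2) i).target := by
  have h1 := hg.comp_contMDiffOn (contMDiffOn_extChartAt_symm (I := 𝓡 2) (n := 2) i)
  exact contMDiffOn_iff_contDiffOn.1 h1

theorem DENS_cdz {g : S → E3} (hg : ContMDiff (𝓡 2) (𝓡 3) 2 g) (i : S) :
    ContDiffOn ℝ 2 (DENS_z g i) (extChartAt (𝓡 2) i).target :=
  contDiffOn_euclidean.1 (DENS_cd hg i) 2

theorem DENS_fd {g : S → E3} (hg : ContMDiff (𝓡 2) (𝓡 3) 2 g) (i : S) {x : E2}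
    (hx : x ∈ (extChartAt (𝓡 2) i).target) (w : E2) :
    fderiv ℝ (DENS_z g i) x w = FRD.dvec g ((extChartAt (𝓡 2) i).symm x)
        (mfderiv 𝓘(ℝ, E2) (𝓡 2) (extChartAt (𝓡 2) i).symm x w) 2 := by
  have h1 : DifferentiableAt ℝ (fun y => g ((extChartAt (𝓡 2) i).symm y)) x :=
    ((DENS_cd hg i).contDiffAt ((isOpen_extChartAt_target i).mem_nhds hx)).differentiableAt
      (by norm_num)
  have h2 := (EuclideanSpace.proj (2 : Fin 3) : E3 →L[ℝ] ℝ).hasFDerivAt.comp x h1.hasFDerivAt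
  have h3 : fderiv ℝ (DENS_z g i) x = _ := h2.fderiv
  rw [h3, ContinuousLinearMap.comp_apply, RL.fderiv_chart hg i hx w]
  rfl

/-- the derivative of the difference of the heights vanishes in every chart -/
theorem DENS_zero [CompactSpace S] {f : ℝ → S → E3} (hf : Fam f) (hs : HSec f)
    (hr : ∀ p : S, (∀ q, f 0 q 2 = f 0 p 2 → Reg (f 0) q) → ∀ t ∈ Icc (0 : ℝ) 1, ∀ v,
      FRD.dvec (f t) p v 2 = FRD.dvec (f 0) p v 2) {t : ℝ} (ht : t ∈ Icc (0 : ℝ) 1) (i : S)
    {x : E2} (hx : x ∈ (extChartAt (𝓡 2) i).target) :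
    fderiv ℝ (fun y => DENS_z (f t) i y - DENS_z (f 0) i y) x = 0 := by
  have h0 : (0 : ℝ) ∈ Icc (0 : ℝ) 1 := ⟨le_rfl, zero_le_one⟩
  have hop := isOpen_extChartAt_target (I := 𝓡 2) i
  have hcd : ContDiffOn ℝ 2 (fun y => DENS_z (f t) i y - DENS_z (f 0) i y)
      (extChartAt (𝓡 2) i).target :=
    (DENS_cdz (hf.smooth t ht) i).sub (DENS_cdz (hf.smooth 0 h0) i)
  have hdt : ∀ y ∈ (extChartAt (𝓡 2) i).target, DifferentiableAt ℝ (DENS_z (f t) i) y :=
    fun y hy => ((DENS_cdz (hf.smooth t ht) i).contDiffAt (hop.mem_nhds hy)).differentiableAt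
      (by norm_num)
  have hd0 : ∀ y ∈ (extChartAt (𝓡 2) i).target, DifferentiableAt ℝ (DENS_z (f 0) i) y :=
    fun y hy => ((DENS_cdz (hf.smooth 0 h0) i).contDiffAt (hop.mem_nhds hy)).differentiableAt
      (by norm_num)
  set A : Set E2 := {y ∈ (extChartAt (𝓡 2) i).target |
    ∀ q, f 0 q 2 = f 0 ((extChartAt (𝓡 2) i).symm y) 2 → Reg (f 0) q} with hA
  have hA0 : ∀ y ∈ A, fderiv ℝ (fun y => DENS_z (f t) i y - DENS_z (f 0) i y) y = 0 := by
    rintro y ⟨hy1, hy2⟩
    ext w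
    rw [fderiv_fun_sub (hdt y hy1) (hd0 y hy1)]
    have e1 := DENS_fd (hf.smooth t ht) i hy1 w
    have e2 := DENS_fd (hf.smooth 0 h0) i hy1 w
    have e3 := hr _ hy2 t ht (mfderiv 𝓘(ℝ, E2) (𝓡 2) (extChartAt (𝓡 2) i).symm y w)
    show fderiv ℝ (DENS_z (f t) i) y w - fderiv ℝ (DENS_z (f 0) i) y w = 0
    rw [e1, e2]
    exact sub_eq_zero.2 e3
  by_cases hcl : x ∈ closure A
  · have hc : ContinuousAt (fderiv ℝ (fun y => DENS_z (f t) i y - DENS_z (f 0) i y)) x :=
      ((hcd.contDiffAt (hop.mem_nhds hx)).fderiv_right (m := 1) (by norm_num)).continuousAt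
    by_contra hne
    have h1 := hc.eventually_ne hne
    have h2 := (mem_closure_iff_frequently.1 hcl).mono hA0
    obtain ⟨y, h3, h4⟩ := (h2.and_eventually h1).exists
    exact h4 h3
  · -- a ball with critical levels only
    have hnb : (closure A)ᶜ ∩ (extChartAt (𝓡 2) i).target ∈ 𝓝 x :=
      inter_mem (isClosed_closure.isOpen_compl.mem_nhds hcl) (hop.mem_nhds hx)
    obtain ⟨r, hr0, hb⟩ := Metric.mem_nhds_iff.1 hnb
    have hbt : ∀ y ∈ Metric.ball x r, y ∈ (extChartAt (𝓡 2) i).target := fun y hy => (hb hy).2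
    have hbA : ∀ y ∈ Metric.ball x r, ∃ q, f 0 q 2 = f 0 ((extChartAt (𝓡 2) i).symm y) 2 ∧
        ¬ Reg (f 0) q := by
      intro y hy
      by_contra hcon
      push Not at hcon
      exact (hb hy).1 (subset_closure ⟨hbt y hy, hcon⟩)
    -- the critical values
    obtain ⟨T, -, hT⟩ := isCompact_univ.elim_nhds_subcover
      (fun p : S => (extChartAt (𝓡 2) p).source) (fun p _ => extChartAt_source_mem_nhds p)
    set Z : S → Set ℝ := fun j => DENS_z (f 0) j ''
      {y ∈ (extChartAt (𝓡 2) j).target | fderiv ℝ (DENS_z (f 0) j) y = 0} with hZ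
    have hZ0 : ∀ j, volume (Z j) = 0 := fun j =>
      RL.sard (isOpen_extChartAt_target j) (DENS_cdz (hf.smooth 0 h0) j)
    have hZT : volume (⋃ j ∈ T, Z j) = 0 :=
      (measure_biUnion_null_iff T.countable_toSet).2 fun j _ => hZ0 j
    have hsub : DENS_z (f 0) i '' Metric.ball x r ⊆ ⋃ j ∈ T, Z j := by
      rintro _ ⟨y, hy, rfl⟩
      obtain ⟨q, hq1, hq2⟩ := hbA y hy
      obtain ⟨j, hjT, hqj⟩ := mem_iUnion₂.1 (hT (mem_univ q))
      refine mem_iUnion₂.2 ⟨j, hjT, extChartAt (𝓡 2) j q,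
        ⟨(extChartAt (𝓡 2) j).map_source hqj, ?_⟩, ?_⟩
      · ext w
        rw [DENS_fd (hf.smooth 0 h0) j ((extChartAt (𝓡 2) j).map_source hqj) w,
          (extChartAt (𝓡 2) j).left_inv hqj]
        by_contra hne
        exact hq2 ⟨_, hne⟩
      · show f 0 ((extChartAt (𝓡 2) j).symm (extChartAt (𝓡 2) j q)) 2 = _
        rw [(extChartAt (𝓡 2) j).left_inv hqj, hq1]
        rfl
    have hvol : volume (DENS_z (f 0) i '' Metric.ball x r) = 0 := measure_mono_null hsub hZT
    have hcz : ContinuousOn (DENS_z (f 0) i) (Metric.ball x r) :=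
      ((DENS_cdz (hf.smooth 0 h0) i).continuousOn).mono hbt
    have hpre : IsPreconnected (DENS_z (f 0) i '' Metric.ball x r) :=
      ((convex_ball x r).isPreconnected).image _ hcz
    have hconst : ∀ y ∈ Metric.ball x r, ∀ y' ∈ Metric.ball x r,
        DENS_z (f 0) i y = DENS_z (f 0) i y' := by
      have key : ∀ y ∈ Metric.ball x r, ∀ y' ∈ Metric.ball x r,
          ¬ DENS_z (f 0) i y < DENS_z (f 0) i y' := by
        intro y hy y' hy' hlt
        have h1 : Icc (DENS_z (f 0) i y) (DENS_z (f 0) i y') ⊆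
            DENS_z (f 0) i '' Metric.ball x r :=
          hpre.Icc_subset (mem_image_of_mem _ hy) (mem_image_of_mem _ hy')
        have h2 := measure_mono_null h1 hvol
        rw [Real.volume_Icc, ENNReal.ofReal_eq_zero] at h2
        linarith
      intro y hy y' hy'
      exact le_antisymm (not_lt.1 (key y' hy' y hy)) (not_lt.1 (key y hy y' hy'))
    have hC : IsPreconnected ((extChartAt (𝓡 2) i).symm '' Metric.ball x r) :=
      ((convex_ball x r).isPreconnected).image _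
        ((continuousOn_extChartAt_symm (I := 𝓡 2) i).mono hbt)
    have hsec := hs t ht _ hC (by
      rintro _ ⟨y, hy, rfl⟩ _ ⟨y', hy', rfl⟩
      exact hconst y hy y' hy')
    have hev : (fun y => DENS_z (f t) i y - DENS_z (f 0) i y) =ᶠ[𝓝 x]
        fun _ => DENS_z (f t) i x - DENS_z (f 0) i x := by
      filter_upwards [Metric.ball_mem_nhds x hr0] with y hy
      have h1 := hconst y hy x (Metric.mem_ball_self hr0)
      have h2 : DENS_z (f t) i y = DENS_z (f t) i x :=
        hsec _ (mem_image_of_mem _ hy) _ (mem_image_of_mem _ (Metric.mem_ball_self hr0))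
      rw [h1, h2]
    rw [hev.fderiv_eq]
    simp

end

theorem blk_DENS : Stmt_DENS.{w} := by
  intro S _ _ _ _ _ f hf hs hr t ht
  have h0 : (0 : ℝ) ∈ Icc (0 : ℝ) 1 := ⟨le_rfl, zero_le_one⟩
  have hlc : IsLocallyConstant fun p => f t p 2 - f 0 p 2 := by
    rw [IsLocallyConstant.iff_eventually_eq]
    intro p
    obtain ⟨r, hr1, hb⟩ := Metric.mem_nhds_iff.1 (extChartAt_target_mem_nhds (I := 𝓡 2) p)
    have h2 : ∀ᶠ z in 𝓝 p, extChartAt (𝓡 2) p z ∈ Metric.ball (extChartAt (𝓡 2) p p) r :=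
      (continuousAt_extChartAt p).eventually (Metric.ball_mem_nhds _ hr1)
    have hop := isOpen_extChartAt_target (I := 𝓡 2) p
    filter_upwards [h2, extChartAt_source_mem_nhds (I := 𝓡 2) p] with z hz hz2
    have h3 := Metric.isOpen_ball.is_const_of_fderiv_eq_zero
      ((convex_ball (extChartAt (𝓡 2) p p) r).isPreconnected) (f := fun y =>
        DENS_z (f t) p y - DENS_z (f 0) p y)
      (fun x hx => (((DENS_cdz (hf.smooth t ht) p).contDiffAt (hop.mem_nhds (hb hx))).sub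
        ((DENS_cdz (hf.smooth 0 h0) p).contDiffAt (hop.mem_nhds (hb hx)))).differentiableAt
        (by norm_num) |>.differentiableWithinAt)
      (fun x hx => DENS_zero hf hs hr ht p (hb hx)) hz (Metric.mem_ball_self hr1)
    simp only [DENS_z, (extChartAt (𝓡 2) p).left_inv hz2, extChartAt_to_inv] at h3
    exact h3
  obtain ⟨p0⟩ : Nonempty S := inferInstance
  refine ⟨f t p0 2 - f 0 p0 2, fun p => ?_⟩
  have h1 : f t p 2 - f 0 p 2 = f t p0 2 - f 0 p0 2 := hlc.apply_eq_of_preconnectedSpace p p0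
  linarith

end Pool.PSC
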