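import Pool.Agent.Work.MP_02e829_ps.Interface

/-! Block FLAT (helper36). -/

open Set Filter Manifold
open scoped Topology ContDiff Manifold

set_option autoImplicit false

namespace Pool.PSC

/-- the case of a positive `Q` -/
theorem FLAT_pos (s1 s2 : ℝ) (B K : ℝ → ℝ) (μ : ℝ) (hs : s1 < s2) (hB : ContinuousOn B (Icc s1 s2))
    (hK : ContinuousOn K (Icc s1 s2)) (hpos : ∀ s ∈ Icc s1 s2, 0 < B s - μ * B s ^ 2)
    (G ζ : ℝ → ℂ) (κ Q : ℝ → ℝ) (hG : G s1 = G s2)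
    (h : ∀ s ∈ Icc s1 s2, HasDerivAt G (ζ s) s ∧ ‖ζ s‖ = 1 ∧
        HasDerivAt ζ (Complex.I * κ s * ζ s) s ∧ κ s * Q s = K s ∧ Q s ^ 2 = B s - μ * B s ^ 2)
    (hQ : ∀ s ∈ Icc s1 s2, 0 < Q s) :
    (∫ s in s1..s2, Complex.exp
      (((∫ r in s1..s, K r / Real.sqrt (B r - μ * B r ^ 2)) : ℝ) * Complex.I)) = 0 := by
  have hwc : ContinuousOn (fun r => K r / Real.sqrt (B r - μ * B r ^ 2)) (Icc s1 s2) := by
    refine hK.div ?_ ?_
    · exact (hB.sub (continuousOn_const.mul (hB.pow 2))).sqrt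
    · intro r hr
      exact (Real.sqrt_pos.2 (hpos r hr)).ne'
  obtain ⟨w, hw, hwe⟩ : ∃ w : ℝ → ℝ, Continuous w ∧
      ∀ r ∈ Icc s1 s2, w r = K r / Real.sqrt (B r - μ * B r ^ 2) := by
    refine ⟨Set.IccExtend hs.le (Set.domRestrict (Icc s1 s2)
      fun r => K r / Real.sqrt (B r - μ * B r ^ 2)), ?_, ?_⟩
    · exact (continuousOn_iff_continuous_domRestrict.1 hwc).Icc_extend'
    · intro r hr
      rw [Set.IccExtend_of_mem hs.le _ hr]
      rfl
  have hth : ∀ s ∈ Icc s1 s2, (∫ r in s1..s, K r / Real.sqrt (B r - μ * B r ^ 2)) =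
      ∫ r in s1..s, w r := by
    intro s hs'
    refine intervalIntegral.integral_congr ?_
    intro r hr
    rw [uIcc_of_le hs'.1] at hr
    exact (hwe r ⟨hr.1, hr.2.trans hs'.2⟩).symm
  obtain ⟨θ, hθ⟩ : ∃ θ : ℝ → ℝ, θ = fun s => ∫ r in s1..s, w r := ⟨_, rfl⟩
  have hθd : ∀ s, HasDerivAt θ (w s) s := by
    intro s
    rw [hθ]
    exact intervalIntegral.integral_hasDerivAt_right (hw.intervalIntegrable _ _)
      (hw.stronglyMeasurableAtFilter _ _) hw.continuousAt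
  have hθ1 : θ s1 = 0 := by rw [hθ]; simp
  have hκ : ∀ s ∈ Icc s1 s2, κ s = w s := by
    intro s hs'
    obtain ⟨-, -, -, h4, h5⟩ := h s hs'
    have h6 : Real.sqrt (B s - μ * B s ^ 2) = Q s := by
      rw [← h5, Real.sqrt_sq (hQ s hs').le]
    rw [hwe s hs', h6, ← h4, mul_div_assoc, div_self (hQ s hs').ne', mul_one]
  have hgd : ∀ s ∈ Icc s1 s2, HasDerivAt (fun s => ζ s * Complex.exp (-((θ s : ℂ) * Complex.I))) 0 s := by
    intro s hs'
    obtain ⟨-, -, h3, -, -⟩ := h s hs'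
    have h4 : HasDerivAt (fun s => (θ s : ℂ)) ((w s : ℝ) : ℂ) s := (hθd s).ofReal_comp
    have h5 : HasDerivAt (fun s => Complex.exp (-((θ s : ℂ) * Complex.I)))
        (Complex.exp (-((θ s : ℂ) * Complex.I)) * (-((w s : ℂ) * Complex.I))) s :=
      ((h4.mul_const Complex.I).fun_neg).cexp
    have h6 := h3.mul h5
    refine h6.congr_deriv ?_
    rw [hκ s hs']
    ring
  have hconst := constant_of_has_deriv_right_zero (a := s1) (b := s2)
    (f := fun s => ζ s * Complex.exp (-((θ s : ℂ) * Complex.I)))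
    (fun s hs' => (hgd s hs').continuousAt.continuousWithinAt)
    (fun s hs' => (hgd s ⟨hs'.1, hs'.2.le⟩).hasDerivWithinAt)
  have hζ : ∀ s ∈ Icc s1 s2, ζ s = ζ s1 * Complex.exp ((θ s : ℂ) * Complex.I) := by
    intro s hs'
    have h1 := hconst s hs'
    simp only [hθ1, Complex.ofReal_zero, zero_mul, neg_zero, Complex.exp_zero, mul_one] at h1
    rw [← h1, mul_assoc, ← Complex.exp_add, neg_add_cancel, Complex.exp_zero, mul_one]
  have hint : ∫ s in s1..s2, ζ s = G s2 - G s1 := by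
    refine intervalIntegral.integral_eq_sub_of_hasDerivAt ?_ ?_
    · intro s hs'
      rw [uIcc_of_le hs.le] at hs'
      exact (h s hs').1
    · refine ContinuousOn.intervalIntegrable ?_
      intro s hs'
      rw [uIcc_of_le hs.le] at hs'
      exact (h s hs').2.2.1.continuousAt.continuousWithinAt
  rw [hG, sub_self] at hint
  have h1 : ∫ s in s1..s2, ζ s = ζ s1 * ∫ s in s1..s2, Complex.exp
      (((∫ r in s1..s, K r / Real.sqrt (B r - μ * B r ^ 2)) : ℝ) * Complex.I) := by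
    rw [← intervalIntegral.integral_const_mul]
    refine intervalIntegral.integral_congr ?_
    intro s hs'
    rw [uIcc_of_le hs.le] at hs'
    simp only
    rw [hth s hs', hζ s hs', hθ]
  rw [hint] at h1
  have h2 : ζ s1 ≠ 0 := by
    intro h3
    have h4 := (h s1 ⟨le_rfl, hs.le⟩).2.1
    rw [h3, norm_zero] at h4
    exact zero_ne_one h4
  rcases mul_eq_zero.1 h1.symm with h3 | h3
  · exact absurd h3 h2
  · exact h3

/-- any sign -/
theorem FLAT_any (s1 s2 : ℝ) (B K : ℝ → ℝ) (μ : ℝ) (hs : s1 < s2) (hB : ContinuousOn B (Icc s1 s2))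
    (hK : ContinuousOn K (Icc s1 s2)) (hpos : ∀ s ∈ Icc s1 s2, 0 < B s - μ * B s ^ 2)
    (G ζ : ℝ → ℂ) (κ Q : ℝ → ℝ) (hG : G s1 = G s2) (hQc : ContinuousOn Q (Icc s1 s2))
    (h : ∀ s ∈ Icc s1 s2, HasDerivAt G (ζ s) s ∧ ‖ζ s‖ = 1 ∧
        HasDerivAt ζ (Complex.I * κ s * ζ s) s ∧ κ s * Q s = K s ∧ Q s ^ 2 = B s - μ * B s ^ 2) :
    (∫ s in s1..s2, Complex.exp
      (((∫ r in s1..s, K r / Real.sqrt (B r - μ * B r ^ 2)) : ℝ) * Complex.I)) = 0 := by
  have hQ0 : ∀ s ∈ Icc s1 s2, Q s ≠ 0 := by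
    intro s hs' h0
    have h1 := (h s hs').2.2.2.2
    rw [h0] at h1
    have h2 := hpos s hs'
    rw [← h1] at h2
    simp at h2
  have hm1 : s1 ∈ Icc s1 s2 := ⟨le_rfl, hs.le⟩
  rcases lt_or_gt_of_ne (hQ0 s1 hm1) with hneg | hps
  · have hall : ∀ s ∈ Icc s1 s2, Q s < 0 := by
      intro s hs'
      by_contra hcon
      push Not at hcon
      obtain ⟨x, hx, hx0⟩ := isPreconnected_Icc.intermediate_value hm1 hs' hQc ⟨hneg.le, hcon⟩
      exact hQ0 x hx hx0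
    refine FLAT_pos s1 s2 B K μ hs hB hK hpos (fun s => star (G s)) (fun s => star (ζ s))
      (fun s => -κ s) (fun s => -Q s) (by simp only [hG]) ?_ ?_
    · intro s hs'
      obtain ⟨h1, h2, h3, h4, h5⟩ := h s hs'
      refine ⟨h1.star, ?_, ?_, ?_, ?_⟩
      · rw [norm_star]; exact h2
      · refine h3.star.congr_deriv ?_
        simp only [star_mul', Complex.star_def, Complex.conj_I, Complex.conj_ofReal,
          Complex.ofReal_neg]
        ring
      · rw [neg_mul_neg]; exact h4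
      · rw [neg_sq]; exact h5
    · intro s hs'
      have := hall s hs'
      linarith
  · have hall : ∀ s ∈ Icc s1 s2, 0 < Q s := by
      intro s hs'
      by_contra hcon
      push Not at hcon
      obtain ⟨x, hx, hx0⟩ := isPreconnected_Icc.intermediate_value hs' hm1 hQc ⟨hcon, hps.le⟩
      exact hQ0 x hx hx0
    exact FLAT_pos s1 s2 B K μ hs hB hK hpos G ζ κ Q hG h hall

theorem blk_FLAT (hANL : Stmt_ANL) : Stmt_FLAT := by
  intro s1 s2 B K m hs hB hK hBp hm hm0 hfam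
  have hm1 : s1 ∈ Icc s1 s2 := ⟨le_rfl, hs.le⟩
  have hle : ∀ t ∈ Icc (0 : ℝ) 1, ∀ s ∈ Icc s1 s2, m t ^ 2 * B s ≤ 1 := by
    intro t ht s hs'
    obtain ⟨G, ζ, κ, Q, -, -, h⟩ := hfam t ht
    have h1 := (h s hs').2.2.2.2
    have h2 : 0 ≤ B s * (1 - m t ^ 2 * B s) := by nlinarith [sq_nonneg (Q s)]
    have h3 := hBp s hs'
    by_contra hcon
    push Not at hcon
    have : B s * (1 - m t ^ 2 * B s) < 0 := mul_neg_of_pos_of_neg h3 (by linarith)
    linarith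
  have hsq : ∀ t ∈ Icc (0 : ℝ) 1, m t ^ 2 = 1 := by
    intro t1 ht1
    by_contra hne
    have h0m : (0 : ℝ) ∈ Icc (0 : ℝ) 1 := ⟨le_rfl, zero_le_one⟩
    have hm2 : ContinuousOn (fun t => m t ^ 2) (Icc 0 1) := hm.pow 2
    -- values strictly between are attained
    have hint : ∀ μ, (1 < μ ∧ μ < m t1 ^ 2) ∨ (m t1 ^ 2 < μ ∧ μ < 1) →
        ∃ t ∈ Icc (0 : ℝ) 1, m t ^ 2 = μ := by
      rintro μ (⟨h1, h2⟩ | ⟨h1, h2⟩)
      · obtain ⟨t, ht, hte⟩ := isPreconnected_Icc.intermediate_value h0m ht1 hm2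
          (show μ ∈ Icc (m 0 ^ 2) (m t1 ^ 2) from ⟨by rw [hm0]; linarith, h2.le⟩)
        exact ⟨t, ht, hte⟩
      · obtain ⟨t, ht, hte⟩ := isPreconnected_Icc.intermediate_value ht1 h0m hm2
          (show μ ∈ Icc (m t1 ^ 2) (m 0 ^ 2) from ⟨h1.le, by rw [hm0]; linarith⟩)
        exact ⟨t, ht, hte⟩
    have key : ∀ μ1 μ2 : ℝ, μ1 < μ2 → (∃ t ∈ Icc (0 : ℝ) 1, m t ^ 2 = μ2) →
        (∀ μ ∈ Ioo μ1 μ2, ∃ t ∈ Icc (0 : ℝ) 1, m t ^ 2 = μ) → False := by
      intro μ1 μ2 h12 hμ2 hall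
      have hlt : ∀ μ ∈ Ioo μ1 μ2, ∀ s ∈ Icc s1 s2, μ * B s < 1 := by
        intro μ hμ s hs'
        obtain ⟨t, ht, hte⟩ := hμ2
        have h1 := hle t ht s hs'
        rw [hte] at h1
        have h2 := hBp s hs'
        nlinarith [hμ.2]
      refine hANL s1 s2 B K hs hB hK hBp μ1 μ2 h12 hlt ?_
      intro μ hμ
      obtain ⟨t, ht, hte⟩ := hall μ hμ
      obtain ⟨G, ζ, κ, Q, hQc, hG, h⟩ := hfam t ht
      rw [hte] at h
      refine FLAT_any s1 s2 B K μ hs hB hK ?_ G ζ κ Q hG hQc h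
      intro s hs'
      have h1 := hlt μ hμ s hs'
      have h2 := hBp s hs'
      have h3 : 0 < B s * (1 - μ * B s) := mul_pos h2 (by linarith)
      nlinarith
    rcases lt_or_gt_of_ne hne with h1 | h1
    · refine key (m t1 ^ 2) 1 h1 ⟨0, h0m, by rw [hm0]; norm_num⟩ ?_
      intro μ hμ
      exact hint μ (Or.inr hμ)
    · refine key 1 (m t1 ^ 2) h1 ⟨t1, ht1, rfl⟩ ?_
      intro μ hμ
      exact hint μ (Or.inl hμ)
  intro t ht
  have h0m : (0 : ℝ) ∈ Icc (0 : ℝ) 1 := ⟨le_rfl, zero_le_one⟩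
  have h2 : (m t - 1) * (m t + 1) = 0 := by nlinarith [hsq t ht]
  rcases mul_eq_zero.1 h2 with h | h
  · linarith
  · exfalso
    have h : m t = -1 := by linarith
    obtain ⟨x, hx, hx0⟩ := isPreconnected_Icc.intermediate_value ht h0m hm
      (show (0 : ℝ) ∈ Icc (m t) (m 0) from ⟨by rw [h]; norm_num, by rw [hm0]; norm_num⟩)
    have h1 := hsq x hx
    rw [hx0] at h1
    norm_num at h1

end Pool.PSC
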