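import Pool.Agent.Work.MP_02e829_ps.Interface

/-!
# FRML: every level curve is an arc of the flow box
-/

open Set Filter Manifold
open scoped Topology ContDiff Manifold

set_option autoImplicit false

universe w

namespace Pool.PSC

theorem FRML_const {f : ℝ → ℝ} {J : Set ℝ} (hJ : Convex ℝ J) {e : ℝ}
    (hf : ∀ s ∈ J, HasDerivAt f e s) {m s : ℝ} (hm : m ∈ J) (hs : s ∈ J) :
    f s = f m + e * (s - m) := by
  have h1 : ∀ x ∈ J, HasDerivWithinAt (fun x => f x - e * x) 0 J x := by
    intro x hx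
    have h0 := ((hf x hx).fun_sub ((hasDerivAt_id' x).const_mul e)).hasDerivWithinAt (s := J)
    have h1 : e - e * 1 = 0 := by ring
    rwa [h1] at h0
  have h2 := hJ.norm_image_sub_le_of_norm_hasDerivWithin_le (C := 0) h1 (by intro x _; simp) hm hs
  rw [zero_mul, norm_le_zero_iff] at h2
  linarith

theorem blk_FRML : Stmt_FRML.{w} := by
  intro S _ _ _ g c N lam α γ η a b m hA hL hm hmN
  have hγ : ∀ s ∈ Ioo a b, ContinuousAt γ s := fun s hs => (hL s hs).1.continuousAt
  have hα : ∀ σ ∈ Ioo (-η) η, ContinuousAt α σ := fun σ hσ => (hA.lc σ hσ).1.continuousAt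
  set O : Set ℝ := {s | s ∈ Ioo a b ∧ γ s ∈ N} with hOdef
  have hO : IsOpen O := by
    rw [isOpen_iff_mem_nhds]
    rintro s ⟨hs, hsN⟩
    exact Filter.inter_mem (isOpen_Ioo.mem_nhds hs)
      ((hγ s hs).preimage_mem_nhds (hA.op.mem_nhds hsN))
  have hmO : m ∈ O := ⟨hm, hmN⟩
  have hder : ∀ s ∈ O, HasDerivAt (fun s => lam (γ s)) 1 s ∨ HasDerivAt (fun s => lam (γ s)) (-1) s := by
    rintro s ⟨hs, hsN⟩
    refine hA.der γ s (hL s hs).1 ?_ (hL s hs).2.2 hsN
    filter_upwards [isOpen_Ioo.mem_nhds hs] with s' hs'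
    exact (hL s' hs').2.1
  set J := connectedComponentIn O m with hJdef
  have hJO : J ⊆ O := connectedComponentIn_subset O m
  have hJop : IsOpen J := hO.connectedComponentIn
  have hJpre : IsPreconnected J := isPreconnected_connectedComponentIn
  have hJc : Convex ℝ J := hJpre.ordConnected.convex
  have hmJ : m ∈ J := mem_connectedComponentIn hmO
  -- the sign
  obtain ⟨e, he, hder'⟩ : ∃ e : ℝ, (e = 1 ∨ e = -1) ∧ ∀ s ∈ J, HasDerivAt (fun s => lam (γ s)) e s := by
    have h1 : ∀ s ∈ J, HasDerivWithinAt (fun s => lam (γ s)) (deriv (fun s => lam (γ s)) s) J s := by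
      intro s hs
      rcases hder s (hJO hs) with h | h
      · rw [h.deriv]; exact h.hasDerivWithinAt
      · rw [h.deriv]; exact h.hasDerivWithinAt
    have h2 : ∀ s ∈ J, deriv (fun s => lam (γ s)) s ≠ 0 := by
      intro s hs
      rcases hder s (hJO hs) with h | h
      · rw [h.deriv]; norm_num
      · rw [h.deriv]; norm_num
    rcases hasDerivWithinAt_forall_lt_or_forall_gt_of_forall_ne hJc h1 h2 with h3 | h3
    · refine ⟨-1, Or.inr rfl, fun s hs => ?_⟩
      rcases hder s (hJO hs) with h | h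
      · have := h3 s hs
        rw [h.deriv] at this
        norm_num at this
      · exact h
    · refine ⟨1, Or.inl rfl, fun s hs => ?_⟩
      rcases hder s (hJO hs) with h | h
      · exact h
      · have := h3 s hs
        rw [h.deriv] at this
        norm_num at this
  have hlin : ∀ s ∈ J, lam (γ s) = lam (γ m) + e * (s - m) := fun s hs => FRML_const hJc hder' hmJ hs
  have hJα : ∀ s ∈ J, γ s = α (lam (γ m) + e * (s - m)) := by
    intro s hs
    rw [← hlin s hs]
    exact (hA.inv (γ s) (hJO hs).2 (hL s (hJO hs).1).2.1).2.symm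
  refine ⟨e, he, ?_⟩
  set T : Set ℝ := Ioo a b ∩ (fun s => lam (γ m) + e * (s - m)) ⁻¹' Ioo (-η) η with hTdef
  have hcl : Continuous (fun s : ℝ => lam (γ m) + e * (s - m)) := by fun_prop
  have hTop : IsOpen T := isOpen_Ioo.inter (isOpen_Ioo.preimage hcl)
  have hTc : Convex ℝ T := by
    refine (convex_Ioo a b).inter ?_
    intro x hx y hy p q hp hq hpq
    have h1 : lam (γ m) + e * (x - m) ∈ Ioo (-η) η := hx
    have h2 : lam (γ m) + e * (y - m) ∈ Ioo (-η) η := hy
    have h3 := convex_Ioo (-η) η h1 h2 hp hq hpq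
    have h4 : lam (γ m) + e * ((p • x + q • y) - m) =
        p • (lam (γ m) + e * (x - m)) + q • (lam (γ m) + e * (y - m)) := by
      simp only [smul_eq_mul]
      have : q = 1 - p := by linarith
      subst this
      ring
    show lam (γ m) + e * ((p • x + q • y) - m) ∈ Ioo (-η) η
    rw [h4]
    exact h3
  have hmT : m ∈ T := by
    refine ⟨hm, ?_⟩
    show lam (γ m) + e * (m - m) ∈ Ioo (-η) η
    rw [sub_self, mul_zero, add_zero]
    exact (hA.inv (γ m) hmN (hL m hm).2.1).1
  have hTJ : T ⊆ J := by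
    refine hTc.isPreconnected.subset_of_closure_inter_subset hJop ⟨m, hmT, hmJ⟩ ?_
    rintro q ⟨hq, hqT⟩
    have hne : (𝓝[J] q).NeBot := mem_closure_iff_nhdsWithin_neBot.1 hq
    have l1 : Tendsto γ (𝓝[J] q) (𝓝 (γ q)) := (hγ q hqT.1).tendsto.mono_left nhdsWithin_le_nhds
    have l2 : Tendsto (fun s => α (lam (γ m) + e * (s - m))) (𝓝[J] q)
        (𝓝 (α (lam (γ m) + e * (q - m)))) := by
      have : ContinuousAt (fun s => α (lam (γ m) + e * (s - m))) q :=
        ContinuousAt.comp (f := fun s : ℝ => lam (γ m) + e * (s - m)) (g := α) (hα _ hqT.2)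
          hcl.continuousAt
      exact this.tendsto.mono_left nhdsWithin_le_nhds
    have l3 : Tendsto γ (𝓝[J] q) (𝓝 (α (lam (γ m) + e * (q - m)))) :=
      l2.congr' (by filter_upwards [self_mem_nhdsWithin] with s hs using (hJα s hs).symm)
    have hq' : γ q = α (lam (γ m) + e * (q - m)) := tendsto_nhds_unique l1 l3
    have hqO : q ∈ O := ⟨hqT.1, by rw [hq']; exact hA.mem _ hqT.2⟩
    have hpre : IsPreconnected (insert q J) :=
      hJpre.subset_closure (subset_insert q J) (insert_subset hq subset_closure)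
    exact hpre.subset_connectedComponentIn (mem_insert_of_mem q hmJ) (insert_subset hqO hJO)
      (mem_insert q J)
  intro s hs hs'
  exact hJα s (hTJ ⟨hs, hs'⟩)

end Pool.PSC
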