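import Pool.Agent.Work.MP_02e829_ps.Interface

/-! Block GRD: the gradient of the height (typed by helper62). -/

open Set Filter Manifold
open scoped Topology ContDiff Manifold

set_option autoImplicit false

universe w

namespace Pool.PSC

/-- the vertical unit vector -/
noncomputable def GRD_e : E3 := EuclideanSpace.single (2 : Fin 3) (1 : ℝ)

theorem GRD_inner (z : E3) : (inner ℝ GRD_e z : ℝ) = z 2 := by
  simp [GRD_e, EuclideanSpace.inner_single_left]

/-- the solution of the normal equations -/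
noncomputable def GRD_y (L : E2 →L[ℝ] E3) : E2 :=
  (Ring.inverse (ContinuousLinearMap.adjoint L ∘L L) : E2 →L[ℝ] E2)
    (ContinuousLinearMap.adjoint L GRD_e)

theorem GRD_unit {L : E2 →L[ℝ] E3} (hL : Function.Injective L) :
    IsUnit (ContinuousLinearMap.adjoint L ∘L L : E2 →L[ℝ] E2) := by
  rw [ContinuousLinearMap.isUnit_iff_bijective]
  have hinj : Function.Injective (ContinuousLinearMap.adjoint L ∘L L : E2 →L[ℝ] E2) := by
    rw [injective_iff_map_eq_zero]
    intro v hv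
    have h1 : (inner ℝ ((ContinuousLinearMap.adjoint L ∘L L : E2 →L[ℝ] E2) v) v : ℝ) = 0 := by
      rw [hv, inner_zero_left]
    rw [ContinuousLinearMap.comp_apply, ContinuousLinearMap.adjoint_inner_left,
      inner_self_eq_zero] at h1
    exact hL (by rw [h1, map_zero])
  refine ⟨hinj, ?_⟩
  exact (LinearMap.injective_iff_surjective
    (f := ((ContinuousLinearMap.adjoint L ∘L L : E2 →L[ℝ] E2) : E2 →ₗ[ℝ] E2))).1 hinj

theorem GRD_eq {L : E2 →L[ℝ] E3} (hL : Function.Injective L) (v : E2) :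
    (inner ℝ (L (GRD_y L)) (L v) : ℝ) = L v 2 := by
  have h1 : (ContinuousLinearMap.adjoint L ∘L L : E2 →L[ℝ] E2) (GRD_y L) =
      ContinuousLinearMap.adjoint L GRD_e := by
    have h2 := Ring.mul_inverse_cancel _ (GRD_unit hL)
    have h3 := DFunLike.congr_fun h2 (ContinuousLinearMap.adjoint L GRD_e)
    exact h3
  rw [← ContinuousLinearMap.adjoint_inner_left, ← ContinuousLinearMap.comp_apply, h1,
    ContinuousLinearMap.adjoint_inner_left, GRD_inner]

theorem GRD_uniq {L : E2 →L[ℝ] E3} (hL : Function.Injective L) {y : E2}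
    (h : ∀ v, (inner ℝ (L y) (L v) : ℝ) = L v 2) : y = GRD_y L := by
  have h1 : (inner ℝ (L (y - GRD_y L)) (L (y - GRD_y L)) : ℝ) = 0 := by
    rw [map_sub, inner_sub_left, ← map_sub, h, GRD_eq hL, sub_self]
  rw [inner_self_eq_zero] at h1
  have h2 : y - GRD_y L = 0 := hL (by rw [h1, map_zero])
  exact sub_eq_zero.1 h2

theorem GRD_cont {L : E2 → (E2 →L[ℝ] E3)} {x : E2} (hL : ContinuousAt L x)
    (hi : Function.Injective (L x)) : ContinuousAt (fun x => GRD_y (L x)) x := by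
  have h1 : ContinuousAt (fun x => ContinuousLinearMap.adjoint (L x)) x :=
    (ContinuousLinearMap.adjoint : (E2 →L[ℝ] E3) ≃ₗᵢ⋆[ℝ] (E3 →L[ℝ] E2)).continuous.continuousAt.comp
      hL
  have h2 : ContinuousAt (fun x => (ContinuousLinearMap.adjoint (L x) ∘L L x : E2 →L[ℝ] E2)) x :=
    h1.clm_comp hL
  have h3 : ContinuousAt (fun x => (Ring.inverse
      (ContinuousLinearMap.adjoint (L x) ∘L L x : E2 →L[ℝ] E2))) x := by
    obtain ⟨u, hu⟩ := GRD_unit hi
    have h4 := NormedRing.inverse_continuousAt u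
    rw [hu] at h4
    exact ContinuousAt.comp (f := fun x =>
      (ContinuousLinearMap.adjoint (L x) ∘L L x : E2 →L[ℝ] E2)) h4 h2
  exact h3.clm_apply (h1.clm_apply continuousAt_const)

theorem blk_GRD : Stmt_GRD.{w} := by
  intro S _ _ _ f hf
  have h0 : (0 : ℝ) ∈ Icc (0 : ℝ) 1 := ⟨le_rfl, zero_le_one⟩
  have hinj : ∀ p, Function.Injective (FRD.differential (f 0) p) := hf.imm
  refine ⟨fun p => GRD_y (FRD.differential (f 0) p), fun p v => GRD_eq (hinj p) v, ?_⟩
  intro t ht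
  rw [continuous_iff_continuousAt]
  intro p
  set φ := extChartAt (𝓡 2) p with hφ
  have hxt : φ p ∈ φ.target := mem_extChartAt_target p
  have hsymm : φ.symm (φ p) = p := extChartAt_to_inv p
  have hop : IsOpen φ.target := isOpen_extChartAt_target p
  have hC : ∀ τ ∈ Icc (0 : ℝ) 1, ContDiffOn ℝ 2 (fun y => f τ (φ.symm y)) φ.target := by
    intro τ hτ
    have h1 := (hf.smooth τ hτ).comp_contMDiffOn
      (contMDiffOn_extChartAt_symm (I := 𝓡 2) (n := 2) p)
    exact contMDiffOn_iff_contDiffOn.1 h1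
  have hD : ∀ τ ∈ Icc (0 : ℝ) 1,
      ContinuousAt (fderiv ℝ (fun y => f τ (φ.symm y))) (φ p) := by
    intro τ hτ
    exact (((hC τ hτ).contDiffAt (hop.mem_nhds hxt)).fderiv_right (m := 1)
      (by norm_num)).continuousAt
  have hinjF : ∀ x ∈ φ.target, Function.Injective (fderiv ℝ (fun y => f 0 (φ.symm y)) x) := by
    intro x hx
    have h1 : ⇑(fderiv ℝ (fun y => f 0 (φ.symm y)) x) =
        FRD.dvec (f 0) (φ.symm x) ∘ (mfderiv 𝓘(ℝ, E2) (𝓡 2) φ.symm x) :=
      funext fun w => Pool.RL.fderiv_chart (hf.smooth 0 h0) p hx w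
    rw [h1]
    exact (hf.imm _).comp (Pool.RL.chart_injective p hx)
  have hc1 : ContinuousAt (fun x => fderiv ℝ (fun y => f t (φ.symm y)) x
      (GRD_y (fderiv ℝ (fun y => f 0 (φ.symm y)) x))) (φ p) :=
    (hD t ht).clm_apply (GRD_cont (hD 0 h0) (hinjF _ hxt))
  have hc2 : ContinuousAt (fun q => fderiv ℝ (fun y => f t (φ.symm y)) (φ q)
      (GRD_y (fderiv ℝ (fun y => f 0 (φ.symm y)) (φ q)))) p :=
    ContinuousAt.comp (f := fun q => φ q) hc1 (continuousAt_extChartAt p)
  refine hc2.congr ?_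
  filter_upwards [extChartAt_source_mem_nhds (I := 𝓡 2) p] with q hq
  have hxq : φ q ∈ φ.target := φ.map_source hq
  have hsq : φ.symm (φ q) = q := φ.left_inv hq
  rw [Pool.RL.fderiv_chart (hf.smooth t ht) p hxq]
  rw [← hφ, hsq]
  congr 1
  refine GRD_uniq (hinj q) ?_
  intro v
  obtain ⟨w, hw⟩ : ∃ w : E2, mfderiv 𝓘(ℝ, E2) (𝓡 2) φ.symm (φ q) w = v := by
    have : IsManifold (𝓡 2) 1 S := IsManifold.of_le (n := 2) (by norm_num)
    have h1 := isInvertible_mfderivWithin_extChartAt_symm (I := 𝓡 2) hxq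
    have h2 : range (𝓡 2) = univ := (𝓡 2).range_eq_univ
    rw [h2, mfderivWithin_univ] at h1
    exact h1.surjective v
  have h3 := GRD_eq (hinjF _ hxq) w
  have e1 : fderiv ℝ (fun y => f 0 (φ.symm y)) (φ q) w = FRD.differential (f 0) q v := by
    have e := Pool.RL.fderiv_chart (hf.smooth 0 h0) p hxq w
    rw [hw] at e
    rw [← hφ] at e
    rw [e, hsq]
    rfl
  have e2 : fderiv ℝ (fun y => f 0 (φ.symm y)) (φ q)
      (GRD_y (fderiv ℝ (fun y => f 0 (φ.symm y)) (φ q))) =
      FRD.differential (f 0) q (mfderiv 𝓘(ℝ, E2) (𝓡 2) φ.symm (φ q)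
        (GRD_y (fderiv ℝ (fun y => f 0 (φ.symm y)) (φ q)))) := by
    have e := Pool.RL.fderiv_chart (hf.smooth 0 h0) p hxq
      (GRD_y (fderiv ℝ (fun y => f 0 (φ.symm y)) (φ q)))
    rw [← hφ, hsq] at e
    exact e
  rw [e1, e2] at h3
  exact h3

end Pool.PSC
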