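import Pool.Agent.Work.MP_02e829_ps.Hgt2

/-!
# Block HGT: deformations preserving the height are trivial
-/

open Set Filter Manifold
open scoped Topology ContDiff Manifold

set_option autoImplicit false
set_option linter.unusedSectionVars false

universe w

namespace Pool.PSC

section

variable {S : Type w} [TopologicalSpace S] [ChartedSpace E2 S] [IsManifold (𝓡 2) 2 S]

/-- the differential of a complex function -/
noncomputable def HGT_d (R : S → ℂ) (p : S) : E2 →L[ℝ] ℂ := mfderiv (𝓡 2) 𝓘(ℝ, ℂ) R p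

/-- surjectivity from injectivity -/
lemma HGT_surj' (T : E2 →L[ℝ] E2) (hT : Function.Injective T) : Function.Surjective T :=
  (LinearMap.injective_iff_surjective_of_finrank_eq_finrank
    (f := (T : E2 →ₗ[ℝ] E2)) rfl).1 hT

lemma HGT_cont (p : S) {x : E2} (hx : x ∈ (extChartAt (𝓡 2) p).target) :
    ContMDiffAt 𝓘(ℝ, E2) (𝓡 2) 2 (extChartAt (𝓡 2) p).symm x :=
  ((contMDiffOn_extChartAt_symm (I := 𝓡 2) (n := 2) p) x hx).contMDiffAt
    ((isOpen_extChartAt_target p).mem_nhds hx)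

lemma HGT_smooth {f : S → E3} (hf : ContMDiff (𝓡 2) (𝓡 3) 2 f) (p : S) :
    ContDiffOn ℝ 2 (fun y => f ((extChartAt (𝓡 2) p).symm y)) (extChartAt (𝓡 2) p).target := by
  have h1 := hf.comp_contMDiffOn (contMDiffOn_extChartAt_symm (I := 𝓡 2) (n := 2) p)
  exact contMDiffOn_iff_contDiffOn.1 h1

lemma HGT_surj (p : S) {x : E2} (hx : x ∈ (extChartAt (𝓡 2) p).target) :
    Function.Surjective (mfderiv 𝓘(ℝ, E2) (𝓡 2) (extChartAt (𝓡 2) p).symm x) :=
  HGT_surj' _ (Pool.RL.chart_injective p hx)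

/-- the rotation at a point -/
theorem HGT_rot {f : ℝ → S → E3} (h : Fam f)
    (hz0 : ∀ t ∈ Icc (0 : ℝ) 1, ∃ c : ℝ, ∀ p, f t p 2 = f 0 p 2 + c) {t : ℝ}
    (ht : t ∈ Icc (0 : ℝ) 1) (p : S) :
    ∃ R : ℂ, ‖R‖ = 1 ∧ ∀ v, hz (FRD.dvec (f t) p v) = R * hz (FRD.dvec (f 0) p v) := by
  set T : ℝ → E2 →ₗ[ℝ] E3 := fun t => ((FRD.differential (f t) p : E2 →L[ℝ] E3) : E2 →ₗ[ℝ] E3)
  refine path_rot (T := T) (h.imm p) (h.cont1 p) (fun t ht v w => h.iso t ht p v w) ?_ ht
  intro t ht v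
  obtain ⟨c, hc⟩ := hz0 t ht
  -- differentiate `z ∘ f t = z ∘ f 0 + c`
  have hd : ∀ s ∈ Icc (0 : ℝ) 1, HasMFDerivAt (𝓡 2) 𝓘(ℝ, ℝ) (fun q => f s q 2) p
      ((EuclideanSpace.proj (2 : Fin 3) : E3 →L[ℝ] ℝ).comp (mfderiv (𝓡 2) (𝓡 3) (f s) p)) := by
    intro s hs
    have h1 : HasMFDerivAt (𝓡 2) (𝓡 3) (f s) p (mfderiv (𝓡 2) (𝓡 3) (f s) p) :=
      ((h.smooth s hs p).mdifferentiableAt (by norm_num)).hasMFDerivAt
    have h2 : HasMFDerivAt (𝓡 3) 𝓘(ℝ, ℝ) (fun y : E3 => y 2) (f s p)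
        (EuclideanSpace.proj (2 : Fin 3) : E3 →L[ℝ] ℝ) :=
      (EuclideanSpace.proj (2 : Fin 3) : E3 →L[ℝ] ℝ).hasFDerivAt.hasMFDerivAt
    exact h2.comp p h1
  have h3 : (fun q => f t q 2) = fun q => f 0 q 2 + c := funext hc
  have h4 := hd t ht
  rw [h3] at h4
  have h5 : HasMFDerivAt (𝓡 2) 𝓘(ℝ, ℝ) (fun q => f 0 q 2 + c) p
      ((EuclideanSpace.proj (2 : Fin 3) : E3 →L[ℝ] ℝ).comp (mfderiv (𝓡 2) (𝓡 3) (f 0) p)) := by
    have h6 : HasMFDerivAt 𝓘(ℝ, ℝ) 𝓘(ℝ, ℝ) (fun y : ℝ => y + c) (f 0 p 2)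
        (ContinuousLinearMap.id ℝ ℝ) := ((hasFDerivAt_id _).add_const c).hasMFDerivAt
    exact h6.comp p (hd 0 Pool.RL.zero_mem')
  have h7 := hasMFDerivAt_unique h4 h5
  exact congrArg (fun l : E2 →L[ℝ] ℝ => l v) h7

end

/-- rotation about the vertical axis and translation -/
theorem HGT_motion (R : ℂ) (hR : ‖R‖ = 1) (b : E3) : ∃ B : E3 ≃ᵢ E3, ∀ x y : E3,
    hz y = R * hz x + hz b → y 2 = x 2 + b 2 → y = B x := by
  let L : E3 →ₗ[ℝ] E3 :=
    { toFun := fun x => WithLp.toLp 2 ![(R * hz x).re, (R * hz x).im, x 2]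
      map_add' := by
        intro x y
        ext i
        fin_cases i
        · simp [hz_add, mul_add]
        · simp [hz_add, mul_add]
        · simp
      map_smul' := by
        intro c x
        ext i
        fin_cases i
        · simp [hz_smul]; ring
        · simp [hz_smul]; ring
        · simp }
  have hL0 : ∀ x, hz (L x) = R * hz x := by
    intro x
    apply Complex.ext
    · rw [hz_re]; rfl
    · rw [hz_im]; rfl
  have hL2 : ∀ x, L x 2 = x 2 := fun x => rfl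
  have hn : ∀ x, ‖L x‖ = ‖x‖ := by
    intro x
    have h1 : inner ℝ (L x) (L x) = inner ℝ x x := by
      rw [inner_hz, inner_hz, hL0, hL2, map_mul]
      have h2 := conj_mul_unit hR
      have h3 : (starRingEnd ℂ) R * (starRingEnd ℂ) (hz x) * (R * hz x) =
          (starRingEnd ℂ) (hz x) * hz x := by
        linear_combination ((starRingEnd ℂ) (hz x) * hz x) * h2
      rw [h3]
    rw [real_inner_self_eq_norm_sq, real_inner_self_eq_norm_sq] at h1
    exact (pow_left_inj₀ (norm_nonneg _) (norm_nonneg _) two_ne_zero).1 h1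
  let li : E3 →ₗᵢ[ℝ] E3 := ⟨L, hn⟩
  let B : E3 ≃ᵢ E3 := (li.toLinearIsometryEquiv rfl).toIsometryEquiv.trans
    (IsometryEquiv.addRight b)
  refine ⟨B, fun x y h1 h2 => ?_⟩
  have h3 : B x = L x + b := rfl
  rw [h3]
  refine eq_of_hz ?_ ?_
  · rw [hz_add, hL0, h1]
  · rw [PiLp.add_apply, hL2, h2]

/-- BLOCK HGT. -/
theorem blk_HGT : Stmt_HGT.{w} := by
  intro S _ _ _ _ _ f h hz0 t ht
  have h0 := Pool.RL.zero_mem'
  choose R hR1 hR using fun p => HGT_rot h hz0 ht p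
  -- charts
  set F : S → E2 → E3 := fun p y => f 0 ((extChartAt (𝓡 2) p).symm y) with hF
  set G : S → E2 → E3 := fun p y => f t ((extChartAt (𝓡 2) p).symm y) with hG
  set Rc : S → E2 → ℂ := fun p y => R ((extChartAt (𝓡 2) p).symm y) with hRc
  have htwo : ∀ p, TwoMaps (extChartAt (𝓡 2) p).target (F p) (G p) (Rc p) := by
    intro p
    refine ⟨isOpen_extChartAt_target p, HGT_smooth (h.smooth 0 h0) p, HGT_smooth (h.smooth t ht) p,
      ?_, fun x _ => hR1 _, ?_⟩
    · intro x hx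
      have h1 : ⇑(fderiv ℝ (F p) x) = FRD.dvec (f 0) ((extChartAt (𝓡 2) p).symm x) ∘
          (mfderiv 𝓘(ℝ, E2) (𝓡 2) (extChartAt (𝓡 2) p).symm x) :=
        funext fun w => Pool.RL.fderiv_chart (h.smooth 0 h0) p hx w
      rw [h1]
      exact (h.imm _).comp (Pool.RL.chart_injective p hx)
    · intro x hx v
      have e1 := Pool.RL.fderiv_chart (h.smooth 0 h0) p hx v
      have e2 := Pool.RL.fderiv_chart (h.smooth t ht) p hx v
      simp only [hF, hG]
      rw [e1, e2]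
      exact hR _ _
  -- `R` is of class `C¹`
  have hRs : ∀ p : S, ContMDiffAt (𝓡 2) 𝓘(ℝ, ℂ) 1 R p := by
    intro p
    have h1 : ContMDiffAt 𝓘(ℝ, E2) 𝓘(ℝ, ℂ) 1 (Rc p) (extChartAt (𝓡 2) p p) :=
      ((htwo p).cdR (mem_extChartAt_target p)).contMDiffAt
    have h2 : ContMDiffAt (𝓡 2) 𝓘(ℝ, E2) 1 (extChartAt (𝓡 2) p) p :=
      (contMDiffAt_extChartAt (I := 𝓡 2) (n := 2)).of_le (by norm_num)
    have h3 := h1.comp p h2
    refine h3.congr_of_eventuallyEq ?_
    filter_upwards [extChartAt_source_mem_nhds (I := 𝓡 2) p] with q hq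
    simp only [hRc, Function.comp_apply]
    rw [(extChartAt (𝓡 2) p).left_inv hq]
  -- the derivative of `R` in a chart
  have hRch : ∀ (p : S) {x : E2}, x ∈ (extChartAt (𝓡 2) p).target → ∀ w, fderiv ℝ (Rc p) x w =
      HGT_d R ((extChartAt (𝓡 2) p).symm x)
        (mfderiv 𝓘(ℝ, E2) (𝓡 2) (extChartAt (𝓡 2) p).symm x w) := by
    intro p x hx w
    have h1 : MDifferentiableAt 𝓘(ℝ, E2) (𝓡 2) (extChartAt (𝓡 2) p).symm x :=
      (HGT_cont p hx).mdifferentiableAt (by norm_num)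
    have h4 : MDifferentiableAt (𝓡 2) 𝓘(ℝ, ℂ) R ((extChartAt (𝓡 2) p).symm x) :=
      (hRs _).mdifferentiableAt (by norm_num)
    have h5 := mfderiv_comp x h4 h1
    have h6 : mfderiv 𝓘(ℝ, E2) 𝓘(ℝ, ℂ) (R ∘ (extChartAt (𝓡 2) p).symm) x =
        fderiv ℝ (Rc p) x := mfderiv_eq_fderiv
    rw [← h6, h5]
    rfl
  -- the set `K`
  set K : ℝ → Set S := fun ε => {p | ∀ v : E2, ε * ‖hz (FRD.dvec (f 0) p v)‖ ≤
    ‖HGT_d R p v‖} with hK
  have hKch : ∀ (ε : ℝ) (p : S) {x : E2}, x ∈ (extChartAt (𝓡 2) p).target →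
      ((extChartAt (𝓡 2) p).symm x ∈ K ε ↔ ∀ v, ε * ‖hz (fderiv ℝ (F p) x v)‖ ≤
        ‖fderiv ℝ (Rc p) x v‖) := by
    intro ε p x hx
    constructor
    · intro h1 v
      rw [hRch p hx, show fderiv ℝ (F p) x v = _ from Pool.RL.fderiv_chart (h.smooth 0 h0) p hx v]
      exact h1 _
    · intro h1 v
      obtain ⟨w, rfl⟩ := HGT_surj p hx v
      have h2 := h1 w
      have e1 := hRch p hx w
      have e2 : fderiv ℝ (F p) x w = _ := Pool.RL.fderiv_chart (h.smooth 0 h0) p hx w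
      rw [e1, e2] at h2
      exact h2
  -- the differential of `R` vanishes
  have hDR : ∀ (p : S), ∀ x ∈ (extChartAt (𝓡 2) p).target, fderiv ℝ (Rc p) x = 0 := by
    by_contra hcon
    push Not at hcon
    obtain ⟨p1, x1, hx1, hne⟩ := hcon
    -- a positive `ε`
    obtain ⟨v1, hv1⟩ : ∃ v, fderiv ℝ (Rc p1) x1 v ≠ 0 := by
      by_contra hcon
      push Not at hcon
      exact hne (by ext1 v; exact hcon v)
    set A := ‖hz (fderiv ℝ (F p1) x1 v1)‖ / ‖fderiv ℝ (Rc p1) x1 v1‖ with hA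
    have hA0 : 0 ≤ A := by positivity
    have hnorm : ∀ v, ‖hz (fderiv ℝ (F p1) x1 v)‖ = A * ‖fderiv ℝ (Rc p1) x1 v‖ := by
      intro v
      have h1 := congrArg norm ((htwo p1).sym hx1 v v1)
      rw [norm_mul, norm_mul] at h1
      have h2 : ‖fderiv ℝ (Rc p1) x1 v1‖ ≠ 0 := norm_ne_zero_iff.2 hv1
      rw [hA, div_mul_eq_mul_div, eq_div_iff h2]
      linarith
    set ε := 1 / (A + 1) with hε
    have hε0 : 0 < ε := by positivity
    have hKne : (K ε).Nonempty := by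
      refine ⟨(extChartAt (𝓡 2) p1).symm x1, (hKch ε p1 hx1).2 fun v => ?_⟩
      rw [hnorm, ← mul_assoc]
      refine mul_le_of_le_one_left (norm_nonneg _) ?_
      rw [hε, one_div, inv_mul_le_iff₀ (by positivity)]
      linarith
    have hKcl : IsClosed (K ε) := by
      rw [← closure_subset_iff_isClosed]
      intro p hp
      have hfr : ∃ᶠ q in 𝓝 p, q ∈ K ε := mem_closure_iff_frequently.1 hp
      set x0 := extChartAt (𝓡 2) p p
      have hx0 : x0 ∈ (extChartAt (𝓡 2) p).target := mem_extChartAt_target p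
      have h1 : p = (extChartAt (𝓡 2) p).symm x0 := (extChartAt_to_inv p).symm
      rw [h1, hKch ε p hx0]
      intro v
      by_contra hlt
      rw [not_le] at hlt
      have c1 : ContinuousAt (fun x => hz (fderiv ℝ (F p) x v)) x0 :=
        (hzd ((htwo p).F2.contDiffAt ((htwo p).op.mem_nhds hx0)) v).continuousAt
      have c2 : ContinuousAt (fun x => fderiv ℝ (Rc p) x v) x0 :=
        (((htwo p).cdR hx0).fderiv_right (m := 0) (by norm_num)).continuousAt.clm_apply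
          continuousAt_const
      have c3 : ContinuousAt (fun x => ε * ‖hz (fderiv ℝ (F p) x v)‖ -
          ‖fderiv ℝ (Rc p) x v‖) x0 := (c1.norm.const_mul ε).sub c2.norm
      have c4 : ∀ᶠ x in 𝓝 x0, 0 < ε * ‖hz (fderiv ℝ (F p) x v)‖ - ‖fderiv ℝ (Rc p) x v‖ :=
        c3.eventually (lt_mem_nhds (by linarith))
      have c5 : ∀ᶠ q in 𝓝 p, 0 < ε * ‖hz (fderiv ℝ (F p) (extChartAt (𝓡 2) p q) v)‖ -
          ‖fderiv ℝ (Rc p) (extChartAt (𝓡 2) p q) v‖ := (continuousAt_extChartAt p).eventually c4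
      obtain ⟨q, hqK, hq1, hq2⟩ := (hfr.and_eventually (c5.and
        (extChartAt_source_mem_nhds (I := 𝓡 2) p))).exists
      have hxq : extChartAt (𝓡 2) p q ∈ (extChartAt (𝓡 2) p).target :=
        (extChartAt (𝓡 2) p).map_source hq2
      have h2 := (hKch ε p hxq).1 (by rw [(extChartAt (𝓡 2) p).left_inv hq2]; exact hqK) v
      linarith
    have hzc : Continuous fun q => f 0 q 2 :=
      (EuclideanSpace.proj (2 : Fin 3) : E3 →L[ℝ] ℝ).continuous.comp (h.smooth 0 h0).continuous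
    obtain ⟨m, hm, hmax⟩ := hKcl.isCompact.exists_isMaxOn hKne hzc.continuousOn
    set x0 := extChartAt (𝓡 2) m m with hx0
    have hx0t : x0 ∈ (extChartAt (𝓡 2) m).target := mem_extChartAt_target m
    have hsymm : (extChartAt (𝓡 2) m).symm x0 = m := extChartAt_to_inv m
    have hK0 := (hKch ε m hx0t).1 (by rw [hsymm]; exact hm)
    have hDR0 : fderiv ℝ (Rc m) x0 ≠ 0 := by
      intro h1
      obtain ⟨v, hv⟩ := exists_hz_ne ((htwo m).imm x0 hx0t)
      have h2 := hK0 v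
      rw [h1, zero_apply, norm_zero] at h2
      have h3 : 0 < ε * ‖hz (fderiv ℝ (F m) x0 v)‖ := mul_pos hε0 (norm_pos_iff.2 hv)
      linarith
    refine (htwo m).key hx0t hDR0 hK0 ?_
    filter_upwards [(htwo m).op.mem_nhds hx0t] with x hx hxK
    have h1 : (extChartAt (𝓡 2) m).symm x ∈ K ε := (hKch ε m hx).2 hxK
    have h2 := hmax h1
    simp only [hF, hsymm]
    exact h2
  -- locally constant functions
  have hloc : ∀ (H : S → ℂ) (Hc : ∀ p : S, ∀ x ∈ (extChartAt (𝓡 2) p).target,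
      HasFDerivAt (fun y => H ((extChartAt (𝓡 2) p).symm y)) (0 : E2 →L[ℝ] ℂ) x),
      ∀ p q, H p = H q := by
    intro H Hc
    have hlc : IsLocallyConstant H := by
      rw [IsLocallyConstant.iff_eventually_eq]
      intro p
      obtain ⟨r, hr, hb⟩ := Metric.mem_nhds_iff.1 (extChartAt_target_mem_nhds (I := 𝓡 2) p)
      have h2 : ∀ᶠ z in 𝓝 p, extChartAt (𝓡 2) p z ∈ Metric.ball (extChartAt (𝓡 2) p p) r :=
        (continuousAt_extChartAt p).eventually (Metric.ball_mem_nhds _ hr)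
      filter_upwards [h2, extChartAt_source_mem_nhds (I := 𝓡 2) p] with z hz1 hz2
      have h3 := Metric.isOpen_ball.is_const_of_fderiv_eq_zero
        ((convex_ball (extChartAt (𝓡 2) p p) r).isPreconnected) (f := fun y =>
          H ((extChartAt (𝓡 2) p).symm y))
        (fun x hx => (Hc p x (hb hx)).differentiableAt.differentiableWithinAt)
        (fun x hx => (Hc p x (hb hx)).fderiv) hz1 (Metric.mem_ball_self hr)
      simp only [(extChartAt (𝓡 2) p).left_inv hz2, extChartAt_to_inv] at h3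
      exact h3
    exact fun p q => hlc.apply_eq_of_preconnectedSpace p q
  have hRconst := hloc R (fun p x hx => by
    have h1 := (((htwo p).cdR hx).differentiableAt (by norm_num)).hasFDerivAt
    rw [hDR p x hx] at h1
    exact h1)
  obtain ⟨p0⟩ : Nonempty S := inferInstance
  set R0 := R p0 with hR0
  have hh := hloc (fun p => hz (f t p) - R0 * hz (f 0 p)) (fun p x hx => by
    have dF : HasFDerivAt (F p) (fderiv ℝ (F p) x) x :=
      (((htwo p).F2.contDiffAt ((htwo p).op.mem_nhds hx)).differentiableAt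
        (by norm_num)).hasFDerivAt
    have dG : HasFDerivAt (G p) (fderiv ℝ (G p) x) x :=
      (((htwo p).G2.contDiffAt ((htwo p).op.mem_nhds hx)).differentiableAt
        (by norm_num)).hasFDerivAt
    have e1 : HasFDerivAt (fun y => hz (G p y)) (hzL.comp (fderiv ℝ (G p) x)) x :=
      (hzL.hasFDerivAt.comp x dG).congr_of_eventuallyEq
        (Eventually.of_forall fun y => (hzL_apply _).symm)
    have e2 : HasFDerivAt (fun y => hz (F p y)) (hzL.comp (fderiv ℝ (F p) x)) x :=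
      (hzL.hasFDerivAt.comp x dF).congr_of_eventuallyEq
        (Eventually.of_forall fun y => (hzL_apply _).symm)
    have e3 := e1.sub (e2.const_mul R0)
    refine e3.congr_fderiv ?_
    ext1 v
    have e4 := (htwo p).rot x hx v
    have e5 : Rc p x = R0 := hRconst _ _
    rw [e5] at e4
    simp only [sub_apply, smul_apply, ContinuousLinearMap.comp_apply, hzL_apply, smul_eq_mul,
      zero_apply]
    rw [e4, sub_self])
  obtain ⟨c, hc⟩ := hz0 t ht
  set b : E3 := WithLp.toLp 2 ![(hz (f t p0) - R0 * hz (f 0 p0)).re,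
    (hz (f t p0) - R0 * hz (f 0 p0)).im, c] with hb
  have hbz : hz b = hz (f t p0) - R0 * hz (f 0 p0) := by
    apply Complex.ext
    · rw [hz_re]; rfl
    · rw [hz_im]; rfl
  obtain ⟨B, hB⟩ := HGT_motion R0 (hR1 p0) b
  refine ⟨B, fun p => hB _ _ ?_ ?_⟩
  · have h1 := hh p p0
    rw [hbz, ← h1]
    ring
  · rw [hc p]
    rfl

end Pool.PSC
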