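import Pool.Agent.Work.MP_02e829_ps.Interface

/-! Block KGM: the tangential part of the acceleration is intrinsic, on the surface (typed by
helper62). -/

open Set Filter Manifold
open scoped Topology ContDiff Manifold

set_option autoImplicit false

universe w

namespace Pool.PSC

theorem KGM_surj {S : Type w} [TopologicalSpace S] [ChartedSpace E2 S] [IsManifold (𝓡 2) 2 S]
    (p : S) {x : E2} (hx : x ∈ (extChartAt (𝓡 2) p).target) :
    Function.Surjective (mfderiv 𝓘(ℝ, E2) (𝓡 2) (extChartAt (𝓡 2) p).symm x) := by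
  have : IsManifold (𝓡 2) 1 S := IsManifold.of_le (n := 2) (by norm_num)
  have h1 := isInvertible_mfderivWithin_extChartAt_symm (I := 𝓡 2) hx
  have h2 : range (𝓡 2) = univ := (𝓡 2).range_eq_univ
  rw [h2, mfderivWithin_univ] at h1
  exact h1.surjective

theorem blk_KGM (hKGU : Stmt_KGU) : Stmt_KGM.{w} := by
  intro S _ _ _ f hf t ht γ s v hγ
  set p : S := γ s with hp
  have h0 : (0 : ℝ) ∈ Icc (0 : ℝ) 1 := ⟨le_rfl, zero_le_one⟩
  set φ := extChartAt (𝓡 2) p with hφ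
  have hxt : φ p ∈ φ.target := mem_extChartAt_target p
  have hC : ∀ τ ∈ Icc (0 : ℝ) 1, ContDiffOn ℝ 2 (fun y => f τ (φ.symm y)) φ.target := by
    intro τ hτ
    have h1 := (hf.smooth τ hτ).comp_contMDiffOn
      (contMDiffOn_extChartAt_symm (I := 𝓡 2) (n := 2) p)
    exact contMDiffOn_iff_contDiffOn.1 h1
  have hiso : ∀ x ∈ φ.target, ∀ v w,
      (inner ℝ (fderiv ℝ (fun y => f t (φ.symm y)) x v)
        (fderiv ℝ (fun y => f t (φ.symm y)) x w) : ℝ) =
      inner ℝ (fderiv ℝ (fun y => f 0 (φ.symm y)) x v)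
        (fderiv ℝ (fun y => f 0 (φ.symm y)) x w) := by
    intro x hx v w
    rw [Pool.RL.fderiv_chart (hf.smooth t ht) p hx, Pool.RL.fderiv_chart (hf.smooth t ht) p hx,
      Pool.RL.fderiv_chart (hf.smooth 0 h0) p hx, Pool.RL.fderiv_chart (hf.smooth 0 h0) p hx]
    exact hf.iso t ht _ _ _
  have hx2 : ContDiffAt ℝ 2 (fun s => φ (γ s)) s := by
    have h1 : ContMDiffAt (𝓡 2) 𝓘(ℝ, E2) 2 (extChartAt (𝓡 2) p) (γ s) := contMDiffAt_extChartAt
    have h2 : ContMDiffAt 𝓘(ℝ, ℝ) 𝓘(ℝ, E2) 2 (fun s => φ (γ s)) s := h1.comp s hγ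
    exact h2.contDiffAt
  obtain ⟨w, hw⟩ := KGM_surj p hxt v
  have hsymm : φ.symm (φ p) = p := extChartAt_to_inv p
  have hev : ∀ τ : ℝ, (fun s => f τ (γ s)) =ᶠ[𝓝 s] (fun s => f τ (φ.symm (φ (γ s)))) := by
    intro τ
    have h1 : ∀ᶠ s' in 𝓝 s, γ s' ∈ φ.source :=
      hγ.continuousAt.eventually (extChartAt_source_mem_nhds p)
    filter_upwards [h1] with s' hs'
    rw [φ.left_inv hs']
  have key := hKGU φ.target (fun y => f t (φ.symm y)) (fun y => f 0 (φ.symm y))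
    (isOpen_extChartAt_target p) (hC t ht) (hC 0 h0) hiso (fun s => φ (γ s)) s w hx2 hxt
  have e1 : ∀ τ ∈ Icc (0 : ℝ) 1, fderiv ℝ (fun y => f τ (φ.symm y)) (φ p) w =
      FRD.dvec (f τ) p v := by
    intro τ hτ
    have h3 := Pool.RL.fderiv_chart (hf.smooth τ hτ) p hxt w
    rw [hw] at h3
    rw [← hφ] at h3
    rw [h3, hsymm]
  have e2 : ∀ τ : ℝ, deriv (deriv (fun s => f τ (γ s))) s =
      deriv (deriv (fun s => f τ (φ.symm (φ (γ s))))) s := fun τ => (hev τ).deriv.deriv_eq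
  have e3 : φ (γ s) = φ p := rfl
  rw [e3, e1 t ht, e1 0 h0] at key
  rw [e2 t, e2 0]
  exact key

end Pool.PSC
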