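import Pool.Agent.Work.MP_02e829_ps.Interface

/-! Block KGU: the tangential part of the acceleration is intrinsic (typed by helper62). -/

open Set Filter Manifold
open scoped Topology ContDiff Manifold

set_option autoImplicit false

namespace Pool.PSC

theorem KGU_second {F : E2 → E3} {x : ℝ → E2} {s : ℝ} (hF : ContDiffAt ℝ 2 F (x s))
    (hx : ContDiffAt ℝ 2 x s) :
    deriv (deriv (fun s => F (x s))) s =
      (fderiv ℝ (fderiv ℝ F) (x s) (deriv x s)) (deriv x s) +
        fderiv ℝ F (x s) (deriv (deriv x) s) := by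
  have h1 : ∀ᶠ s' in 𝓝 s, deriv (fun s => F (x s)) s' = fderiv ℝ F (x s') (deriv x s') := by
    have e1 : ∀ᶠ y in 𝓝 (x s), ContDiffAt ℝ 2 F y := hF.eventually (by simp)
    have e2 : ∀ᶠ s' in 𝓝 s, ContDiffAt ℝ 2 F (x s') := hx.continuousAt.eventually e1
    have e3 : ∀ᶠ s' in 𝓝 s, ContDiffAt ℝ 2 x s' := hx.eventually (by simp)
    filter_upwards [e2, e3] with s' h2 h3
    have h4 : HasFDerivAt F (fderiv ℝ F (x s')) (x s') :=
      (h2.differentiableAt (by norm_num)).hasFDerivAt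
    have h5 : HasDerivAt x (deriv x s') s' := (h3.differentiableAt (by norm_num)).hasDerivAt
    exact (h4.comp_hasDerivAt s' h5).deriv
  have h1' : deriv (fun s => F (x s)) =ᶠ[𝓝 s] fun s' => fderiv ℝ F (x s') (deriv x s') := h1
  rw [h1'.deriv_eq]
  have hx1 : ContDiffAt ℝ 1 (fderiv ℝ x) s := hx.fderiv_right (by norm_num)
  have hdx : DifferentiableAt ℝ (deriv x) s := by
    have : DifferentiableAt ℝ (fun s' => fderiv ℝ x s' (1 : ℝ)) s :=
      (hx1.differentiableAt (by norm_num)).clm_apply (differentiableAt_const _)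
    exact this
  have hF1 : HasFDerivAt (fderiv ℝ F) (fderiv ℝ (fderiv ℝ F) (x s)) (x s) :=
    ((hF.fderiv_right (m := 1) (by norm_num)).differentiableAt (by norm_num)).hasFDerivAt
  have h6 : HasDerivAt x (deriv x s) s := (hx.differentiableAt (by norm_num)).hasDerivAt
  have h7 : HasDerivAt (fun s' => fderiv ℝ F (x s'))
      (fderiv ℝ (fderiv ℝ F) (x s) (deriv x s)) s := hF1.comp_hasDerivAt s h6
  exact (h7.clm_apply hdx.hasDerivAt).deriv

theorem KGU_metric {F : E2 → E3} {x : E2} (hF : ContDiffAt ℝ 2 F x) (a b c : E2) :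
    fderiv ℝ (fun y => (inner ℝ (fderiv ℝ F y b) (fderiv ℝ F y c) : ℝ)) x a =
      inner ℝ ((fderiv ℝ (fderiv ℝ F) x a) b) (fderiv ℝ F x c) +
      inner ℝ ((fderiv ℝ (fderiv ℝ F) x a) c) (fderiv ℝ F x b) := by
  have hF1 : HasFDerivAt (fderiv ℝ F) (fderiv ℝ (fderiv ℝ F) x) x :=
    ((hF.fderiv_right (m := 1) (by norm_num)).differentiableAt (by norm_num)).hasFDerivAt
  have hb : ∀ b : E2, HasFDerivAt (fun y => fderiv ℝ F y b)
      ((fderiv ℝ (fderiv ℝ F) x).flip b) x := by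
    intro b
    have := hF1.clm_apply (hasFDerivAt_const b x)
    simpa using this
  rw [fderiv_inner_apply ℝ (hb b).differentiableAt (hb c).differentiableAt, (hb b).fderiv,
    (hb c).fderiv]
  simp only [ContinuousLinearMap.flip_apply]
  rw [add_comm, real_inner_comm ((fderiv ℝ (fderiv ℝ F) x a) c)]

theorem KGU_symm {F : E2 → E3} {x : E2} (hF : ContDiffAt ℝ 2 F x) (a b : E2) :
    (fderiv ℝ (fderiv ℝ F) x a) b = (fderiv ℝ (fderiv ℝ F) x b) a :=
  (hF.isSymmSndFDerivAt (by simp)).eq a b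

theorem blk_KGU : Stmt_KGU := by
  intro U F G hU hF hG hiso x s v hx hs
  have hF' : ContDiffAt ℝ 2 F (x s) := hF.contDiffAt (hU.mem_nhds hs)
  have hG' : ContDiffAt ℝ 2 G (x s) := hG.contDiffAt (hU.mem_nhds hs)
  rw [KGU_second hF' hx, KGU_second hG' hx, inner_add_left, inner_add_left,
    hiso _ hs (deriv (deriv x) s) v]
  congr 1
  have hm : ∀ a b c : E2,
      (inner ℝ ((fderiv ℝ (fderiv ℝ F) (x s) a) b) (fderiv ℝ F (x s) c) +
        inner ℝ ((fderiv ℝ (fderiv ℝ F) (x s) a) c) (fderiv ℝ F (x s) b) : ℝ) =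
      inner ℝ ((fderiv ℝ (fderiv ℝ G) (x s) a) b) (fderiv ℝ G (x s) c) +
        inner ℝ ((fderiv ℝ (fderiv ℝ G) (x s) a) c) (fderiv ℝ G (x s) b) := by
    intro a b c
    rw [← KGU_metric hF', ← KGU_metric hG']
    have : (fun y => (inner ℝ (fderiv ℝ F y b) (fderiv ℝ F y c) : ℝ)) =ᶠ[𝓝 (x s)]
        (fun y => (inner ℝ (fderiv ℝ G y b) (fderiv ℝ G y c) : ℝ)) := by
      filter_upwards [hU.mem_nhds hs] with y hy
      exact hiso y hy b c
    rw [this.fderiv_eq]
  have h1 := hm (deriv x s) (deriv x s) v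
  have h2 := hm v (deriv x s) (deriv x s)
  rw [KGU_symm hF' v (deriv x s), KGU_symm hG' v (deriv x s)] at h2
  linarith

end Pool.PSC
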