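import Pool.Agent.Work.MP_02e829_ps.Interface

/-! Block LEV: the differential of the height is preserved at regular levels (typed by
helper55). -/

open Set Filter Manifold
open scoped Topology ContDiff Manifold

set_option autoImplicit false

universe w

namespace Pool.PSC

theorem LEV_chain {S : Type w} [TopologicalSpace S] [ChartedSpace E2 S] [IsManifold (𝓡 2) 2 S]
    {g : S → E3} (hg : ContMDiff (𝓡 2) (𝓡 3) 2 g) {γ : ℝ → S} {s : ℝ}
    (hγ : ContMDiffAt 𝓘(ℝ, ℝ) (𝓡 2) 2 γ s) :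
    ∃ V : E2, ∀ (g : S → E3), ContMDiff (𝓡 2) (𝓡 3) 2 g →
      HasDerivAt (fun s => g (γ s)) (FRD.dvec g (γ s) V) s := by
  have h2 : HasMFDerivAt 𝓘(ℝ, ℝ) (𝓡 2) γ s (mfderiv 𝓘(ℝ, ℝ) (𝓡 2) γ s) :=
    (hγ.mdifferentiableAt two_ne_zero).hasMFDerivAt
  refine ⟨(mfderiv 𝓘(ℝ, ℝ) (𝓡 2) γ s : ℝ →L[ℝ] E2) 1, fun g hg => ?_⟩
  have h1 : HasMFDerivAt (𝓡 2) (𝓡 3) g (γ s) (mfderiv (𝓡 2) (𝓡 3) g (γ s)) :=
    ((hg (γ s)).mdifferentiableAt two_ne_zero).hasMFDerivAt
  have h3 := h1.comp s h2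
  have h4 : HasFDerivAt (fun s => g (γ s)) ((FRD.differential g (γ s) : E2 →L[ℝ] E3).comp
      (mfderiv 𝓘(ℝ, ℝ) (𝓡 2) γ s : ℝ →L[ℝ] E2)) s := hasMFDerivAt_iff_hasFDerivAt.1 h3
  exact h4.hasDerivAt

theorem LEV_coord {F : ℝ → E3} {F' : E3} {s : ℝ} (h : HasDerivAt F F' s) (i : Fin 3) :
    HasDerivAt (fun s => F s i) (F' i) s :=
  ((EuclideanSpace.proj i : E3 →L[ℝ] ℝ).hasFDerivAt (x := F s)).comp_hasDerivAt s h

theorem LEV_hz {F : ℝ → E3} {F' : E3} {s : ℝ} (h : HasDerivAt F F' s) :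
    HasDerivAt (fun s => hz (F s)) (hz F') s := by
  unfold hz
  exact (LEV_coord h 0).ofReal_comp.add ((LEV_coord h 1).ofReal_comp.mul_const Complex.I)

theorem LEV_inner (x y : E3) :
    (inner ℝ x y : ℝ) = x 0 * y 0 + x 1 * y 1 + x 2 * y 2 := by
  rw [PiLp.inner_apply, Fin.sum_univ_three]
  simp only [RCLike.inner_apply, conj_trivial]
  ring

theorem blk_LEV (hLOOP : Stmt_LOOP.{w}) (hGRD : Stmt_GRD.{w}) (hKGM : Stmt_KGM.{w})
    (hMT : Stmt_MT.{w}) (hFLAT : Stmt_FLAT) : Stmt_LEV.{w} := by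
  intro S _ _ _ _ _ f hf hsec p hreg
  have h0 : (0 : ℝ) ∈ Icc (0 : ℝ) 1 := ⟨le_rfl, zero_le_one⟩
  obtain ⟨γ, a, b, s1, s2, s0, hLC, has1, hs12, hs2b, hγ12, hs0, hγ0⟩ :=
    hLOOP S (f 0) (hf.smooth 0 h0) hf.imm p hreg
  obtain ⟨Y, hY1, hY2⟩ := hGRD S f hf
  have hcp : ∀ s ∈ Ioo a b, f 0 (γ s) 2 = f 0 p 2 := fun s hs => (hLC s hs).2.1
  have hregγ : ∀ s ∈ Ioo a b, Reg (f 0) (γ s) := fun s hs => hreg _ (hcp s hs)
  -- the multiplier
  obtain ⟨v0, hv0⟩ := hreg p rfl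
  set m : ℝ → ℝ := fun t => FRD.dvec (f t) p v0 2 / FRD.dvec (f 0) p v0 2 with hm
  have hmul : ∀ t ∈ Icc (0 : ℝ) 1, ∀ s ∈ Ioo a b, ∀ v,
      FRD.dvec (f t) (γ s) v 2 = m t * FRD.dvec (f 0) (γ s) v 2 := by
    intro t ht
    obtain ⟨m', hm'⟩ := hMT S f hf hsec (f 0 p 2) a b γ hLC hregγ t ht
    have h1 := hm' s0 hs0 v0
    rw [hγ0] at h1
    have h2 : m' = m t := by
      simp only [hm]
      rw [eq_div_iff hv0]
      exact h1.symm
    rw [← h2]
    exact hm'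
  have hmc : ContinuousOn m (Icc 0 1) := by
    have h1 : ContinuousOn (fun t => FRD.dvec (f t) p v0 2) (Icc 0 1) :=
      (EuclideanSpace.proj (2 : Fin 3) : E3 →L[ℝ] ℝ).continuous.comp_continuousOn (hf.cont1 p v0)
    exact h1.div_const _
  have hm0 : m 0 = 1 := by
    simp only [hm]
    exact div_self hv0
  -- smoothness
  have hC : ∀ t ∈ Icc (0 : ℝ) 1, ∀ s ∈ Ioo a b, ContDiffAt ℝ 2 (fun s => f t (γ s)) s := by
    intro t ht s hs
    have h1 := (hf.smooth t ht (γ s)).comp s (hLC s hs).1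
    exact h1.contDiffAt
  have hC2 : ∀ t ∈ Icc (0 : ℝ) 1, ContDiffOn ℝ 2 (fun s => f t (γ s)) (Ioo a b) :=
    fun t ht s hs => (hC t ht s hs).contDiffWithinAt
  have hC1 : ∀ t ∈ Icc (0 : ℝ) 1, ContDiffOn ℝ 1 (deriv (fun s => f t (γ s))) (Ioo a b) :=
    fun t ht => (hC2 t ht).deriv_of_isOpen isOpen_Ioo (by norm_num)
  have hC0 : ∀ t ∈ Icc (0 : ℝ) 1,
      ContinuousOn (deriv (deriv (fun s => f t (γ s)))) (Ioo a b) :=
    fun t ht => (hC1 t ht).continuousOn_deriv_of_isOpen isOpen_Ioo (by norm_num)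
  have hD1 : ∀ t ∈ Icc (0 : ℝ) 1, ∀ s ∈ Ioo a b,
      HasDerivAt (fun s => f t (γ s)) (deriv (fun s => f t (γ s)) s) s :=
    fun t ht s hs => ((hC t ht s hs).differentiableAt (by norm_num)).hasDerivAt
  have hD2 : ∀ t ∈ Icc (0 : ℝ) 1, ∀ s ∈ Ioo a b,
      HasDerivAt (deriv (fun s => f t (γ s))) (deriv (deriv (fun s => f t (γ s))) s) s := by
    intro t ht s hs
    have h1 : DifferentiableOn ℝ (deriv (fun s => f t (γ s))) (Ioo a b) :=
      (hC1 t ht).differentiableOn (by norm_num)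
    exact ((h1 s hs).differentiableAt (Ioo_mem_nhds hs.1 hs.2)).hasDerivAt
  have hV : ∀ s ∈ Ioo a b, ∃ V : E2, ∀ t ∈ Icc (0 : ℝ) 1,
      deriv (fun s => f t (γ s)) s = FRD.dvec (f t) (γ s) V := by
    intro s hs
    obtain ⟨V, hV⟩ := LEV_chain (hf.smooth 0 h0) (hLC s hs).1
    exact ⟨V, fun t ht => (hV (f t) (hf.smooth t ht)).deriv⟩
  -- vertical components
  have hvert0 : ∀ s ∈ Ioo a b, deriv (fun s => f 0 (γ s)) s 2 = 0 := by
    intro s hs
    have h1 := LEV_coord (hD1 0 h0 s hs) 2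
    have h2 : (fun s => f 0 (γ s) 2) =ᶠ[𝓝 s] fun _ => f 0 p 2 := by
      filter_upwards [Ioo_mem_nhds hs.1 hs.2] with s' hs'
      exact hcp s' hs'
    have h3 : HasDerivAt (fun s => f 0 (γ s) 2) 0 s :=
      (hasDerivAt_const s (f 0 p 2)).congr_of_eventuallyEq h2
    exact h1.unique h3
  have hvert : ∀ t ∈ Icc (0 : ℝ) 1, ∀ s ∈ Ioo a b, deriv (fun s => f t (γ s)) s 2 = 0 := by
    intro t ht s hs
    obtain ⟨V, hV'⟩ := hV s hs
    rw [hV' t ht, hmul t ht s hs V, ← hV' 0 h0, hvert0 s hs, mul_zero]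
  have hvert2 : ∀ t ∈ Icc (0 : ℝ) 1, ∀ s ∈ Ioo a b,
      deriv (deriv (fun s => f t (γ s))) s 2 = 0 := by
    intro t ht s hs
    have h1 := LEV_coord (hD2 t ht s hs) 2
    have h2 : (fun s' => deriv (fun s => f t (γ s)) s' 2) =ᶠ[𝓝 s] fun _ => 0 := by
      filter_upwards [Ioo_mem_nhds hs.1 hs.2] with s' hs'
      exact hvert t ht s' hs'
    have h3 : HasDerivAt (fun s' => deriv (fun s => f t (γ s)) s' 2) 0 s :=
      (hasDerivAt_const s 0).congr_of_eventuallyEq h2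
    exact h1.unique h3
  -- unit speed
  have hunit : ∀ t ∈ Icc (0 : ℝ) 1, ∀ s ∈ Ioo a b,
      (inner ℝ (deriv (fun s => f t (γ s)) s) (deriv (fun s => f t (γ s)) s) : ℝ) = 1 := by
    intro t ht s hs
    obtain ⟨V, hV'⟩ := hV s hs
    have h1 : (inner ℝ (deriv (fun s => f 0 (γ s)) s) (deriv (fun s => f 0 (γ s)) s) : ℝ) = 1 := by
      rw [real_inner_self_eq_norm_sq, (hLC s hs).2.2]
      norm_num
    rw [hV' 0 h0] at h1
    rw [hV' t ht]
    have h2 := hf.iso t ht (γ s) V V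
    unfold FRD.firstForm at h2
    rw [h2]
    exact h1
  have horth : ∀ t ∈ Icc (0 : ℝ) 1, ∀ s ∈ Ioo a b,
      (inner ℝ (deriv (fun s => f t (γ s)) s) (deriv (deriv (fun s => f t (γ s))) s) : ℝ) = 0 := by
    intro t ht s hs
    have h1 := (hD2 t ht s hs).inner ℝ (hD2 t ht s hs)
    have h2 : (fun s' => (inner ℝ (deriv (fun s => f t (γ s)) s')
        (deriv (fun s => f t (γ s)) s') : ℝ)) =ᶠ[𝓝 s] fun _ => 1 := by
      filter_upwards [Ioo_mem_nhds hs.1 hs.2] with s' hs'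
      exact hunit t ht s' hs'
    have h3 := (hasDerivAt_const s (1 : ℝ)).congr_of_eventuallyEq h2
    have h4 := h1.unique h3
    rw [real_inner_comm (deriv (fun s => f t (γ s)) s)] at h4
    have h5 := real_inner_comm (deriv (fun s => f t (γ s)) s)
      (deriv (deriv (fun s => f t (γ s))) s)
    linarith
  -- continuity along the curve
  have hγc : ContinuousOn γ (Ioo a b) :=
    fun s hs => (hLC s hs).1.continuousAt.continuousWithinAt
  have hIcc : Icc s1 s2 ⊆ Ioo a b := fun s hs => ⟨has1.trans_le hs.1, hs.2.trans_lt hs2b⟩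
  have hWc : ∀ t ∈ Icc (0 : ℝ) 1,
      ContinuousOn (fun s => FRD.dvec (f t) (γ s) (Y (γ s))) (Icc s1 s2) :=
    fun t ht => (hY2 t ht).comp_continuousOn (hγc.mono hIcc)
  have hTc : ∀ t ∈ Icc (0 : ℝ) 1,
      ContinuousOn (deriv (fun s => f t (γ s))) (Icc s1 s2) :=
    fun t ht => (hC1 t ht).continuousOn.mono hIcc
  have hproj : ∀ (i : Fin 3) (F : ℝ → E3), ContinuousOn F (Icc s1 s2) →
      ContinuousOn (fun s => F s i) (Icc s1 s2) := fun i F hF =>
    (EuclideanSpace.proj i : E3 →L[ℝ] ℝ).continuous.comp_continuousOn hF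
  -- the functions
  set B : ℝ → ℝ := fun s => FRD.dvec (f 0) (γ s) (Y (γ s)) 2 with hB
  set K : ℝ → ℝ := fun s => inner ℝ (deriv (deriv (fun s => f 0 (γ s))) s)
    (FRD.dvec (f 0) (γ s) (Y (γ s))) with hK
  have hBc : ContinuousOn B (Icc s1 s2) := hproj 2 _ (hWc 0 h0)
  have hKc : ContinuousOn K (Icc s1 s2) := ((hC0 0 h0).mono hIcc).inner (hWc 0 h0)
  have hBinner : ∀ s, (inner ℝ (FRD.dvec (f 0) (γ s) (Y (γ s)))
      (FRD.dvec (f 0) (γ s) (Y (γ s))) : ℝ) = B s := fun s => hY1 (γ s) (Y (γ s))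
  have hBpos : ∀ s ∈ Icc s1 s2, 0 < B s := by
    intro s hs
    rw [← hBinner s]
    apply real_inner_self_pos.2
    intro h
    obtain ⟨v, hv⟩ := hregγ s (hIcc hs)
    apply hv
    rw [← hY1 (γ s) v, h, inner_zero_left]
  have hflat := hFLAT s1 s2 B K m hs12 hBc hKc hBpos hmc hm0 (by
    intro t ht
    refine ⟨fun s => hz (f t (γ s)), fun s => hz (deriv (fun s => f t (γ s)) s),
      fun s => deriv (fun s => f t (γ s)) s 0 * deriv (deriv (fun s => f t (γ s))) s 1 -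
        deriv (fun s => f t (γ s)) s 1 * deriv (deriv (fun s => f t (γ s))) s 0,
      fun s => deriv (fun s => f t (γ s)) s 0 * FRD.dvec (f t) (γ s) (Y (γ s)) 1 -
        deriv (fun s => f t (γ s)) s 1 * FRD.dvec (f t) (γ s) (Y (γ s)) 0, ?_, ?_, ?_⟩
    · exact ((hproj 0 _ (hTc t ht)).mul (hproj 1 _ (hWc t ht))).sub
        ((hproj 1 _ (hTc t ht)).mul (hproj 0 _ (hWc t ht)))
    · simp only [hγ12]
    · intro s hs
      have hsI := hIcc hs
      have e1 := hunit t ht s hsI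
      have e2 := hvert t ht s hsI
      have e3 := hvert2 t ht s hsI
      have e4 := horth t ht s hsI
      -- the gradient
      obtain ⟨V, hV'⟩ := hV s hsI
      have e5 : (inner ℝ (FRD.dvec (f t) (γ s) (Y (γ s))) (deriv (fun s => f t (γ s)) s) : ℝ) =
          0 := by
        rw [hV' t ht]
        have h2 := hf.iso t ht (γ s) (Y (γ s)) V
        unfold FRD.firstForm at h2
        rw [h2, hY1, ← hV' 0 h0]
        exact hvert0 s hsI
      have e6 : (inner ℝ (FRD.dvec (f t) (γ s) (Y (γ s)))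
          (FRD.dvec (f t) (γ s) (Y (γ s))) : ℝ) = B s := by
        have h2 := hf.iso t ht (γ s) (Y (γ s)) (Y (γ s))
        unfold FRD.firstForm at h2
        rw [h2]
        exact hBinner s
      have e7 : FRD.dvec (f t) (γ s) (Y (γ s)) 2 = m t * B s := hmul t ht s hsI (Y (γ s))
      have e8 : (inner ℝ (deriv (deriv (fun s => f t (γ s))) s)
          (FRD.dvec (f t) (γ s) (Y (γ s))) : ℝ) = K s :=
        hKGM S f hf t ht γ s (Y (γ s)) (hLC s hsI).1
      have d1 := LEV_hz (hD1 t ht s hsI)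
      have d2 := LEV_hz (hD2 t ht s hsI)
      rw [LEV_inner] at e1 e4 e5 e6 e8
      generalize hT : deriv (fun s => f t (γ s)) s = T at *
      generalize hA : deriv (deriv (fun s => f t (γ s))) s = A at *
      generalize hW : FRD.dvec (f t) (γ s) (Y (γ s)) = W at *
      rw [e2] at e1 e4 e5
      rw [e3] at e8
      rw [e7] at e6
      have a0 : A 0 = -((T 0 * A 1 - T 1 * A 0) * T 1) := by
        linear_combination (-A 0) * e1 + T 0 * e4
      have a1 : A 1 = (T 0 * A 1 - T 1 * A 0) * T 0 := by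
        linear_combination (-A 1) * e1 + T 1 * e4
      have w0 : W 0 = -((T 0 * W 1 - T 1 * W 0) * T 1) := by
        linear_combination (-W 0) * e1 + T 0 * e5
      have w1 : W 1 = (T 0 * W 1 - T 1 * W 0) * T 0 := by
        linear_combination (-W 1) * e1 + T 1 * e5
      refine ⟨?_, ?_, ?_, ?_, ?_⟩
      · simpa only [hT] using d1
      · have h1 : ‖hz T‖ ^ 2 = 1 := by
          rw [← Complex.normSq_eq_norm_sq]
          unfold hz
          rw [Complex.normSq_add_mul_I]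
          linarith
        have h2 : 0 ≤ ‖hz T‖ := norm_nonneg _
        simp only [hT]
        nlinarith
      · have h1 : hz A = Complex.I * ((T 0 * A 1 - T 1 * A 0 : ℝ) : ℂ) * hz T := by
          unfold hz
          apply Complex.ext
          · simp
            linarith [a0]
          · simp
            linarith [a1]
        simp only [hT, hA]
        rw [← h1]
        exact d2
      · simp only [hT, hA, hW]
        rw [← e8]
        have : A 0 * W 0 + A 1 * W 1 + 0 * W 2 =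
            (T 0 * A 1 - T 1 * A 0) * (T 0 * W 1 - T 1 * W 0) := by
          rw [show A 0 * W 0 + A 1 * W 1 + 0 * W 2 = A 0 * W 0 + A 1 * W 1 by ring]
          linear_combination (A 0 * W 0 + A 1 * W 1) * (-e1) + (T 0 * A 0 + T 1 * A 1) * e5
        exact this.symm
      · simp only [hT, hW]
        have : (T 0 * W 1 - T 1 * W 0) ^ 2 = W 0 * W 0 + W 1 * W 1 := by
          linear_combination (W 0 * W 0 + W 1 * W 1) * e1 - (W 0 * T 0 + W 1 * T 1) * e5
        rw [this]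
        linarith [e6])
  intro t ht v
  have h1 := hmul t ht s0 hs0 v
  rw [hγ0, hflat t ht, one_mul] at h1
  exact h1

end Pool.PSC
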