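import Pool.Agent.Work.MP_02e829_ps.Interface
set_option autoImplicit false

/-! Block LOOP: regular level curves on a compact surface return. -/

open Set Filter Manifold
open scoped Topology ContDiff Manifold

universe w

namespace Pool.PSC

section

variable {S : Type w} [TopologicalSpace S] [ChartedSpace E2 S]

/-- the level curve condition is local -/
theorem LOOP_congr {g : S → E3} {c s : ℝ} {γ γ' : ℝ → S} (h : γ' =ᶠ[𝓝 s] γ)
    (hc : ContMDiffAt 𝓘(ℝ, ℝ) (𝓡 2) 2 γ s ∧ g (γ s) 2 = c ∧ ‖deriv (fun s => g (γ s)) s‖ = 1) :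
    ContMDiffAt 𝓘(ℝ, ℝ) (𝓡 2) 2 γ' s ∧ g (γ' s) 2 = c ∧ ‖deriv (fun s => g (γ' s)) s‖ = 1 := by
  refine ⟨hc.1.congr_of_eventuallyEq h, by rw [h.eq_of_nhds]; exact hc.2.1, ?_⟩
  have h1 : (fun s => g (γ' s)) =ᶠ[𝓝 s] (fun s => g (γ s)) := h.fun_comp g
  rw [h1.deriv_eq]
  exact hc.2.2

/-- affine reparametrizations -/
theorem LOOP_aff {g : S → E3} {c η : ℝ} {α : ℝ → S} (hL : LC g c α (Ioo (-η) η)) {x m ε s : ℝ}
    (hε : ε = 1 ∨ ε = -1) (hs : x + ε * (s - m) ∈ Ioo (-η) η) :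
    ContMDiffAt 𝓘(ℝ, ℝ) (𝓡 2) 2 (fun s => α (x + ε * (s - m))) s ∧
      g (α (x + ε * (s - m))) 2 = c ∧ ‖deriv (fun s => g (α (x + ε * (s - m)))) s‖ = 1 := by
  obtain ⟨h1, h2, h3⟩ := hL _ hs
  refine ⟨?_, h2, ?_⟩
  · have h4 : ContMDiffAt 𝓘(ℝ, ℝ) 𝓘(ℝ, ℝ) 2 (fun s : ℝ => x + ε * (s - m)) s := by
      apply ContDiffAt.contMDiffAt
      fun_prop
    exact ContMDiffAt.comp (g := α) (f := fun s : ℝ => x + ε * (s - m)) s h1 h4
  · have h5 : DifferentiableAt ℝ (fun s => g (α s)) (x + ε * (s - m)) := by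
      apply differentiableAt_of_deriv_ne_zero
      intro h
      rw [h, norm_zero] at h3
      exact zero_ne_one h3
    have h6 : HasDerivAt (fun s : ℝ => x + ε * (s - m)) ε s := by
      have h7 := (((hasDerivAt_id' s).sub_const m).const_mul ε).const_add x
      simpa using h7
    have h8 := HasDerivAt.scomp (h := fun s : ℝ => x + ε * (s - m)) s h5.hasDerivAt h6
    have h9 : deriv (fun s => g (α (x + ε * (s - m)))) s =
        ε • deriv (fun s => g (α s)) (x + ε * (s - m)) := h8.deriv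
    rw [h9, norm_smul, h3, mul_one, Real.norm_eq_abs]
    rcases hε with h | h
    · rw [h]; norm_num
    · rw [h]; norm_num

/-- extension of level curves through a flow box -/
theorem LOOP_ext (hF : Stmt_FRML.{w}) [T2Space S] {g : S → E3} {c : ℝ} {N : Set S} {lam : S → ℝ}
    {α γ : ℝ → S} {η a b m δ : ℝ} (hA : ArcChart g c N lam α η) (hL : LC g c γ (Ioo a b))
    (hm : m ∈ Ioo a b) (hN : γ m ∈ N) (hlam : |lam (γ m)| < η / 2) (hδ0 : 0 < δ) (hδ : δ ≤ η / 2)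
    (hbm : b - m ≤ δ / 4) :
    ∃ γ' : ℝ → S, LC g c γ' (Ioo a (b + δ / 2)) ∧ ∀ s < b, γ' s = γ s := by
  obtain ⟨ε, hε, hfr⟩ := hF S g c N lam α γ η a b m hA hL hm hN
  have habs : |ε| = 1 := by
    rcases hε with h | h
    · rw [h]; norm_num
    · rw [h]; norm_num
  have hin : ∀ s, |s - m| < η / 2 → lam (γ m) + ε * (s - m) ∈ Ioo (-η) η := by
    intro s hs
    have h1 : |ε * (s - m)| < η / 2 := by rw [abs_mul, habs, one_mul]; exact hs
    have h2 := abs_lt.1 h1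
    have h3 := abs_lt.1 hlam
    constructor
    · linarith [h2.1, h3.1]
    · linarith [h2.2, h3.2]
  refine ⟨fun s => if s < b then γ s else α (lam (γ m) + ε * (s - m)), ?_, ?_⟩
  · intro s hs
    by_cases hsb : s < b
    · refine LOOP_congr (γ := γ) ?_ (hL s ⟨hs.1, hsb⟩)
      filter_upwards [Iio_mem_nhds hsb] with s' hs'
      exact if_pos hs'
    · refine LOOP_congr (γ := fun s => α (lam (γ m) + ε * (s - m))) ?_ ?_
      · have hsm : m < s := lt_of_lt_of_le hm.2 (not_lt.1 hsb)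
        have hev : Ioo m (b + δ / 2) ∈ 𝓝 s := Ioo_mem_nhds hsm hs.2
        filter_upwards [hev] with s' hs'
        by_cases h : s' < b
        · refine (if_pos h).trans ?_
          refine hfr s' ⟨hm.1.trans hs'.1, h⟩ (hin s' ?_)
          rw [abs_of_pos (by linarith [hs'.1])]
          linarith [hs'.2]
        · exact if_neg h
      · refine LOOP_aff hA.lc hε (hin s ?_)
        have hsm : m < s := lt_of_lt_of_le hm.2 (not_lt.1 hsb)
        rw [abs_of_pos (by linarith)]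
        linarith [hs.2]
  · intro s hs
    exact if_pos hs

/-- returning to a flow box gives a closed curve -/
theorem LOOP_ret (hF : Stmt_FRML.{w}) [T2Space S] {g : S → E3} {c : ℝ} {N : Set S} {lam : S → ℝ}
    {α γ : ℝ → S} {η a b m m' D : ℝ} (hA : ArcChart g c N lam α η) (hL : LC g c γ (Ioo a b))
    (hm : m ∈ Ioo a b) (hm' : m' ∈ Ioo a b) (hN : γ m ∈ N) (hN' : γ m' ∈ N)
    (hlam : |lam (γ m)| < η / 2) (hlam' : |lam (γ m')| < η / 2) (hD : η ≤ D)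
    (hmm : m' + D ≤ m) (hb : m + D ≤ b) : ∃ s2, m' < s2 ∧ s2 < b ∧ γ m' = γ s2 := by
  obtain ⟨ε, hε, hfr⟩ := hF S g c N lam α γ η a b m hA hL hm hN
  have habs : |ε| = 1 := by
    rcases hε with h | h
    · rw [h]; norm_num
    · rw [h]; norm_num
  have hsq : ε * ε = 1 := by
    rcases hε with h | h
    · rw [h]; norm_num
    · rw [h]; norm_num
  have h1 : |ε * (lam (γ m') - lam (γ m))| < η := by
    rw [abs_mul, habs, one_mul]
    have h2 := abs_lt.1 hlam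
    have h3 := abs_lt.1 hlam'
    rw [abs_lt]
    constructor
    · linarith [h2.1, h3.1, h2.2, h3.2]
    · linarith [h2.1, h3.1, h2.2, h3.2]
  have h4 := abs_lt.1 h1
  have h5 : m' < m + ε * (lam (γ m') - lam (γ m)) := by linarith [h4.1]
  have h6 : m + ε * (lam (γ m') - lam (γ m)) < b := by linarith [h4.2]
  refine ⟨m + ε * (lam (γ m') - lam (γ m)), h5, h6, ?_⟩
  have h7 : lam (γ m) + ε * (m + ε * (lam (γ m') - lam (γ m)) - m) = lam (γ m') := by
    have h8 : ε * (m + ε * (lam (γ m') - lam (γ m)) - m) = (ε * ε) * (lam (γ m') - lam (γ m)) := by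
      ring
    rw [h8, hsq]
    ring
  obtain ⟨h9, h10⟩ := hA.inv (γ m') hN' (hL m' hm').2.1
  have h11 := hfr (m + ε * (lam (γ m') - lam (γ m))) ⟨hm'.1.trans h5, h6⟩ (by rw [h7]; exact h9)
  rw [h11, h7, h10]

end

theorem blk_LOOP (h1 : Stmt_LSM.{w}) (h2 : Stmt_FRML.{w}) : Stmt_LOOP.{w} := by
  intro S _ _ _ _ _ g hg hinj p hreg
  obtain ⟨c, hc⟩ : ∃ c : ℝ, c = g p 2 := ⟨_, rfl⟩
  have hcont : Continuous (fun q => g q 2) := by
    have := hg.continuous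
    fun_prop
  have hLc : IsCompact {q : S | g q 2 = c} := (isClosed_eq hcont continuous_const).isCompact
  have hex : ∀ q : {q : S | g q 2 = c}, ∃ (N : Set S) (lam : S → ℝ) (α : ℝ → S) (η : ℝ),
      ArcChart g c N lam α η ∧ (q : S) ∈ N ∧ lam q = 0 := by
    intro q
    have hq : g (q : S) 2 = c := q.2
    have h3 := h1 S g hg hinj q (hreg q (hq.trans hc))
    rw [hq] at h3
    exact h3
  choose N lam α η hA hN hlam using hex
  have hopen : ∀ q : {q : S | g q 2 = c}, IsOpen {x : S | x ∈ N q ∧ |lam q x| < η q / 2} := by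
    intro q
    have h3 : ContinuousOn (fun x => |lam q x|) (N q) := (hA q).cont.abs
    exact h3.isOpen_inter_preimage (hA q).op isOpen_Iio
  have hmemq : ∀ q : {q : S | g q 2 = c}, (q : S) ∈ {x : S | x ∈ N q ∧ |lam q x| < η q / 2} := by
    intro q
    refine ⟨hN q, ?_⟩
    rw [hlam q, abs_zero]
    have := (hA q).pos
    linarith
  obtain ⟨t, ht⟩ := hLc.elim_finite_subcover
    (fun q : {q : S | g q 2 = c} => {x : S | x ∈ N q ∧ |lam q x| < η q / 2}) hopen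
    (fun q hq => mem_iUnion.2 ⟨⟨q, hq⟩, hmemq ⟨q, hq⟩⟩)
  have hcov : ∀ x : S, g x 2 = c → ∃ i ∈ t, x ∈ N i ∧ |lam i x| < η i / 2 := by
    intro x hx
    have h3 := ht (show x ∈ {q : S | g q 2 = c} from hx)
    simp only [mem_iUnion] at h3
    obtain ⟨i, hi, h4⟩ := h3
    exact ⟨i, hi, h4⟩
  have htne : t.Nonempty := by
    obtain ⟨i, hi, _⟩ := hcov p hc.symm
    exact ⟨i, hi⟩
  obtain ⟨imin, himin, hmin⟩ := t.exists_min_image η htne
  obtain ⟨imax, himax, hmax⟩ := t.exists_max_image η htne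
  obtain ⟨δ, hδ⟩ : ∃ δ : ℝ, δ = η imin / 2 := ⟨_, rfl⟩
  have hδ0 : 0 < δ := by
    have := (hA imin).pos
    linarith
  obtain ⟨D, hD⟩ : ∃ D : ℝ, D = η imax := ⟨_, rfl⟩
  have hD0 : 0 < D := by
    rw [hD]
    exact (hA imax).pos
  -- the initial curve
  obtain ⟨q0, hq0⟩ : ∃ q : {q : S | g q 2 = c}, (q : S) = p := ⟨⟨p, hc.symm⟩, rfl⟩
  have hη0 : 0 < η q0 := (hA q0).pos
  have hlong : ∀ k : ℕ, ∃ γ : ℝ → S, LC g c γ (Ioo (-(η q0)) (η q0 + k * (δ / 2))) ∧ γ 0 = p := by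
    intro k
    induction k with
    | zero =>
      refine ⟨α q0, ?_, ?_⟩
      · rw [Nat.cast_zero, zero_mul, add_zero]
        exact (hA q0).lc
      · have h3 := ((hA q0).inv q0 (hN q0) q0.2).2
        rw [hlam q0, hq0] at h3
        exact h3
    | succ k ih =>
      obtain ⟨γ, hγ, hγ0⟩ := ih
      obtain ⟨b, hb⟩ : ∃ b : ℝ, b = η q0 + k * (δ / 2) := ⟨_, rfl⟩
      rw [← hb] at hγ
      have hb0 : 0 < b := by rw [hb]; positivity
      obtain ⟨m, hm0, hmb, hbm⟩ : ∃ m : ℝ, 0 < m ∧ m < b ∧ b - m ≤ δ / 4 := by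
        refine ⟨max (b - δ / 4) (b / 2), lt_max_of_lt_right (by linarith), max_lt (by linarith)
          (by linarith), ?_⟩
        have := le_max_left (b - δ / 4) (b / 2)
        linarith
      have hm : m ∈ Ioo (-(η q0)) b := ⟨by linarith, hmb⟩
      obtain ⟨i, hi, hiN, hil⟩ := hcov (γ m) (hγ m hm).2.1
      obtain ⟨γ', hγ', heq⟩ := LOOP_ext h2 (hA i) hγ hm hiN hil hδ0
        (by rw [hδ]; have := hmin i hi; linarith) hbm
      refine ⟨γ', ?_, ?_⟩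
      · have h3 : η q0 + ((k + 1 : ℕ) : ℝ) * (δ / 2) = b + δ / 2 := by
          rw [hb]; push_cast; ring
        rw [h3]
        exact hγ'
      · rw [heq 0 hb0, hγ0]
  -- a long curve
  obtain ⟨k, hk⟩ : ∃ k : ℕ, ((t.card : ℝ) + 2) * D ≤ k * (δ / 2) := by
    obtain ⟨k, hk⟩ := exists_nat_ge (((t.card : ℝ) + 2) * D / (δ / 2))
    refine ⟨k, ?_⟩
    rwa [div_le_iff₀ (by positivity)] at hk
  obtain ⟨γ, hγ, hγ0⟩ := hlong k
  obtain ⟨b, hb⟩ : ∃ b : ℝ, b = η q0 + k * (δ / 2) := ⟨_, rfl⟩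
  rw [← hb] at hγ
  have hbD : ((t.card : ℝ) + 2) * D < b := by
    rw [hb]
    linarith
  have htime : ∀ j ∈ Finset.Icc 1 (t.card + 1), ((j : ℝ) * D) ∈ Ioo (-(η q0)) b ∧
      (j : ℝ) * D + D ≤ b := by
    intro j hj
    rw [Finset.mem_Icc] at hj
    have h3 : (j : ℝ) ≤ (t.card : ℝ) + 1 := by exact_mod_cast hj.2
    have h4 : (j : ℝ) * D ≤ ((t.card : ℝ) + 1) * D := mul_le_mul_of_nonneg_right h3 hD0.le
    have h5 : 0 ≤ (j : ℝ) * D := by positivity
    refine ⟨⟨by linarith, ?_⟩, ?_⟩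
    · nlinarith
    · nlinarith
  have hbox : ∀ j : ℕ, ∃ i : {q : S | g q 2 = c}, j ∈ Finset.Icc 1 (t.card + 1) →
      i ∈ t ∧ γ ((j : ℝ) * D) ∈ N i ∧ |lam i (γ ((j : ℝ) * D))| < η i / 2 := by
    intro j
    by_cases hj : j ∈ Finset.Icc 1 (t.card + 1)
    · obtain ⟨i, h3, h4, h5⟩ := hcov (γ ((j : ℝ) * D)) (hγ _ (htime j hj).1).2.1
      exact ⟨i, fun _ => ⟨h3, h4, h5⟩⟩
    · exact ⟨q0, fun h => absurd h hj⟩
  choose F hF using hbox
  obtain ⟨x, hx, y, hy, hxy, hFxy⟩ := Finset.exists_ne_map_eq_of_card_lt_of_maps_to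
    (s := Finset.Icc 1 (t.card + 1)) (t := t) (f := F) (by rw [Nat.card_Icc]; omega)
    (fun j hj => (hF j hj).1)
  -- order them
  have key : ∀ x y : ℕ, x ∈ Finset.Icc 1 (t.card + 1) → y ∈ Finset.Icc 1 (t.card + 1) → x < y →
      F x = F y → ∃ s2, (x : ℝ) * D < s2 ∧ s2 < b ∧ γ ((x : ℝ) * D) = γ s2 := by
    intro x y hx hy hlt he
    obtain ⟨hy1, hy2, hy3⟩ := hF y hy
    obtain ⟨hx1, hx2, hx3⟩ := hF x hx
    rw [he] at hx1 hx2 hx3
    refine LOOP_ret h2 (hA (F y)) hγ (htime y hy).1 (htime x hx).1 hy2 hx2 hy3 hx3 (D := D)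
      (by rw [hD]; exact hmax _ hy1) ?_ (htime y hy).2
    have h3 : (x : ℝ) + 1 ≤ (y : ℝ) := by exact_mod_cast hlt
    nlinarith
  have hfin : ∃ x : ℕ, x ∈ Finset.Icc 1 (t.card + 1) ∧
      ∃ s2, (x : ℝ) * D < s2 ∧ s2 < b ∧ γ ((x : ℝ) * D) = γ s2 := by
    rcases lt_or_gt_of_ne hxy with h | h
    · exact ⟨x, hx, key x y hx hy h hFxy⟩
    · exact ⟨y, hy, key y x hy hx h hFxy.symm⟩
  obtain ⟨j, hj, s2, h3, h4, h5⟩ := hfin
  rw [← hc]
  refine ⟨γ, -(η q0), b, (j : ℝ) * D, s2, 0, hγ, (htime j hj).1.1, h3, h4, h5, ⟨by linarith, ?_⟩, hγ0⟩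
  have h6 : 0 ≤ (j : ℝ) * D := by positivity
  linarith

end Pool.PSC
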