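import Pool.Agent.Work.MP_02e829_ps.Interface

/-! Block LSM: flow box on the surface. -/

open Set Filter Manifold
open scoped Topology ContDiff Manifold

set_option autoImplicit false

universe w

namespace Pool.PSC

theorem blk_LSM (h : Stmt_LSU) : Stmt_LSM.{w} := by
  intro S _ _ _ g hg himm q0 hreg
  set φ := extChartAt (𝓡 2) q0 with hφ
  set F : E2 → E3 := fun y => g (φ.symm y) with hF
  have hU : IsOpen φ.target := isOpen_extChartAt_target q0
  have hx0 : φ q0 ∈ φ.target := mem_extChartAt_target q0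
  have hFs : ContDiffOn ℝ 2 F φ.target := by
    have h1 := hg.comp_contMDiffOn (contMDiffOn_extChartAt_symm (I := 𝓡 2) (n := 2) q0)
    exact contMDiffOn_iff_contDiffOn.1 h1
  have hFd : ∀ x ∈ φ.target, ∀ v, fderiv ℝ F x v = FRD.dvec g (φ.symm x)
      (mfderiv 𝓘(ℝ, E2) (𝓡 2) φ.symm x v) := fun x hx v => Pool.RL.fderiv_chart hg q0 hx v
  have hFi : ∀ x ∈ φ.target, Function.Injective (fderiv ℝ F x) := by
    intro x hx
    have h1 : ⇑(fderiv ℝ F x) = FRD.dvec g (φ.symm x) ∘ (mfderiv 𝓘(ℝ, E2) (𝓡 2) φ.symm x) :=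
      funext fun v => hFd x hx v
    rw [h1]
    exact (himm _).comp (Pool.RL.chart_injective q0 hx)
  have hsymm0 : φ.symm (φ q0) = q0 := extChartAt_to_inv q0
  have hv : ∃ v, fderiv ℝ F (φ q0) v 2 ≠ 0 := by
    obtain ⟨u, hu⟩ := hreg
    have hsurj : Function.Surjective (mfderiv 𝓘(ℝ, E2) (𝓡 2) φ.symm (φ q0)) := by
      have : IsManifold (𝓡 2) 1 S := IsManifold.of_le (n := 2) (by norm_num)
      have h1 := isInvertible_mfderivWithin_extChartAt_symm (I := 𝓡 2) hx0
      have h2 : range (𝓡 2) = univ := (𝓡 2).range_eq_univ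
      rw [h2, mfderivWithin_univ] at h1
      exact h1.surjective
    obtain ⟨v, hv⟩ := hsurj u
    refine ⟨v, ?_⟩
    rw [hFd _ hx0, hv, hsymm0]
    exact hu
  obtain ⟨N', lam', α', η, hη, hN', hx0N, hN'U, hlam0, hlamd, hα, hinv, hder⟩ :=
    h φ.target F (φ q0) hU hFs hFi hx0 hv
  have hc : F (φ q0) 2 = g q0 2 := by
    show g (φ.symm (φ q0)) 2 = g q0 2
    rw [hsymm0]
  refine ⟨φ.source ∩ φ ⁻¹' N', fun q => lam' (φ q), fun σ => φ.symm (α' σ), η, ?_,
    ⟨mem_extChartAt_source q0, hx0N⟩, hlam0⟩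
  refine ⟨hη, ?_, ?_, ?_, ?_, ?_, ?_⟩
  · exact (continuousOn_extChartAt q0).isOpen_inter_preimage (isOpen_extChartAt_source q0) hN'
  · intro q hq
    have h1 : ContinuousAt lam' (φ q) := (hlamd _ hq.2).continuousAt
    have h2 : ContinuousAt φ q := continuousAt_extChartAt' hq.1
    exact (ContinuousAt.comp (g := lam') h1 h2).continuousWithinAt
  · intro σ hσ
    obtain ⟨a1, a2, a3, a4⟩ := hα σ hσ
    refine ⟨?_, ?_, a4⟩
    · have h1 : ContMDiffAt 𝓘(ℝ, E2) (𝓡 2) 2 φ.symm (α' σ) :=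
        ((contMDiffOn_extChartAt_symm (I := 𝓡 2) (n := 2) q0) _ (hN'U a2)).contMDiffAt
          (hU.mem_nhds (hN'U a2))
      exact ContMDiffAt.comp (g := φ.symm) σ h1 a1.contMDiffAt
    · exact a3.trans hc
  · intro σ hσ
    obtain ⟨a1, a2, a3, a4⟩ := hα σ hσ
    refine ⟨φ.map_target (hN'U a2), ?_⟩
    show φ (φ.symm (α' σ)) ∈ N'
    rw [φ.right_inv (hN'U a2)]
    exact a2
  · intro q hq hgq
    have h1 : F (φ q) 2 = F (φ q0) 2 := by
      rw [hc, ← hgq]
      show g (φ.symm (φ q)) 2 = g q 2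
      rw [φ.left_inv hq.1]
    obtain ⟨b1, b2⟩ := hinv (φ q) hq.2 h1
    refine ⟨b1, ?_⟩
    show φ.symm (α' (lam' (φ q))) = q
    rw [b2, φ.left_inv hq.1]
  · intro γ s hγ hlev hsp hq
    have hx : ContDiffAt ℝ 2 (fun s => φ (γ s)) s := by
      have h1 : ContMDiffAt (𝓡 2) 𝓘(ℝ, E2) 2 φ (γ s) :=
        contMDiffAt_extChartAt' (by simpa [hφ, extChartAt_source] using hq.1)
      exact (ContMDiffAt.comp (g := φ) s h1 hγ).contDiffAt
    have hxd : HasDerivAt (fun s => φ (γ s)) (deriv (fun s => φ (γ s)) s) s :=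
      (hx.differentiableAt (by norm_num)).hasDerivAt
    have hsrc : ∀ᶠ s' in 𝓝 s, γ s' ∈ φ.source :=
      hγ.continuousAt.eventually_mem ((isOpen_extChartAt_source q0).mem_nhds hq.1)
    have hF1 : HasFDerivAt F (fderiv ℝ F (φ (γ s))) (φ (γ s)) :=
      ((hFs.contDiffAt (hU.mem_nhds (φ.map_source hq.1))).differentiableAt (by norm_num)).hasFDerivAt
    have hcomp : HasDerivAt (fun s => F (φ (γ s)))
        (fderiv ℝ F (φ (γ s)) (deriv (fun s => φ (γ s)) s)) s := by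
      have e1 := HasFDerivAt.comp_hasDerivAt s hF1 hxd
      exact e1
    have hgd : HasDerivAt (fun s => g (γ s))
        (fderiv ℝ F (φ (γ s)) (deriv (fun s => φ (γ s)) s)) s := by
      refine hcomp.congr_of_eventuallyEq ?_
      filter_upwards [hsrc] with s' hs'
      show g (γ s') = g (φ.symm (φ (γ s')))
      rw [φ.left_inv hs']
    have h2 : fderiv ℝ F (φ (γ s)) (deriv (fun s => φ (γ s)) s) 2 = 0 := by
      have e1 : HasDerivAt (fun s => g (γ s) 2)
          (fderiv ℝ F (φ (γ s)) (deriv (fun s => φ (γ s)) s) 2) s :=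
        ((EuclideanSpace.proj (2 : Fin 3) : E3 →L[ℝ] ℝ).hasFDerivAt).comp_hasDerivAt s hgd
      have e2 : HasDerivAt (fun s => g (γ s) 2) 0 s := by
        refine (hasDerivAt_const s (g q0 2)).congr_of_eventuallyEq ?_
        filter_upwards [hlev] with s' hs'
        exact hs'
      exact e1.unique e2
    have h3 : ‖fderiv ℝ F (φ (γ s)) (deriv (fun s => φ (γ s)) s)‖ = 1 := by
      rw [← hgd.deriv]; exact hsp
    have h4 : F (φ (γ s)) 2 = F (φ q0) 2 := by
      rw [hc, ← hlev.self_of_nhds]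
      show g (φ.symm (φ (γ s))) 2 = g (γ s) 2
      rw [φ.left_inv hq.1]
    have h5 := hder (φ (γ s)) hq.2 h4 _ h2 h3
    have h6 : HasDerivAt (fun s => lam' (φ (γ s)))
        (fderiv ℝ lam' (φ (γ s)) (deriv (fun s => φ (γ s)) s)) s :=
      ((hlamd _ hq.2).hasFDerivAt).comp_hasDerivAt s hxd
    rcases eq_or_eq_neg_of_abs_eq h5 with h7 | h7
    · left; rw [h7] at h6; exact h6
    · right; rw [h7] at h6; exact h6

end Pool.PSC
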