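import Pool.Agent.Work.MP_02e829_ps.Interface

/-!
# MT: the multiplier is constant along level curves
-/

open Set Filter Manifold
open scoped Topology ContDiff Manifold

set_option autoImplicit false

universe w

namespace Pool.PSC

theorem MT_local {U : Set E2} {w Z : E2 → ℝ} (hU : IsOpen U) (hw : ContDiffOn ℝ 2 w U)
    (hZ : ContDiffOn ℝ 2 Z U)
    (hC : ∀ C ⊆ U, IsPreconnected C → (∀ x ∈ C, ∀ y ∈ C, w x = w y) → ∀ x ∈ C, ∀ y ∈ C, Z x = Z y)
    {x0 : E2} (hx0 : x0 ∈ U) (hne : fderiv ℝ w x0 ≠ 0) :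
    ∃ M : ℝ, ∀ᶠ x in 𝓝 x0, w x = w x0 → ∀ v, fderiv ℝ Z x v = M * fderiv ℝ w x v := by
  obtain ⟨τ, Ψ, h1, h2, h3, h4⟩ := Pool.RL.coord (n := 2) (by norm_num)
    (hw.contDiffAt (hU.mem_nhds hx0)) hne
  have h5 : ∀ᶠ q in 𝓝 (w x0, τ x0), Ψ q ∈ U := by
    have h5' : ContinuousAt Ψ (w x0, τ x0) := h2.continuousAt
    refine h5'.eventually ?_
    rw [h1]
    exact hU.mem_nhds hx0
  have h6 : ∀ᶠ q in 𝓝 (w x0, τ x0), ContDiffAt ℝ 2 Ψ q := h2.eventually (by simp)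
  obtain ⟨r, hr, hb⟩ := Metric.eventually_nhds_iff_ball.1 (h3.and (h5.and h6))
  set h : ℝ → ℝ := fun om => Z (Ψ (om, τ x0)) with hh
  have key : ∀ om s : ℝ, dist om (w x0) < r → dist s (τ x0) < r → Z (Ψ (om, s)) = h om := by
    intro om s hom hs
    have hmem : ∀ s ∈ Metric.ball (τ x0) r, (om, s) ∈ Metric.ball (w x0, τ x0) r := by
      intro s hs
      rw [Metric.mem_ball, Prod.dist_eq]
      exact max_lt hom hs
    refine hC ((fun s => Ψ (om, s)) '' Metric.ball (τ x0) r) ?_ ?_ ?_ _ ⟨s, hs, rfl⟩ _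
      ⟨τ x0, Metric.mem_ball_self hr, rfl⟩
    · rintro x ⟨s', hs', rfl⟩
      exact (hb _ (hmem s' hs')).2.1
    · refine (convex_ball (τ x0) r).isPreconnected.image _ ?_
      intro s' hs'
      have hc : ContinuousAt Ψ (om, s') := (hb _ (hmem s' hs')).2.2.continuousAt
      exact (ContinuousAt.comp (f := fun s : ℝ => (om, s)) (g := Ψ) hc
        (by fun_prop)).continuousWithinAt
    · rintro x ⟨s', hs', rfl⟩ y ⟨s'', hs'', rfl⟩
      simp only
      rw [(hb _ (hmem s' hs')).1.1, (hb _ (hmem s'' hs'')).1.1]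
  have hev : ∀ᶠ x in 𝓝 x0, Z x = h (w x) := by
    have hcont : ContinuousAt (fun x => (w x, τ x)) x0 :=
      (hw.contDiffAt (hU.mem_nhds hx0)).continuousAt.prodMk τ.continuous.continuousAt
    filter_upwards [h4, hcont.eventually (Metric.ball_mem_nhds _ hr)] with x hx1 hx2
    rw [Prod.dist_eq] at hx2
    have := key (w x) (τ x) ((le_max_left _ _).trans_lt hx2) ((le_max_right _ _).trans_lt hx2)
    rwa [hx1] at this
  have hhd : DifferentiableAt ℝ h (w x0) := by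
    have hZd : DifferentiableAt ℝ Z (Ψ (w x0, τ x0)) := by
      rw [h1]
      exact (hZ.contDiffAt (hU.mem_nhds hx0)).differentiableAt (by norm_num)
    have hΨd : DifferentiableAt ℝ Ψ (w x0, τ x0) := h2.differentiableAt (by norm_num)
    have hin : DifferentiableAt ℝ (fun om : ℝ => (om, τ x0)) (w x0) := by fun_prop
    exact DifferentiableAt.comp (w x0) (g := Z) (f := fun om => Ψ (om, τ x0)) hZd
      (DifferentiableAt.comp (w x0) (g := Ψ) (f := fun om : ℝ => (om, τ x0)) hΨd hin)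
  refine ⟨deriv h (w x0), ?_⟩
  filter_upwards [eventually_eventually_nhds.2 hev, hU.mem_nhds hx0] with x hx1 hxU hxw v
  have hwd : DifferentiableAt ℝ w x := (hw.contDiffAt (hU.mem_nhds hxU)).differentiableAt (by norm_num)
  have e1 : fderiv ℝ Z x = fderiv ℝ (fun y => h (w y)) x := Filter.EventuallyEq.fderiv_eq hx1
  have hhd' : HasDerivAt h (deriv h (w x0)) (w x) := by
    rw [hxw]
    exact hhd.hasDerivAt
  have e2 : HasFDerivAt (fun y => h (w y)) (deriv h (w x0) • fderiv ℝ w x) x :=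
    hhd'.comp_hasFDerivAt x hwd.hasFDerivAt
  rw [e1, e2.fderiv]
  simp

theorem MT_surj (L : E2 →L[ℝ] E2) (h : Function.Injective L) (v : E2) : ∃ v' : E2, L v' = v :=
  (LinearMap.injective_iff_surjective (f := (L : E2 →ₗ[ℝ] E2))).1 h v

theorem MT_const {f : ℝ → ℝ} {a b : ℝ} (hf : ∀ s ∈ Ioo a b, HasDerivAt f 0 s) {m s : ℝ}
    (hm : m ∈ Ioo a b) (hs : s ∈ Ioo a b) : f s = f m := by
  have h2 := (convex_Ioo a b).norm_image_sub_le_of_norm_hasDerivWithin_le (C := 0) (f := f)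
    (f' := fun _ => 0) (fun x hx => (hf x hx).hasDerivWithinAt) (by intro x _; simp) hm hs
  rw [zero_mul, norm_le_zero_iff] at h2
  linarith

theorem MT_surface {S : Type w} [TopologicalSpace S] [ChartedSpace E2 S] [IsManifold (𝓡 2) 2 S]
    {f : ℝ → S → E3} (hf : Fam f) (hH : HSec f) {t : ℝ} (ht : t ∈ Icc (0 : ℝ) 1) {p : S}
    (hp : Reg (f 0) p) : ∃ M : ℝ, ∀ᶠ q in 𝓝 p, f 0 q 2 = f 0 p 2 → ∀ v,
      FRD.dvec (f t) q v 2 = M * FRD.dvec (f 0) q v 2 := by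
  have h0 : (0 : ℝ) ∈ Icc (0 : ℝ) 1 := ⟨le_rfl, zero_le_one⟩
  set φ := extChartAt (𝓡 2) p with hφ
  have hop : IsOpen φ.target := isOpen_extChartAt_target p
  have hcd : ∀ t ∈ Icc (0 : ℝ) 1, ContDiffOn ℝ 2 (fun y => f t (φ.symm y)) φ.target := by
    intro t ht
    have h1 := (hf.smooth t ht).comp_contMDiffOn
      (contMDiffOn_extChartAt_symm (I := 𝓡 2) (n := 2) p)
    exact contMDiffOn_iff_contDiffOn.1 h1
  have hcd2 : ∀ t ∈ Icc (0 : ℝ) 1, ContDiffOn ℝ 2 (fun y => f t (φ.symm y) 2) φ.target := by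
    intro t ht
    exact (EuclideanSpace.proj (2 : Fin 3) : E3 →L[ℝ] ℝ).contDiff.comp_contDiffOn (hcd t ht)
  have hfd : ∀ t ∈ Icc (0 : ℝ) 1, ∀ x ∈ φ.target, ∀ v, fderiv ℝ (fun y => f t (φ.symm y) 2) x v =
      FRD.dvec (f t) (φ.symm x) (mfderiv 𝓘(ℝ, E2) (𝓡 2) φ.symm x v) 2 := by
    intro t ht x hx v
    rw [← Pool.RL.fderiv_chart (hf.smooth t ht) p hx v]
    have hd : DifferentiableAt ℝ (fun y => f t (φ.symm y)) x :=
      ((hcd t ht).contDiffAt (hop.mem_nhds hx)).differentiableAt (by norm_num)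
    have := ((EuclideanSpace.proj (2 : Fin 3) : E3 →L[ℝ] ℝ).hasFDerivAt.comp x hd.hasFDerivAt)
    have h2 : fderiv ℝ (fun y => f t (φ.symm y) 2) x =
        (EuclideanSpace.proj (2 : Fin 3) : E3 →L[ℝ] ℝ).comp (fderiv ℝ (fun y => f t (φ.symm y)) x) :=
      this.fderiv
    rw [h2]
    rfl
  have hsurj : ∀ x ∈ φ.target, ∀ v : E2, ∃ v' : E2, (mfderiv 𝓘(ℝ, E2) (𝓡 2) φ.symm x v' : E2) = v := by
    intro x hx v
    exact MT_surj _ (Pool.RL.chart_injective p hx) v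
  have hpt : φ p ∈ φ.target := mem_extChartAt_target p
  have hpp : φ.symm (φ p) = p := extChartAt_to_inv p
  have hne : fderiv ℝ (fun y => f 0 (φ.symm y) 2) (φ p) ≠ 0 := by
    intro hz
    obtain ⟨v, hv⟩ := hp
    rw [← hpp] at hv
    obtain ⟨v', hv'⟩ := hsurj (φ p) hpt v
    apply hv
    rw [← hv', ← hfd 0 h0 (φ p) hpt v', hz]
    rfl
  obtain ⟨M, hM⟩ := MT_local hop (hcd2 0 h0) (hcd2 t ht) (by
    intro C hCU hC hc x hx y hy
    have hi : IsPreconnected (φ.symm '' C) :=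
      hC.image _ ((continuousOn_extChartAt_symm p).mono hCU)
    refine hH t ht (φ.symm '' C) hi ?_ _ ⟨x, hx, rfl⟩ _ ⟨y, hy, rfl⟩
    rintro _ ⟨x, hx, rfl⟩ _ ⟨y, hy, rfl⟩
    exact hc x hx y hy) hpt hne
  refine ⟨M, ?_⟩
  have hcont : ContinuousAt φ p := continuousAt_extChartAt p
  filter_upwards [hcont.eventually hM, extChartAt_source_mem_nhds (I := 𝓡 2) p] with q hq hqs hqz v
  have hq1 : φ.symm (φ q) = q := φ.left_inv hqs
  have hqt : φ q ∈ φ.target := φ.map_source hqs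
  obtain ⟨v', hv'⟩ := hsurj (φ q) hqt v
  have hq0 : f 0 (φ.symm (φ q)) 2 = f 0 (φ.symm (φ p)) 2 := by rw [hq1, hpp]; exact hqz
  have e1 : fderiv ℝ (fun y => f t (φ.symm y) 2) (φ q) v' =
      M * fderiv ℝ (fun y => f 0 (φ.symm y) 2) (φ q) v' := hq hq0 v'
  rw [hfd t ht (φ q) hqt v', hfd 0 h0 (φ q) hqt v', hv', hq1] at e1
  exact e1

theorem blk_MT : Stmt_MT.{w} := by
  intro S _ _ _ f hf hH c a b γ hL hR t ht
  have hloc : ∀ s0 ∈ Ioo a b, ∃ M : ℝ, ∀ᶠ s in 𝓝 s0, ∀ v,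
      FRD.dvec (f t) (γ s) v 2 = M * FRD.dvec (f 0) (γ s) v 2 := by
    intro s0 hs0
    obtain ⟨M, hM⟩ := MT_surface hf hH ht (hR s0 hs0)
    refine ⟨M, ?_⟩
    have hc : ContinuousAt γ s0 := (hL s0 hs0).1.continuousAt
    filter_upwards [hc.eventually hM, isOpen_Ioo.mem_nhds hs0] with s hs hs' v
    exact hs (by rw [(hL s hs').2.1, (hL s0 hs0).2.1]) v
  have hex : ∀ s : ℝ, ∃ M : ℝ, s ∈ Ioo a b → ∀ v,
      FRD.dvec (f t) (γ s) v 2 = M * FRD.dvec (f 0) (γ s) v 2 := by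
    intro s
    by_cases hs : s ∈ Ioo a b
    · obtain ⟨M, hM⟩ := hloc s hs
      exact ⟨M, fun _ => hM.self_of_nhds⟩
    · exact ⟨0, fun h => absurd h hs⟩
  choose μ hμ using hex
  have hder : ∀ s ∈ Ioo a b, HasDerivAt μ 0 s := by
    intro s0 hs0
    refine (hasDerivAt_const s0 (μ s0)).congr_of_eventuallyEq ?_
    obtain ⟨M, hM⟩ := hloc s0 hs0
    have huniq : ∀ s ∈ Ioo a b, (∀ v, FRD.dvec (f t) (γ s) v 2 = M * FRD.dvec (f 0) (γ s) v 2) →
        μ s = M := by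
      intro s hs h
      obtain ⟨v, hv⟩ := hR s hs
      have h1 := hμ s hs v
      rw [h v] at h1
      exact (mul_right_cancel₀ hv h1).symm
    filter_upwards [hM, isOpen_Ioo.mem_nhds hs0] with s hs hs'
    rw [huniq s hs' hs, huniq s0 hs0 hM.self_of_nhds]
  by_cases hab : (Ioo a b).Nonempty
  · obtain ⟨m, hm⟩ := hab
    refine ⟨μ m, fun s hs v => ?_⟩
    rw [hμ s hs v, MT_const hder hm hs]
  · exact ⟨0, fun s hs => absurd ⟨s, hs⟩ hab⟩

end Pool.PSC
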