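import Pool.Agent.Work.MP_02e829_ps.Interface

/-! Block LSU: flow box in the plane. -/

open Set Filter Manifold
open scoped Topology ContDiff Manifold

set_option autoImplicit false

namespace Pool.PSC

/-- arclength of a `C²` curve and its inverse -/
theorem LSU_arc (g : ℝ → E3) (s0 r : ℝ) (hr : 0 < r) (hg : ContDiffOn ℝ 2 g (Ioo (s0 - r) (s0 + r)))
    (hne : ∀ s ∈ Ioo (s0 - r) (s0 + r), deriv g s ≠ 0) :
    ∃ ℓ a : ℝ → ℝ, ℓ s0 = 0 ∧ a 0 = s0 ∧
      (∀ s ∈ Ioo (s0 - r) (s0 + r), HasDerivAt ℓ ‖deriv g s‖ s) ∧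
      ContDiffAt ℝ 2 a 0 ∧ (∀ᶠ σ in 𝓝 (0 : ℝ), ℓ (a σ) = σ) ∧ (∀ᶠ s in 𝓝 s0, a (ℓ s) = s) := by
  have hI : IsOpen (Ioo (s0 - r) (s0 + r)) := isOpen_Ioo
  have hs0 : s0 ∈ Ioo (s0 - r) (s0 + r) := ⟨by linarith, by linarith⟩
  have hsp : ContDiffOn ℝ 1 (fun s => ‖deriv g s‖) (Ioo (s0 - r) (s0 + r)) := by
    refine ContDiffOn.norm ℝ (hg.deriv_of_isOpen hI ?_) hne
    norm_num
  have hspc := hsp.continuousOn
  set ℓ : ℝ → ℝ := fun s => ∫ x in s0..s, ‖deriv g x‖ with hℓ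
  have hder : ∀ s ∈ Ioo (s0 - r) (s0 + r), HasDerivAt ℓ ‖deriv g s‖ s := by
    intro s hs
    have hsub : uIcc s0 s ⊆ Ioo (s0 - r) (s0 + r) := by
      intro y hy
      rcases le_total s0 s with h | h
      · rw [uIcc_of_le h] at hy
        exact ⟨lt_of_lt_of_le hs0.1 hy.1, lt_of_le_of_lt hy.2 hs.2⟩
      · rw [uIcc_of_ge h] at hy
        exact ⟨lt_of_lt_of_le hs.1 hy.1, lt_of_le_of_lt hy.2 hs0.2⟩
    exact intervalIntegral.integral_hasDerivAt_right ((hspc.mono hsub).intervalIntegrable)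
      (hspc.stronglyMeasurableAtFilter hI s hs) (hspc.continuousAt (hI.mem_nhds hs))
  have hℓ2 : ContDiffOn ℝ 2 ℓ (Ioo (s0 - r) (s0 + r)) := by
    have h12 : (2 : WithTop ℕ∞) = 1 + 1 := by norm_num
    rw [h12, contDiffOn_succ_iff_deriv_of_isOpen hI]
    refine ⟨fun s hs => (hder s hs).differentiableAt.differentiableWithinAt, ?_, ?_⟩
    · intro h
      exact absurd h (by simp)
    · exact hsp.congr fun s hs => (hder s hs).deriv
  have hℓc : ContDiffAt ℝ 2 ℓ s0 := hℓ2.contDiffAt (hI.mem_nhds hs0)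
  have hpos : ‖deriv g s0‖ ≠ 0 := norm_ne_zero_iff.2 (hne s0 hs0)
  have hF := (hder s0 hs0).hasFDerivAt_equiv hpos
  have hℓ0 : ℓ s0 = 0 := by simp [hℓ]
  refine ⟨ℓ, hℓc.localInverse hF two_ne_zero, hℓ0, ?_, hder, ?_, ?_, ?_⟩
  · have := hℓc.localInverse_apply_image hF two_ne_zero
    rwa [hℓ0] at this
  · have := hℓc.to_localInverse hF two_ne_zero
    rwa [hℓ0] at this
  · have := (hℓc.hasStrictFDerivAt' hF two_ne_zero).eventually_right_inverse
    rwa [hℓ0] at this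
  · exact (hℓc.hasStrictFDerivAt' hF two_ne_zero).eventually_left_inverse

theorem blk_LSU : Stmt_LSU := by
  intro U F x0 hU hF hinj hx0 hv
  set w : E2 → ℝ := fun x => F x 2 with hw
  have hFat : ∀ x ∈ U, ContDiffAt ℝ 2 F x := fun x hx => hF.contDiffAt (hU.mem_nhds hx)
  have hFd : ∀ x ∈ U, DifferentiableAt ℝ F x := fun x hx => (hFat x hx).differentiableAt two_ne_zero
  have hwat : ∀ x ∈ U, ContDiffAt ℝ 2 w x := fun x hx =>
    (EuclideanSpace.proj (2 : Fin 3) : E3 →L[ℝ] ℝ).contDiff.contDiffAt.comp x (hFat x hx)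
  have hwder : ∀ x ∈ U, ∀ v, fderiv ℝ w x v = fderiv ℝ F x v 2 := by
    intro x hx v
    have h1 : HasFDerivAt w ((EuclideanSpace.proj (2 : Fin 3) : E3 →L[ℝ] ℝ).comp (fderiv ℝ F x)) x :=
      (EuclideanSpace.proj (2 : Fin 3) : E3 →L[ℝ] ℝ).hasFDerivAt.comp x (hFd x hx).hasFDerivAt
    rw [h1.fderiv]
    rfl
  have hne : fderiv ℝ w x0 ≠ 0 := by
    obtain ⟨v, hv⟩ := hv
    intro h
    apply hv
    rw [← hwder x0 hx0 v, h]
    rfl
  obtain ⟨τ, Ψ, h1, h2, h3, h4⟩ := Pool.RL.coord two_ne_zero (hwat x0 hx0) hne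
  set c := w x0 with hc
  set s0 := τ x0 with hs0
  set ψ : ℝ → E2 := fun s => Ψ (c, s) with hψ
  have hpair : Tendsto (fun s : ℝ => ((c, s) : ℝ × ℝ)) (𝓝 s0) (𝓝 (c, s0)) :=
    (continuous_const.prodMk continuous_id).tendsto s0
  -- the interval
  have hQ : ∀ᶠ s in 𝓝 s0, ContDiffAt ℝ 2 Ψ (c, s) ∧ Ψ (c, s) ∈ U ∧ w (Ψ (c, s)) = c ∧
      τ (Ψ (c, s)) = s := by
    have e1 := hpair.eventually (h2.eventually (by simp))
    have e2 : ∀ᶠ q in 𝓝 (c, s0), Ψ q ∈ U := h2.continuousAt.eventually_mem (by rw [h1]; exact hU.mem_nhds hx0)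
    have e2' := hpair.eventually e2
    have e3 := hpair.eventually h3
    filter_upwards [e1, e2', e3] with s a1 a2 a3
    exact ⟨a1, a2, a3.1, a3.2⟩
  obtain ⟨r, hr, hball⟩ := Metric.eventually_nhds_iff_ball.1 hQ
  rw [Real.ball_eq_Ioo] at hball
  have hI : IsOpen (Ioo (s0 - r) (s0 + r)) := isOpen_Ioo
  have hs0I : s0 ∈ Ioo (s0 - r) (s0 + r) := ⟨by linarith, by linarith⟩
  have hψat : ∀ s ∈ Ioo (s0 - r) (s0 + r), ContDiffAt ℝ 2 ψ s := by
    intro s hs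
    exact (hball s hs).1.comp s (contDiffAt_const.prodMk contDiffAt_id)
  have hψd : ∀ s ∈ Ioo (s0 - r) (s0 + r), HasDerivAt ψ (deriv ψ s) s := fun s hs =>
    ((hψat s hs).differentiableAt two_ne_zero).hasDerivAt
  have hτ : ∀ s ∈ Ioo (s0 - r) (s0 + r), τ (deriv ψ s) = 1 := by
    intro s hs
    have e1 : HasDerivAt (fun s => τ (ψ s)) (τ (deriv ψ s)) s :=
      τ.hasFDerivAt.comp_hasDerivAt s (hψd s hs)
    have e2 : HasDerivAt (fun s => τ (ψ s)) 1 s := by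
      refine (hasDerivAt_id s).congr_of_eventuallyEq ?_
      filter_upwards [hI.mem_nhds hs] with s' hs'
      exact (hball s' hs').2.2.2
    exact e1.unique e2
  set g : ℝ → E3 := fun s => F (ψ s) with hg
  have hgat : ∀ s ∈ Ioo (s0 - r) (s0 + r), ContDiffAt ℝ 2 g s := by
    intro s hs
    exact (hFat (ψ s) (hball s hs).2.1).comp s (hψat s hs)
  have hgder : ∀ s ∈ Ioo (s0 - r) (s0 + r), HasDerivAt g (fderiv ℝ F (ψ s) (deriv ψ s)) s := by
    intro s hs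
    exact (hFd (ψ s) (hball s hs).2.1).hasFDerivAt.comp_hasDerivAt s (hψd s hs)
  have hgne : ∀ s ∈ Ioo (s0 - r) (s0 + r), deriv g s ≠ 0 := by
    intro s hs h
    rw [(hgder s hs).deriv] at h
    have e1 : deriv ψ s = 0 := by
      apply hinj (ψ s) (hball s hs).2.1
      rw [h, map_zero]
    have e2 := hτ s hs
    rw [e1, map_zero] at e2
    exact zero_ne_one e2
  obtain ⟨ℓ, a, l1, l2, l3, l4, l5, l6⟩ := LSU_arc g s0 r hr
    (fun s hs => (hgat s hs).contDiffWithinAt) hgne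
  -- the neighbourhood
  have hP : ∀ᶠ x in 𝓝 x0, x ∈ U ∧ Ψ (w x, τ x) = x ∧ τ x ∈ Ioo (s0 - r) (s0 + r) ∧
      a (ℓ (τ x)) = τ x := by
    have e1 : Tendsto (fun x => τ x) (𝓝 x0) (𝓝 s0) := τ.continuous.tendsto x0
    filter_upwards [hU.mem_nhds hx0, h4, e1.eventually (hI.mem_nhds hs0I), e1.eventually l6] with
      x a1 a2 a3 a4
    exact ⟨a1, a2, a3, a4⟩
  obtain ⟨V, hVP, hV, hx0V⟩ := eventually_nhds_iff.1 hP
  have hψ0 : ψ (a 0) = x0 := by rw [l2]; exact h1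
  have ha0 : ContinuousAt a 0 := l4.continuousAt
  have hE : ∀ᶠ σ in 𝓝 (0 : ℝ), ContDiffAt ℝ 2 a σ ∧ a σ ∈ Ioo (s0 - r) (s0 + r) ∧ ψ (a σ) ∈ V ∧
      ℓ (a σ) = σ := by
    have e1 : ∀ᶠ σ in 𝓝 (0 : ℝ), a σ ∈ Ioo (s0 - r) (s0 + r) :=
      ha0.eventually_mem (by rw [l2]; exact hI.mem_nhds hs0I)
    have e2 : ContinuousAt (fun σ => ψ (a σ)) 0 := by
      refine ContinuousAt.comp (g := ψ) ?_ ha0
      rw [l2]; exact (hψat s0 hs0I).continuousAt
    have e3 : ∀ᶠ σ in 𝓝 (0 : ℝ), ψ (a σ) ∈ V := e2.eventually_mem (by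
      show V ∈ 𝓝 (ψ (a 0))
      rw [hψ0]; exact hV.mem_nhds hx0V)
    filter_upwards [l4.eventually (by simp), e1, e3, l5] with σ a1 a2 a3 a4
    exact ⟨a1, a2, a3, a4⟩
  obtain ⟨η, hη, hball2⟩ := Metric.eventually_nhds_iff_ball.1 hE
  rw [Real.ball_eq_Ioo, zero_sub, zero_add] at hball2
  have hlamd : ∀ x ∈ V, HasFDerivAt (fun x => ℓ (τ x)) (‖deriv g (τ x)‖ • τ) x := by
    intro x hx
    exact (l3 (τ x) (hVP x hx).2.2.1).comp_hasFDerivAt x τ.hasFDerivAt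
  refine ⟨V ∩ (fun x => ℓ (τ x)) ⁻¹' Ioo (-η) η, fun x => ℓ (τ x), fun σ => ψ (a σ), η, hη, ?_, ?_,
    ?_, ?_, ?_, ?_, ?_, ?_⟩
  · exact ContinuousOn.isOpen_inter_preimage
      (fun x hx => (hlamd x hx).continuousAt.continuousWithinAt) hV isOpen_Ioo
  · refine ⟨hx0V, ?_⟩
    show ℓ (τ x0) ∈ Ioo (-η) η
    rw [← hs0, l1]
    exact ⟨by linarith, hη⟩
  · exact fun x hx => (hVP x hx.1).1
  · show ℓ (τ x0) = 0
    rw [← hs0, l1]
  · exact fun x hx => (hlamd x hx.1).differentiableAt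
  · intro σ hσ
    obtain ⟨b1, b2, b3, b4⟩ := hball2 σ hσ
    have hαc : ContDiffAt ℝ 2 (fun σ => ψ (a σ)) σ := (hψat (a σ) b2).comp σ b1
    refine ⟨hαc, ⟨b3, ?_⟩, (hball (a σ) b2).2.2.1, ?_⟩
    · show ℓ (τ (ψ (a σ))) ∈ Ioo (-η) η
      rw [(hball (a σ) b2).2.2.2, b4]
      exact hσ
    · have had : HasDerivAt a (deriv a σ) σ := (b1.differentiableAt two_ne_zero).hasDerivAt
      have e1 : HasDerivAt (fun s => ℓ (a s)) (‖deriv g (a σ)‖ * deriv a σ) σ :=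
        (l3 (a σ) b2).comp σ had
      have e2 : HasDerivAt (fun s => ℓ (a s)) 1 σ := by
        refine (hasDerivAt_id σ).congr_of_eventuallyEq ?_
        filter_upwards [isOpen_Ioo.mem_nhds hσ] with s' hs'
        exact (hball2 s' hs').2.2.2
      have e3 := e1.unique e2
      have e4 : HasDerivAt (fun s => g (a s)) (deriv a σ • deriv g (a σ)) σ := by
        have e5 : HasDerivAt g (deriv g (a σ)) (a σ) :=
          ((hgat (a σ) b2).differentiableAt two_ne_zero).hasDerivAt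
        exact e5.scomp σ had
      show ‖deriv (fun s => g (a s)) σ‖ = 1
      rw [e4.deriv, norm_smul, Real.norm_eq_abs]
      have e6 : 0 ≤ ‖deriv g (a σ)‖ := norm_nonneg _
      calc |deriv a σ| * ‖deriv g (a σ)‖ = |‖deriv g (a σ)‖ * deriv a σ| := by
            rw [abs_mul, abs_of_nonneg e6, mul_comm]
        _ = 1 := by rw [e3, abs_one]
  · intro x hx hxc
    refine ⟨hx.2, ?_⟩
    obtain ⟨c1, c2, c3, c4⟩ := hVP x hx.1
    show Ψ (c, a (ℓ (τ x))) = x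
    rw [c4]
    have : w x = c := hxc
    rw [← this]; exact c2
  · intro x hx hxc v hv0 hv1
    obtain ⟨c1, c2, c3, c4⟩ := hVP x hx.1
    have hwx : w x = c := hxc
    have hxψ : ψ (τ x) = x := by
      show Ψ (c, τ x) = x
      rw [← hwx]; exact c2
    -- the vector v
    have hΨd : DifferentiableAt ℝ Ψ (w x, τ x) := by
      rw [hwx]
      exact (hball (τ x) c3).1.differentiableAt two_ne_zero
    have hcomp : HasFDerivAt (fun x' => Ψ (w x', τ x'))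
        ((fderiv ℝ Ψ (w x, τ x)).comp ((fderiv ℝ w x).prod τ)) x :=
      HasFDerivAt.comp x hΨd.hasFDerivAt
        ((((hwat x c1).differentiableAt two_ne_zero).hasFDerivAt).prodMk τ.hasFDerivAt)
    have hid : HasFDerivAt (fun x' => Ψ (w x', τ x')) (ContinuousLinearMap.id ℝ E2) x := by
      refine (hasFDerivAt_id x).congr_of_eventuallyEq ?_
      filter_upwards [hV.mem_nhds hx.1] with x' hx'
      exact (hVP x' hx').2.1
    have heq := congrArg (fun L : E2 →L[ℝ] E2 => L v) (hcomp.unique hid)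
    have hv0' : fderiv ℝ w x v = 0 := by rw [hwder x c1 v]; exact hv0
    have hveq : fderiv ℝ Ψ (w x, τ x) (0, τ v) = v := by
      have h5 : ((fderiv ℝ Ψ (w x, τ x)).comp ((fderiv ℝ w x).prod τ)) v = v := heq
      rw [ContinuousLinearMap.comp_apply, ContinuousLinearMap.prod_apply, hv0'] at h5
      exact h5
    have hψder : HasDerivAt ψ (fderiv ℝ Ψ (c, τ x) (0, 1)) (τ x) := by
      have e1 : HasDerivAt (fun s : ℝ => ((c, s) : ℝ × ℝ)) (0, 1) (τ x) :=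
        (hasDerivAt_const (τ x) c).prodMk (hasDerivAt_id (τ x))
      have e2 : DifferentiableAt ℝ Ψ (c, τ x) := (hball (τ x) c3).1.differentiableAt two_ne_zero
      exact e2.hasFDerivAt.comp_hasDerivAt (τ x) e1
    have hvv : v = τ v • deriv ψ (τ x) := by
      rw [hψder.deriv, ← map_smul]
      rw [hwx] at hveq
      conv_lhs => rw [← hveq]
      congr 1
      ext <;> simp
    have hFv : fderiv ℝ F x v = τ v • deriv g (τ x) := by
      rw [(hgder (τ x) c3).deriv, ← map_smul, ← hvv, hxψ]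
    rw [(hlamd x hx.1).fderiv]
    rw [hFv, norm_smul, Real.norm_eq_abs] at hv1
    show |‖deriv g (τ x)‖ * τ v| = 1
    rw [abs_mul, abs_of_nonneg (norm_nonneg _), mul_comm]
    exact hv1

end Pool.PSC
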