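import Pool.Agent.Work.MP_02e829_ps.Interface

/-!
# Deformations preserving the height: pointwise part
-/

open Set Filter Manifold
open scoped Topology ContDiff Manifold

set_option autoImplicit false

namespace Pool.PSC

/-- `hz` as a linear map -/
noncomputable def hzL : E3 →L[ℝ] ℂ :=
  (Complex.ofRealCLM.comp (EuclideanSpace.proj 0 : E3 →L[ℝ] ℝ)) +
    Complex.I • (Complex.ofRealCLM.comp (EuclideanSpace.proj 1 : E3 →L[ℝ] ℝ))

lemma hzL_apply (x : E3) : hzL x = hz x := by
  simp [hzL, hz, mul_comm]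

lemma hz_re (x : E3) : (hz x).re = x 0 := by simp [hz]
lemma hz_im (x : E3) : (hz x).im = x 1 := by simp [hz]

lemma hz_add (x y : E3) : hz (x + y) = hz x + hz y := by
  rw [← hzL_apply, map_add, hzL_apply, hzL_apply]

lemma hz_smul (c : ℝ) (x : E3) : hz (c • x) = c * hz x := by
  rw [← hzL_apply, map_smul, hzL_apply]
  simp

lemma inner3 (x y : E3) : inner ℝ x y = x 0 * y 0 + x 1 * y 1 + x 2 * y 2 := by
  rw [PiLp.inner_apply, Fin.sum_univ_three]
  simp [mul_comm]

lemma inner_hz (x y : E3) :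
    inner ℝ x y = ((starRingEnd ℂ) (hz x) * hz y).re + x 2 * y 2 := by
  rw [inner3]
  simp [hz]

lemma eq_of_hz {x y : E3} (h1 : hz x = hz y) (h2 : x 2 = y 2) : x = y := by
  have h3 := congrArg Complex.re h1
  have h4 := congrArg Complex.im h1
  rw [hz_re, hz_re] at h3
  rw [hz_im, hz_im] at h4
  ext i
  fin_cases i
  · exact h3
  · exact h4
  · exact h2

/-- a path of linear maps with constant pull-back -/
lemma path_rot {T : ℝ → E2 →ₗ[ℝ] E3} (hinj : Function.Injective (T 0))
    (hcont : ∀ v, ContinuousOn (fun t => T t v) (Icc 0 1))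
    (hiso : ∀ t ∈ Icc (0 : ℝ) 1, ∀ v w, inner ℝ (T t v) (T t w) = inner ℝ (T 0 v) (T 0 w))
    (hht : ∀ t ∈ Icc (0 : ℝ) 1, ∀ v, T t v 2 = T 0 v 2) {t : ℝ} (ht : t ∈ Icc (0 : ℝ) 1) :
    ∃ R : ℂ, ‖R‖ = 1 ∧ ∀ v, hz (T t v) = R * hz (T 0 v) := by
  set e0 : E2 := Pool.RL.ee 0
  set e1 : E2 := Pool.RL.ee 1
  have hre : ∀ t ∈ Icc (0 : ℝ) 1, ∀ v w, ((starRingEnd ℂ) (hz (T t v)) * hz (T t w)).re =
      ((starRingEnd ℂ) (hz (T 0 v)) * hz (T 0 w)).re := by
    intro t ht v w
    have h1 := hiso t ht v w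
    rw [inner_hz, inner_hz, hht t ht, hht t ht] at h1
    linarith
  have hnsq : ∀ t ∈ Icc (0 : ℝ) 1, ∀ v, Complex.normSq (hz (T t v)) =
      Complex.normSq (hz (T 0 v)) := by
    intro t ht v
    have h1 := hre t ht v v
    rw [← Complex.normSq_eq_conj_mul_self, ← Complex.normSq_eq_conj_mul_self, Complex.ofReal_re,
      Complex.ofReal_re] at h1
    exact h1
  -- the determinant
  set om : ℝ → ℝ := fun t => ((starRingEnd ℂ) (hz (T t e0)) * hz (T t e1)).im with hom
  have hsq : ∀ t ∈ Icc (0 : ℝ) 1, om t ^ 2 = om 0 ^ 2 := by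
    intro t ht
    have key : ∀ a b : ℂ, ((starRingEnd ℂ) a * b).im ^ 2 =
        Complex.normSq a * Complex.normSq b - ((starRingEnd ℂ) a * b).re ^ 2 := by
      intro a b
      simp only [Complex.mul_im, Complex.mul_re, Complex.conj_re, Complex.conj_im,
        Complex.normSq_apply]
      ring
    simp only [hom]
    rw [key, key, hnsq t ht, hnsq t ht, hre t ht]
  have homc : ContinuousOn om (Icc 0 1) := by
    have h1 : ∀ v, ContinuousOn (fun t => hz (T t v)) (Icc 0 1) := by
      intro v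
      have h2 := hzL.continuous.comp_continuousOn (hcont v)
      refine h2.congr fun t _ => ?_
      exact (hzL_apply _).symm
    exact Complex.continuous_im.comp_continuousOn
      ((Complex.continuous_conj.comp_continuousOn (h1 e0)).mul (h1 e1))
  have h0 : (0 : ℝ) ∈ Icc (0 : ℝ) 1 := Pool.RL.zero_mem'
  have homeq : om t = om 0 := by
    rcases eq_or_ne (om 0) 0 with hz0 | hne
    · have := hsq t ht
      rw [hz0] at this ⊢
      simpa using this
    · by_contra hcon
      have h1 : om t = - om 0 := by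
        rcases sq_eq_sq_iff_eq_or_eq_neg.1 (hsq t ht) with h | h
        · exact absurd h hcon
        · exact h
      have hsub : Icc 0 t ⊆ Icc (0 : ℝ) 1 := Icc_subset_Icc_right ht.2
      have h2 : (0 : ℝ) ∈ om '' Icc 0 t := by
        rcases lt_or_gt_of_ne hne with h3 | h3
        · exact intermediate_value_Icc ht.1 (homc.mono hsub) ⟨h3.le, by rw [h1]; linarith⟩
        · exact intermediate_value_Icc' ht.1 (homc.mono hsub) ⟨by rw [h1]; linarith, h3.le⟩
      obtain ⟨t', ht', h4⟩ := h2
      have h5 := hsq t' (hsub ht')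
      rw [h4] at h5
      apply hne
      have : om 0 ^ 2 = 0 := by rw [← h5]; ring
      exact pow_eq_zero_iff two_ne_zero |>.1 this
  have hcross : (starRingEnd ℂ) (hz (T t e0)) * hz (T t e1) =
      (starRingEnd ℂ) (hz (T 0 e0)) * hz (T 0 e1) :=
    Complex.ext (hre t ht e0 e1) homeq
  -- one of the two vectors is not vertical
  have hlin : ∀ s v, hz (T s v) = (v 0 : ℂ) * hz (T s e0) + (v 1 : ℂ) * hz (T s e1) := by
    intro s v
    conv_lhs => rw [Pool.RL.decomp v]
    rw [map_add, map_smul, map_smul, hz_add, hz_smul, hz_smul]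
  have hcase : hz (T 0 e0) ≠ 0 ∨ hz (T 0 e1) ≠ 0 := by
    by_contra hcon
    push Not at hcon
    obtain ⟨h1, h2⟩ := hcon
    have h3 : T 0 ((T 0 e1 2) • e0 - (T 0 e0 2) • e1) = T 0 0 := by
      refine eq_of_hz ?_ ?_
      · rw [hlin, h1, h2, map_zero]
        simp [hz]
      · rw [map_sub, map_smul, map_smul, map_zero]
        simp
        ring
    have h4 := hinj h3
    have h5 := congrArg (fun z : E2 => z 0) h4
    have h6 := congrArg (fun z : E2 => z 1) h4
    simp [e0, e1, Pool.RL.ee] at h5 h6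
    have h7 : T 0 e0 = T 0 0 := by
      refine eq_of_hz ?_ ?_
      · rw [h1, map_zero]; simp [hz]
      · rw [map_zero]
        change T 0 (Pool.RL.ee 0) 2 = 0
        simpa [Pool.RL.ee] using h6
    have h8 := congrArg (fun z : E2 => z 0) (hinj h7)
    simp [e0, Pool.RL.ee] at h8
  have hunit : ∀ v, hz (T 0 v) ≠ 0 → ‖hz (T t v) / hz (T 0 v)‖ = 1 := by
    intro v hv
    have h1 : ‖hz (T t v)‖ = ‖hz (T 0 v)‖ := by
      have h2 := hnsq t ht v
      rw [Complex.normSq_eq_norm_sq, Complex.normSq_eq_norm_sq] at h2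
      exact (pow_left_inj₀ (norm_nonneg _) (norm_nonneg _) two_ne_zero).1 h2
    rw [norm_div, h1, div_self (norm_ne_zero_iff.2 hv)]
  have hconjR : ∀ R : ℂ, ‖R‖ = 1 → (starRingEnd ℂ) R * R = 1 := by
    intro R hR
    rw [← Complex.normSq_eq_conj_mul_self, Complex.normSq_eq_norm_sq, hR]
    simp
  rcases hcase with h1 | h1
  · set R := hz (T t e0) / hz (T 0 e0) with hR
    have hR1 := hunit e0 h1
    rw [← hR] at hR1
    have e1' : hz (T t e0) = R * hz (T 0 e0) := by rw [hR]; field_simp
    have e2 : hz (T t e1) = R * hz (T 0 e1) := by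
      rw [e1', map_mul] at hcross
      have h3 : (starRingEnd ℂ) (hz (T 0 e0)) ≠ 0 := by
        rw [Ne, map_eq_zero]; exact h1
      have h4 : (starRingEnd ℂ) R * hz (T t e1) = hz (T 0 e1) := by
        apply mul_left_cancel₀ h3
        linear_combination hcross
      have h5 := hconjR R hR1
      linear_combination R * h4 - hz (T t e1) * h5
    refine ⟨R, hR1, fun v => ?_⟩
    rw [hlin t v, hlin 0 v, e1', e2]
    ring
  · set R := hz (T t e1) / hz (T 0 e1) with hR
    have hR1 := hunit e1 h1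
    rw [← hR] at hR1
    have e1' : hz (T t e1) = R * hz (T 0 e1) := by rw [hR]; field_simp
    have e2 : hz (T t e0) = R * hz (T 0 e0) := by
      have h6 : (starRingEnd ℂ) (hz (T t e0)) * R = (starRingEnd ℂ) (hz (T 0 e0)) := by
        apply mul_right_cancel₀ h1
        rw [e1'] at hcross
        linear_combination hcross
      have h7 := congrArg (starRingEnd ℂ) h6
      rw [map_mul, Complex.conj_conj, Complex.conj_conj] at h7
      have h5 := hconjR R hR1
      linear_combination R * h7 - hz (T t e0) * h5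
    refine ⟨R, hR1, fun v => ?_⟩
    rw [hlin t v, hlin 0 v, e1', e2]
    ring

end Pool.PSC
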