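import Pool.Agent.Work.MP_02e829_ps.Hgt1

/-!
# Deformations preserving the height: chart part
-/

open Set Filter Manifold
open scoped Topology ContDiff Manifold

set_option autoImplicit false

namespace Pool.PSC

lemma exists_hz_ne {T : E2 →L[ℝ] E3} (hinj : Function.Injective T) : ∃ v, hz (T v) ≠ 0 := by
  by_contra hcon
  push Not at hcon
  have h3 : T ((T (Pool.RL.ee 1) 2) • Pool.RL.ee 0 - (T (Pool.RL.ee 0) 2) • Pool.RL.ee 1) = T 0 := by
    refine eq_of_hz ?_ ?_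
    · rw [hcon, map_zero]
      simp [hz]
    · rw [map_sub, map_smul, map_smul, map_zero]
      simp
      ring
  have h4 := hinj h3
  have h6 := congrArg (fun z : E2 => z 1) h4
  simp [Pool.RL.ee] at h6
  have h7 : T (Pool.RL.ee 0) = T 0 := by
    refine eq_of_hz ?_ ?_
    · rw [hcon, map_zero]; simp [hz]
    · rw [map_zero]
      simpa [Pool.RL.ee] using h6
  have h8 := congrArg (fun z : E2 => z 0) (hinj h7)
  simp [Pool.RL.ee] at h8

/-- two maps with the same horizontal metric -/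
structure TwoMaps (U : Set E2) (F G : E2 → E3) (R : E2 → ℂ) : Prop where
  op : IsOpen U
  F2 : ContDiffOn ℝ 2 F U
  G2 : ContDiffOn ℝ 2 G U
  imm : ∀ x ∈ U, Function.Injective (fderiv ℝ F x)
  unit : ∀ x ∈ U, ‖R x‖ = 1
  rot : ∀ x ∈ U, ∀ v, hz (fderiv ℝ G x v) = R x * hz (fderiv ℝ F x v)

variable {U : Set E2} {F G : E2 → E3} {R : E2 → ℂ}

lemma hzd {F : E2 → E3} {x : E2} (hF : ContDiffAt ℝ 2 F x) (v : E2) :
    ContDiffAt ℝ 1 (fun y => hz (fderiv ℝ F y v)) x := by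
  have h1 : ContDiffAt ℝ 1 (fderiv ℝ F) x := hF.fderiv_right (by norm_num)
  have h2 : ContDiffAt ℝ 1 (fun y => hzL (fderiv ℝ F y v)) x :=
    hzL.contDiff.contDiffAt.comp x (h1.clm_apply contDiffAt_const)
  exact h2.congr_of_eventuallyEq (Eventually.of_forall fun y => (hzL_apply _).symm)

lemma TwoMaps.cdR (h : TwoMaps U F G R) {x0 : E2} (hx0 : x0 ∈ U) : ContDiffAt ℝ 1 R x0 := by
  obtain ⟨v, hv⟩ := exists_hz_ne (h.imm x0 hx0)
  have hF := hzd (h.F2.contDiffAt (h.op.mem_nhds hx0)) v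
  have hG := hzd (h.G2.contDiffAt (h.op.mem_nhds hx0)) v
  refine (hG.mul (hF.inv hv)).congr_of_eventuallyEq ?_
  filter_upwards [h.op.mem_nhds hx0, hF.continuousAt.eventually_ne hv] with x hx hx2
  change R x = hz (fderiv ℝ G x v) * (hz (fderiv ℝ F x v))⁻¹
  rw [h.rot x hx v, mul_assoc, mul_inv_cancel₀ hx2, mul_one]

lemma TwoMaps.sym (h : TwoMaps U F G R) {x0 : E2} (hx0 : x0 ∈ U) (v w : E2) :
    fderiv ℝ R x0 v * hz (fderiv ℝ F x0 w) = fderiv ℝ R x0 w * hz (fderiv ℝ F x0 v) := by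
  have hF := h.F2.contDiffAt (h.op.mem_nhds hx0)
  have hG := h.G2.contDiffAt (h.op.mem_nhds hx0)
  have hd : ∀ {F : E2 → E3}, ContDiffAt ℝ 2 F x0 → ∀ w, HasFDerivAt (fun x => hz (fderiv ℝ F x w))
      (hzL.comp ((fderiv ℝ (fderiv ℝ F) x0).flip w)) x0 := by
    intro F hF w
    have h1 : HasFDerivAt (fderiv ℝ F) (fderiv ℝ (fderiv ℝ F) x0) x0 :=
      ((hF.fderiv_right (m := 1) (by norm_num)).differentiableAt (by norm_num)).hasFDerivAt
    have h2 := hzL.hasFDerivAt.comp x0 (h1.clm_apply (hasFDerivAt_const w x0))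
    have h3 : HasFDerivAt (fun x => hz (fderiv ℝ F x w)) _ x0 :=
      h2.congr_of_eventuallyEq (Eventually.of_forall fun y => (hzL_apply _).symm)
    refine h3.congr_fderiv ?_
    ext u
    simp
  have hR : HasFDerivAt R (fderiv ℝ R x0) x0 :=
    ((h.cdR hx0).differentiableAt (by norm_num)).hasFDerivAt
  have key : ∀ v w, hz (fderiv ℝ (fderiv ℝ G) x0 v w) =
      R x0 * hz (fderiv ℝ (fderiv ℝ F) x0 v w) + fderiv ℝ R x0 v * hz (fderiv ℝ F x0 w) := by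
    intro v w
    have h1 : (fun x => hz (fderiv ℝ G x w)) =ᶠ[𝓝 x0] fun x => R x * hz (fderiv ℝ F x w) := by
      filter_upwards [h.op.mem_nhds hx0] with x hx using h.rot x hx w
    have h2 := (hd hG w).unique ((hR.mul (hd hF w)).congr_of_eventuallyEq h1)
    have h3 := congrArg (fun l : E2 →L[ℝ] ℂ => l v) h2
    simp only [ContinuousLinearMap.comp_apply, ContinuousLinearMap.flip_apply, hzL_apply,
      add_apply, smul_apply, smul_eq_mul] at h3
    rw [h3]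
    ring
  have sF : fderiv ℝ (fderiv ℝ F) x0 v w = fderiv ℝ (fderiv ℝ F) x0 w v :=
    (hF.isSymmSndFDerivAt (by simp)) v w
  have sG : fderiv ℝ (fderiv ℝ G) x0 v w = fderiv ℝ (fderiv ℝ G) x0 w v :=
    (hG.isSymmSndFDerivAt (by simp)) v w
  have k1 := key v w
  have k2 := key w v
  rw [sF, sG] at k1
  rw [k1] at k2
  exact add_left_cancel k2

/-- the real form -/
noncomputable def rho (R : E2 → ℂ) (x v : E2) : ℝ :=
  ((starRingEnd ℂ) (R x) * fderiv ℝ R x v).im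

lemma conj_mul_unit {z : ℂ} (hz1 : ‖z‖ = 1) : (starRingEnd ℂ) z * z = 1 := by
  rw [← Complex.normSq_eq_conj_mul_self, Complex.normSq_eq_norm_sq, hz1]
  simp

lemma TwoMaps.dR_eq (h : TwoMaps U F G R) {x0 : E2} (hx0 : x0 ∈ U) (v : E2) :
    fderiv ℝ R x0 v = Complex.I * (rho R x0 v : ℂ) * R x0 := by
  have hR : HasFDerivAt R (fderiv ℝ R x0) x0 :=
    ((h.cdR hx0).differentiableAt (by norm_num)).hasFDerivAt
  have h1 : (fun x => ‖R x‖ ^ 2) =ᶠ[𝓝 x0] fun _ => (1 : ℝ) := by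
    filter_upwards [h.op.mem_nhds hx0] with x hx
    rw [h.unit x hx]
    norm_num
  have h2 := (hR.norm_sq).unique ((hasFDerivAt_const (1 : ℝ) x0).congr_of_eventuallyEq h1)
  have h3 := congrArg (fun l : E2 →L[ℝ] ℝ => l v) h2
  have h5 : ((starRingEnd ℂ) (R x0) * fderiv ℝ R x0 v).re = 0 := by
    simp at h3
    rw [Complex.mul_re, Complex.conj_re, Complex.conj_im]
    linarith
  have h6 : (starRingEnd ℂ) (R x0) * fderiv ℝ R x0 v = Complex.I * (rho R x0 v : ℂ) := by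
    apply Complex.ext
    · rw [h5]; simp
    · simp [rho]
  have h7 := conj_mul_unit (h.unit x0 hx0)
  calc fderiv ℝ R x0 v = ((starRingEnd ℂ) (R x0) * R x0) * fderiv ℝ R x0 v := by rw [h7, one_mul]
    _ = ((starRingEnd ℂ) (R x0) * fderiv ℝ R x0 v) * R x0 := by ring
    _ = Complex.I * (rho R x0 v : ℂ) * R x0 := by rw [h6]

lemma TwoMaps.norm_dR (h : TwoMaps U F G R) {x0 : E2} (hx0 : x0 ∈ U) (v : E2) :
    ‖fderiv ℝ R x0 v‖ = |rho R x0 v| := by
  rw [h.dR_eq hx0, norm_mul, norm_mul, h.unit x0 hx0]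
  simp

/-- **Key lemma.** -/
theorem TwoMaps.key (h : TwoMaps U F G R) {x0 : E2} (hx0 : x0 ∈ U) (hDR : fderiv ℝ R x0 ≠ 0)
    {ε : ℝ}
    (hK0 : ∀ v, ε * ‖hz (fderiv ℝ F x0 v)‖ ≤ ‖fderiv ℝ R x0 v‖) :
    ¬ ∀ᶠ x in 𝓝 x0, (∀ v, ε * ‖hz (fderiv ℝ F x v)‖ ≤ ‖fderiv ℝ R x v‖) → F x 2 ≤ F x0 2 := by
  intro hmax
  -- the function `w` and the function `c`
  set w : E2 → ℝ := fun x => ((starRingEnd ℂ) (R x0) * R x).im with hw
  set c : E2 → ℝ := fun x => ((starRingEnd ℂ) (R x0) * R x).re with hc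
  have hRd : ∀ x ∈ U, HasFDerivAt R (fderiv ℝ R x) x := fun x hx =>
    ((h.cdR hx).differentiableAt (by norm_num)).hasFDerivAt
  have hwd : ∀ x ∈ U, HasFDerivAt w
      (Complex.imCLM.comp ((starRingEnd ℂ) (R x0) • fderiv ℝ R x)) x := by
    intro x hx
    exact Complex.imCLM.hasFDerivAt.comp x ((hRd x hx).const_mul ((starRingEnd ℂ) (R x0)))
  have hwf : ∀ x ∈ U, ∀ v, fderiv ℝ w x v = rho R x v * c x := by
    intro x hx v
    rw [(hwd x hx).fderiv]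
    simp only [ContinuousLinearMap.comp_apply, smul_apply, smul_eq_mul, Complex.imCLM_apply, hc]
    rw [h.dR_eq hx v]
    have : (starRingEnd ℂ) (R x0) * (Complex.I * (rho R x v : ℂ) * R x) =
        Complex.I * ((rho R x v : ℂ) * ((starRingEnd ℂ) (R x0) * R x)) := by ring
    rw [this, Complex.I_mul_im, Complex.re_ofReal_mul]
  have hwcd : ContDiffAt ℝ 1 w x0 := by
    have h1 : ContDiffAt ℝ 1 (fun x => Complex.imCLM ((starRingEnd ℂ) (R x0) * R x)) x0 :=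
      Complex.imCLM.contDiff.contDiffAt.comp x0 (contDiffAt_const.mul (h.cdR hx0))
    exact h1
  have hcx0 : c x0 = 1 := by
    simp only [hc]
    rw [conj_mul_unit (h.unit x0 hx0)]
    rfl
  have hwx0 : w x0 = 0 := by
    simp only [hw]
    rw [conj_mul_unit (h.unit x0 hx0)]
    rfl
  have hwc : ∀ x ∈ U, w x ^ 2 + c x ^ 2 = 1 := by
    intro x hx
    have h1 : ‖(starRingEnd ℂ) (R x0) * R x‖ = 1 := by
      rw [norm_mul, h.unit x hx, mul_one, RCLike.norm_conj, h.unit x0 hx0]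
    have h2 : Complex.normSq ((starRingEnd ℂ) (R x0) * R x) = 1 := by
      rw [Complex.normSq_eq_norm_sq, h1]; norm_num
    rw [Complex.normSq_apply] at h2
    simp only [hw, hc]
    linarith
  have hne : fderiv ℝ w x0 ≠ 0 := by
    intro h0
    apply hDR
    ext1 v
    have h1 := hwf x0 hx0 v
    rw [h0, hcx0, mul_one, zero_apply] at h1
    rw [h.dR_eq hx0 v, ← h1]
    simp
  obtain ⟨τ, Ψ, hΨ0, hΨc, hΨr, hΨl⟩ := Pool.RL.coord one_ne_zero hwcd hne
  set w0 := w x0 with hw0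
  set s0 := τ x0 with hs0
  -- the good neighbourhood
  have hV : ∀ᶠ x in 𝓝 x0, x ∈ U ∧ 0 < c x ∧ fderiv ℝ R x ≠ 0 := by
    have h1 : ContinuousAt (fderiv ℝ R) x0 :=
      ((h.cdR hx0).fderiv_right (m := 0) (by norm_num)).continuousAt
    have h2 : ContinuousAt c x0 := by
      have : ContinuousAt (fun x => Complex.reCLM ((starRingEnd ℂ) (R x0) * R x)) x0 :=
        Complex.reCLM.continuous.continuousAt.comp
          (continuousAt_const.mul (h.cdR hx0).continuousAt)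
      exact this
    have h3 : ∀ᶠ x in 𝓝 x0, 0 < c x := h2.eventually (by
      rw [hcx0]
      exact lt_mem_nhds one_pos)
    filter_upwards [h.op.mem_nhds hx0, h3, h1.eventually_ne hDR] with x a b d using ⟨a, b, d⟩
  have hq : ∀ᶠ q in 𝓝 (w0, s0), ((Ψ q ∈ U ∧ 0 < c (Ψ q) ∧ fderiv ℝ R (Ψ q) ≠ 0) ∧
      ContDiffAt ℝ 1 Ψ q) ∧ ∀ᶠ q' in 𝓝 q, w (Ψ q') = q'.1 ∧ τ (Ψ q') = q'.2 := by
    have h1 := hΨc.continuousAt
    rw [ContinuousAt, hΨ0] at h1
    exact ((h1.eventually hV).and (hΨc.eventually (by simp))).and hΨr.eventually_nhds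
  obtain ⟨r, hr, hball⟩ := Metric.eventually_nhds_iff_ball.1 hq
  have hmem : ∀ w1 ∈ Metric.ball w0 r, ∀ s ∈ Metric.ball s0 r, (w1, s) ∈
      Metric.ball (w0, s0) r := by
    intro w1 h1 s h2
    rw [← ball_prod_same]
    exact ⟨h1, h2⟩
  have hw0r : w0 ∈ Metric.ball w0 r := Metric.mem_ball_self hr
  have hs0r : s0 ∈ Metric.ball s0 r := Metric.mem_ball_self hr
  have hΨd : ∀ q ∈ Metric.ball (w0, s0) r, HasFDerivAt Ψ (fderiv ℝ Ψ q) q := fun q hq =>
    ((hball q hq).1.2.differentiableAt (by norm_num)).hasFDerivAt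
  have hU : ∀ q ∈ Metric.ball (w0, s0) r, Ψ q ∈ U := fun q hq => (hball q hq).1.1.1
  have hFd : ∀ q ∈ Metric.ball (w0, s0) r, HasFDerivAt F (fderiv ℝ F (Ψ q)) (Ψ q) :=
    fun q hq => ((h.F2.contDiffAt (h.op.mem_nhds (hU q hq))).differentiableAt
      (by norm_num)).hasFDerivAt
  have hdw : ∀ q ∈ Metric.ball (w0, s0) r, ∀ p : ℝ × ℝ,
      rho R (Ψ q) (fderiv ℝ Ψ q p) * c (Ψ q) = p.1 := by
    intro q hq p
    rw [← hwf _ (hU q hq), (hwd _ (hU q hq)).fderiv]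
    have h1 := (hwd _ (hU q hq)).comp q (hΨd q hq)
    have h2 : (w ∘ Ψ) =ᶠ[𝓝 q] fun q' => q'.1 := by
      filter_upwards [(hball q hq).2] with q' hq' using hq'.1
    have h3 := h1.unique (hasFDerivAt_fst.congr_of_eventuallyEq h2)
    exact congrArg (fun l : ℝ × ℝ →L[ℝ] ℝ => l p) h3
  have hdτ : ∀ q ∈ Metric.ball (w0, s0) r, ∀ p : ℝ × ℝ, τ (fderiv ℝ Ψ q p) = p.2 := by
    intro q hq p
    have h1 := (τ.hasFDerivAt (x := Ψ q)).comp q (hΨd q hq)
    have h2 : (τ ∘ Ψ) =ᶠ[𝓝 q] fun q' => q'.2 := by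
      filter_upwards [(hball q hq).2] with q' hq' using hq'.2
    have h3 := h1.unique (hasFDerivAt_snd.congr_of_eventuallyEq h2)
    exact congrArg (fun l : ℝ × ℝ →L[ℝ] ℝ => l p) h3
  -- the direction of the level curves of `R` is vertical
  have hker : ∀ q ∈ Metric.ball (w0, s0) r, fderiv ℝ R (Ψ q) (fderiv ℝ Ψ q (0, 1)) = 0 ∧
      hz (fderiv ℝ F (Ψ q) (fderiv ℝ Ψ q (0, 1))) = 0 := by
    intro q hq
    have h1 := hdw q hq (0, 1)
    have h2 : rho R (Ψ q) (fderiv ℝ Ψ q (0, 1)) = 0 :=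
      (mul_eq_zero.1 h1).resolve_right (hball q hq).1.1.2.1.ne'
    have h3 : fderiv ℝ R (Ψ q) (fderiv ℝ Ψ q (0, 1)) = 0 := by
      rw [h.dR_eq (hU q hq), h2]; simp
    refine ⟨h3, ?_⟩
    obtain ⟨v, hv⟩ : ∃ v, fderiv ℝ R (Ψ q) v ≠ 0 := by
      by_contra hcon
      push Not at hcon
      exact (hball q hq).1.1.2.2 (by ext1 v; exact hcon v)
    have h4 := h.sym (hU q hq) (fderiv ℝ Ψ q (0, 1)) v
    rw [h3, zero_mul] at h4
    exact (mul_eq_zero.1 h4.symm).resolve_left hv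
  -- curves
  have hline : ∀ (w1 s : ℝ), HasDerivAt (fun s : ℝ => (w1, s)) ((0 : ℝ), (1 : ℝ)) s := fun w1 s =>
    (hasDerivAt_const s w1).prodMk (hasDerivAt_id s)
  have hline' : ∀ (s w1 : ℝ), HasDerivAt (fun w1 : ℝ => (w1, s)) ((1 : ℝ), (0 : ℝ)) w1 :=
    fun s w1 => (hasDerivAt_id w1).prodMk (hasDerivAt_const w1 s)
  have hFΨ : ∀ q ∈ Metric.ball (w0, s0) r, HasFDerivAt (fun q => hz (F (Ψ q)))
      (hzL.comp ((fderiv ℝ F (Ψ q)).comp (fderiv ℝ Ψ q))) q := by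
    intro q hq
    have h1 := hzL.hasFDerivAt.comp q ((hFd q hq).comp q (hΨd q hq))
    exact h1.congr_of_eventuallyEq (Eventually.of_forall fun y => (hzL_apply _).symm)
  have hconst : ∀ w1 ∈ Metric.ball w0 r, ∀ s ∈ Metric.ball s0 r,
      hz (F (Ψ (w1, s))) = hz (F (Ψ (w1, s0))) := by
    intro w1 hw1 s hs
    have hd : ∀ s ∈ Metric.ball s0 r, HasDerivAt (fun s => hz (F (Ψ (w1, s)))) 0 s := by
      intro s hs
      have hq := hmem w1 hw1 s hs
      have h1 := (hFΨ _ hq).comp_hasDerivAt s (hline w1 s)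
      have h2 : (hzL.comp ((fderiv ℝ F (Ψ (w1, s))).comp (fderiv ℝ Ψ (w1, s)))) (0, 1) = 0 := by
        simp only [ContinuousLinearMap.comp_apply, hzL_apply]
        exact (hker _ hq).2
      rw [h2] at h1
      exact h1
    exact Metric.isOpen_ball.is_const_of_deriv_eq_zero
      ((convex_ball s0 r).isPreconnected) (f := fun s => hz (F (Ψ (w1, s))))
      (fun s hs => (hd s hs).differentiableAt.differentiableWithinAt)
      (fun s hs => (hd s hs).deriv) hs hs0r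
  set a : ℂ := hz (fderiv ℝ F (Ψ (w0, s0)) (fderiv ℝ Ψ (w0, s0) (1, 0))) with ha
  have hA : ∀ s ∈ Metric.ball s0 r,
      hz (fderiv ℝ F (Ψ (w0, s)) (fderiv ℝ Ψ (w0, s) (1, 0))) = a := by
    intro s hs
    have hq := hmem w0 hw0r s hs
    have hq0 := hmem w0 hw0r s0 hs0r
    have h1 := (hFΨ _ hq).comp_hasDerivAt w0 (hline' s w0)
    have h2 := (hFΨ _ hq0).comp_hasDerivAt w0 (hline' s0 w0)
    have h3 : ((fun q => hz (F (Ψ q))) ∘ fun w1 : ℝ => (w1, s)) =ᶠ[𝓝 w0]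
        ((fun q => hz (F (Ψ q))) ∘ fun w1 : ℝ => (w1, s0)) := by
      filter_upwards [Metric.ball_mem_nhds w0 hr] with w1 hw1 using hconst w1 hw1 s hs
    have h4 := h1.unique (h2.congr_of_eventuallyEq h3)
    simp only [ContinuousLinearMap.comp_apply, hzL_apply] at h4
    exact h4
  have hq0 := hmem w0 hw0r s0 hs0r
  -- on the level curve through `x0` the horizontal differential is `‖a‖` times the one of `R`
  have hnorm : ∀ s ∈ Metric.ball s0 r, ∀ v,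
      ‖hz (fderiv ℝ F (Ψ (w0, s)) v)‖ = ‖a‖ * ‖fderiv ℝ R (Ψ (w0, s)) v‖ := by
    intro s hs v
    have hq := hmem w0 hw0r s hs
    have h1 := h.sym (hU _ hq) v (fderiv ℝ Ψ (w0, s) (1, 0))
    rw [hA s hs] at h1
    have h2 : w (Ψ (w0, s)) = w0 := (hball _ hq).2.self_of_nhds.1
    have h3 := hwc _ (hU _ hq)
    rw [h2] at h3
    have h4 : c (Ψ (w0, s)) = 1 := by
      have h5 := (hball _ hq).1.1.2.1
      have h6 : w0 ^ 2 = 0 := by rw [hwx0]; norm_num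
      nlinarith
    have h5 := hdw _ hq (1, 0)
    rw [h4, mul_one] at h5
    have h6 : ‖fderiv ℝ R (Ψ (w0, s)) (fderiv ℝ Ψ (w0, s) (1, 0))‖ = 1 := by
      rw [h.norm_dR (hU _ hq), h5]
      simp
    have h7 := congrArg norm h1
    rw [norm_mul, norm_mul, h6, one_mul] at h7
    rw [← h7]
    ring
  have hεa : ε * ‖a‖ ≤ 1 := by
    have h1 := hK0 (fderiv ℝ Ψ (w0, s0) (1, 0))
    have h2 := hnorm s0 hs0r (fderiv ℝ Ψ (w0, s0) (1, 0))
    rw [hΨ0] at h2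
    have h4 : ‖fderiv ℝ R x0 (fderiv ℝ Ψ (w0, s0) (1, 0))‖ = 1 := by
      have h5 := hdw _ hq0 (1, 0)
      rw [hΨ0, hcx0, mul_one] at h5
      rw [h.norm_dR hx0, h5]
      simp
    rw [h2, h4, mul_one] at h1
    exact h1
  have hKs : ∀ s ∈ Metric.ball s0 r, ∀ v,
      ε * ‖hz (fderiv ℝ F (Ψ (w0, s)) v)‖ ≤ ‖fderiv ℝ R (Ψ (w0, s)) v‖ := by
    intro s hs v
    rw [hnorm s hs v, ← mul_assoc]
    exact mul_le_of_le_one_left (norm_nonneg _) hεa
  -- the height has a local maximum along the curve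
  have hcurve : HasDerivAt (fun s => F (Ψ (w0, s)) 2)
      (fderiv ℝ F (Ψ (w0, s0)) (fderiv ℝ Ψ (w0, s0) (0, 1)) 2) s0 := by
    have h1 := ((hFd _ hq0).comp (w0, s0) (hΨd _ hq0)).comp_hasDerivAt s0 (hline w0 s0)
    exact (EuclideanSpace.proj (2 : Fin 3) : E3 →L[ℝ] ℝ).hasFDerivAt.comp_hasDerivAt s0 h1
  have hlm : IsLocalMax (fun s => F (Ψ (w0, s)) 2) s0 := by
    have h1 : ContinuousAt (fun s : ℝ => Ψ (w0, s)) s0 := by
      have h2 := (hΨd _ hq0).continuousAt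
      exact ContinuousAt.comp (g := Ψ) h2 (by fun_prop)
    rw [ContinuousAt, hΨ0] at h1
    filter_upwards [h1.eventually hmax, Metric.ball_mem_nhds s0 hr] with s hs hs2
    rw [hΨ0]
    exact hs (hKs s hs2)
  have h0 := hlm.hasDerivAt_eq_zero hcurve
  have h1 : fderiv ℝ F (Ψ (w0, s0)) (fderiv ℝ Ψ (w0, s0) (0, 1)) =
      fderiv ℝ F (Ψ (w0, s0)) 0 := by
    refine eq_of_hz ?_ ?_
    · rw [(hker _ hq0).2, map_zero]; simp [hz]
    · rw [h0, map_zero]; rfl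
  have h2 := h.imm _ (hU _ hq0) h1
  have h3 := hdτ _ hq0 (0, 1)
  rw [h2, map_zero] at h3
  exact zero_ne_one h3

end Pool.PSC
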