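import Pool.Agent.Work.MP_02e829_rl.Motion

/-!
# Isometric deformations preserving horizontal sections: interface

`E2`, `E3`, `ee`, `coord` (adapted coordinates), `sard`, `fderiv_chart`, `chart_injective` are in
namespace `Pool.RL` (files `MP_02e829_rl/*.lean`), `dvec`, `firstForm` in `Pool.FRD`
(`MP_02e829_fr/Deformation.lean`).
-/

open Set Filter Manifold
open scoped Topology ContDiff Manifold

set_option autoImplicit false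

universe w

namespace Pool.PSC

abbrev E2 := Pool.RL.E2
abbrev E3 := Pool.RL.E3

/-- the horizontal part of a vector, as a complex number -/
noncomputable def hz (x : E3) : ℂ := (x 0 : ℂ) + (x 1 : ℂ) * Complex.I

section surface

variable {S : Type w} [TopologicalSpace S] [ChartedSpace E2 S]

/-- an isometric deformation of class `C²` (no condition on the sections) -/
structure Fam (f : ℝ → S → E3) : Prop where
  smooth : ∀ t ∈ Icc (0 : ℝ) 1, ContMDiff (𝓡 2) (𝓡 3) 2 (f t)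
  imm : ∀ p, Function.Injective (FRD.dvec (f 0) p)
  iso : ∀ t ∈ Icc (0 : ℝ) 1, ∀ p v w, FRD.firstForm (f t) p v w = FRD.firstForm (f 0) p v w
  cont : ∀ p, ContinuousOn (fun t => f t p) (Icc 0 1)
  cont1 : ∀ p v, ContinuousOn (fun t => FRD.dvec (f t) p v) (Icc 0 1)

/-- connected subsets of horizontal sections stay at constant height -/
def HSec (f : ℝ → S → E3) : Prop :=
  ∀ t ∈ Icc (0 : ℝ) 1, ∀ C : Set S, IsPreconnected C → (∀ p ∈ C, ∀ q ∈ C, f 0 p 2 = f 0 q 2) →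
    ∀ p ∈ C, ∀ q ∈ C, f t p 2 = f t q 2

/-- the height has nonzero differential at `p` -/
def Reg (g : S → E3) (p : S) : Prop := ∃ v : E2, FRD.dvec g p v 2 ≠ 0

/-- a level curve at height `c` with unit speed, on `I` -/
def LC (g : S → E3) (c : ℝ) (γ : ℝ → S) (I : Set ℝ) : Prop :=
  ∀ s ∈ I, ContMDiffAt 𝓘(ℝ, ℝ) (𝓡 2) 2 γ s ∧ g (γ s) 2 = c ∧ ‖deriv (fun s => g (γ s)) s‖ = 1

/-- a flow box around an arc of the level set at height `c`: `α` is the arc with unit speed, `lam`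
the arclength -/
structure ArcChart (g : S → E3) (c : ℝ) (N : Set S) (lam : S → ℝ) (α : ℝ → S) (η : ℝ) : Prop where
  pos : 0 < η
  op : IsOpen N
  cont : ContinuousOn lam N
  lc : LC g c α (Ioo (-η) η)
  mem : ∀ σ ∈ Ioo (-η) η, α σ ∈ N
  inv : ∀ q ∈ N, g q 2 = c → lam q ∈ Ioo (-η) η ∧ α (lam q) = q
  der : ∀ (γ : ℝ → S) (s : ℝ), ContMDiffAt 𝓘(ℝ, ℝ) (𝓡 2) 2 γ s → (∀ᶠ s' in 𝓝 s, g (γ s') 2 = c) →
    ‖deriv (fun s => g (γ s)) s‖ = 1 → γ s ∈ N →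
      HasDerivAt (fun s => lam (γ s)) 1 s ∨ HasDerivAt (fun s => lam (γ s)) (-1) s

end surface

/-- LSU (about 120 lines): flow box in the plane. -/
def Stmt_LSU : Prop :=
  ∀ (U : Set E2) (F : E2 → E3) (x0 : E2), IsOpen U → ContDiffOn ℝ 2 F U →
    (∀ x ∈ U, Function.Injective (fderiv ℝ F x)) → x0 ∈ U → (∃ v, fderiv ℝ F x0 v 2 ≠ 0) →
    ∃ (N : Set E2) (lam : E2 → ℝ) (α : ℝ → E2) (η : ℝ), 0 < η ∧ IsOpen N ∧ x0 ∈ N ∧ N ⊆ U ∧
      lam x0 = 0 ∧ (∀ x ∈ N, DifferentiableAt ℝ lam x) ∧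
      (∀ σ ∈ Ioo (-η) η, ContDiffAt ℝ 2 α σ ∧ α σ ∈ N ∧ F (α σ) 2 = F x0 2 ∧
        ‖deriv (fun s => F (α s)) σ‖ = 1) ∧
      (∀ x ∈ N, F x 2 = F x0 2 → lam x ∈ Ioo (-η) η ∧ α (lam x) = x) ∧
      (∀ x ∈ N, F x 2 = F x0 2 → ∀ v, fderiv ℝ F x v 2 = 0 → ‖fderiv ℝ F x v‖ = 1 →
        |fderiv ℝ lam x v| = 1)

/-- LSM (70 lines): flow box on the surface. -/
def Stmt_LSM : Prop :=
  ∀ (S : Type w) [TopologicalSpace S] [ChartedSpace E2 S] [IsManifold (𝓡 2) 2 S] (g : S → E3),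
    ContMDiff (𝓡 2) (𝓡 3) 2 g → (∀ p, Function.Injective (FRD.dvec g p)) → ∀ q0 : S, Reg g q0 →
    ∃ (N : Set S) (lam : S → ℝ) (α : ℝ → S) (η : ℝ), ArcChart g (g q0 2) N lam α η ∧ q0 ∈ N ∧
      lam q0 = 0

/-- FRML (80 lines): every level curve is an arc of the flow box. -/
def Stmt_FRML : Prop :=
  ∀ (S : Type w) [TopologicalSpace S] [ChartedSpace E2 S] [T2Space S] (g : S → E3) (c : ℝ)
    (N : Set S) (lam : S → ℝ) (α γ : ℝ → S) (η a b m : ℝ), ArcChart g c N lam α η →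
    LC g c γ (Ioo a b) → m ∈ Ioo a b → γ m ∈ N →
    ∃ ε : ℝ, (ε = 1 ∨ ε = -1) ∧ ∀ s ∈ Ioo a b, lam (γ m) + ε * (s - m) ∈ Ioo (-η) η →
      γ s = α (lam (γ m) + ε * (s - m))

/-- LOOP (150 lines): regular level curves return. -/
def Stmt_LOOP : Prop :=
  ∀ (S : Type w) [TopologicalSpace S] [ChartedSpace E2 S] [IsManifold (𝓡 2) 2 S] [T2Space S]
    [CompactSpace S] (g : S → E3), ContMDiff (𝓡 2) (𝓡 3) 2 g →
    (∀ p, Function.Injective (FRD.dvec g p)) → ∀ p : S, (∀ q, g q 2 = g p 2 → Reg g q) →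
    ∃ (γ : ℝ → S) (a b s1 s2 s0 : ℝ), LC g (g p 2) γ (Ioo a b) ∧ a < s1 ∧ s1 < s2 ∧ s2 < b ∧
      γ s1 = γ s2 ∧ s0 ∈ Ioo a b ∧ γ s0 = p

/-- GRD (80 lines): the gradient of the height. -/
def Stmt_GRD : Prop :=
  ∀ (S : Type w) [TopologicalSpace S] [ChartedSpace E2 S] [IsManifold (𝓡 2) 2 S]
    (f : ℝ → S → E3), Fam f → ∃ Y : S → E2,
    (∀ p v, inner ℝ (FRD.dvec (f 0) p (Y p)) (FRD.dvec (f 0) p v) = FRD.dvec (f 0) p v 2) ∧
      ∀ t ∈ Icc (0 : ℝ) 1, Continuous (fun p => FRD.dvec (f t) p (Y p))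

/-- KGU (80 lines): the tangential part of the acceleration is intrinsic. -/
def Stmt_KGU : Prop :=
  ∀ (U : Set E2) (F G : E2 → E3), IsOpen U → ContDiffOn ℝ 2 F U → ContDiffOn ℝ 2 G U →
    (∀ x ∈ U, ∀ v w, inner ℝ (fderiv ℝ F x v) (fderiv ℝ F x w) =
      inner ℝ (fderiv ℝ G x v) (fderiv ℝ G x w)) →
    ∀ (x : ℝ → E2) (s : ℝ) (v : E2), ContDiffAt ℝ 2 x s → x s ∈ U →
      inner ℝ (deriv (deriv (fun s => F (x s))) s) (fderiv ℝ F (x s) v) =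
        inner ℝ (deriv (deriv (fun s => G (x s))) s) (fderiv ℝ G (x s) v)

/-- KGM (50 lines): the same on the surface. -/
def Stmt_KGM : Prop :=
  ∀ (S : Type w) [TopologicalSpace S] [ChartedSpace E2 S] [IsManifold (𝓡 2) 2 S]
    (f : ℝ → S → E3), Fam f → ∀ t ∈ Icc (0 : ℝ) 1, ∀ (γ : ℝ → S) (s : ℝ) (v : E2),
    ContMDiffAt 𝓘(ℝ, ℝ) (𝓡 2) 2 γ s →
      inner ℝ (deriv (deriv (fun s => f t (γ s))) s) (FRD.dvec (f t) (γ s) v) =
        inner ℝ (deriv (deriv (fun s => f 0 (γ s))) s) (FRD.dvec (f 0) (γ s) v)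

/-- MT (120 lines): the multiplier is constant along level curves. -/
def Stmt_MT : Prop :=
  ∀ (S : Type w) [TopologicalSpace S] [ChartedSpace E2 S] [IsManifold (𝓡 2) 2 S]
    (f : ℝ → S → E3), Fam f → HSec f → ∀ (c a b : ℝ) (γ : ℝ → S), LC (f 0) c γ (Ioo a b) →
    (∀ s ∈ Ioo a b, Reg (f 0) (γ s)) → ∀ t ∈ Icc (0 : ℝ) 1, ∃ m : ℝ, ∀ s ∈ Ioo a b, ∀ v,
      FRD.dvec (f t) (γ s) v 2 = m * FRD.dvec (f 0) (γ s) v 2

/-- ANL (150 lines): a one-parameter family of curvatures has no interval of closed curves. -/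
def Stmt_ANL : Prop :=
  ∀ (s1 s2 : ℝ) (B K : ℝ → ℝ), s1 < s2 → ContinuousOn B (Icc s1 s2) → ContinuousOn K (Icc s1 s2) →
    (∀ s ∈ Icc s1 s2, 0 < B s) → ∀ (μ1 μ2 : ℝ), μ1 < μ2 →
    (∀ μ ∈ Ioo μ1 μ2, ∀ s ∈ Icc s1 s2, μ * B s < 1) →
    (∀ μ ∈ Ioo μ1 μ2, (∫ s in s1..s2, Complex.exp
      (((∫ r in s1..s, K r / Real.sqrt (B r - μ * B r ^ 2)) : ℝ) * Complex.I)) = 0) → False

/-- FLAT (120 lines): the multiplier is equal to one. -/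
def Stmt_FLAT : Prop :=
  ∀ (s1 s2 : ℝ) (B K m : ℝ → ℝ), s1 < s2 → ContinuousOn B (Icc s1 s2) →
    ContinuousOn K (Icc s1 s2) → (∀ s ∈ Icc s1 s2, 0 < B s) → ContinuousOn m (Icc 0 1) →
    m 0 = 1 →
    (∀ t ∈ Icc (0 : ℝ) 1, ∃ (G ζ : ℝ → ℂ) (κ Q : ℝ → ℝ), ContinuousOn Q (Icc s1 s2) ∧
      G s1 = G s2 ∧ ∀ s ∈ Icc s1 s2, HasDerivAt G (ζ s) s ∧ ‖ζ s‖ = 1 ∧
        HasDerivAt ζ (Complex.I * κ s * ζ s) s ∧ κ s * Q s = K s ∧
        Q s ^ 2 = B s - m t ^ 2 * B s ^ 2) →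
    ∀ t ∈ Icc (0 : ℝ) 1, m t = 1

/-- LEV (150 lines): the differential of the height is preserved at regular levels. -/
def Stmt_LEV : Prop :=
  ∀ (S : Type w) [TopologicalSpace S] [ChartedSpace E2 S] [IsManifold (𝓡 2) 2 S] [T2Space S]
    [CompactSpace S] (f : ℝ → S → E3), Fam f → HSec f → ∀ p : S,
    (∀ q, f 0 q 2 = f 0 p 2 → Reg (f 0) q) → ∀ t ∈ Icc (0 : ℝ) 1, ∀ v,
      FRD.dvec (f t) p v 2 = FRD.dvec (f 0) p v 2

/-- DENS (120 lines): the height is preserved up to a constant. -/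
def Stmt_DENS : Prop :=
  ∀ (S : Type w) [TopologicalSpace S] [ChartedSpace E2 S] [IsManifold (𝓡 2) 2 S]
    [CompactSpace S] [ConnectedSpace S] (f : ℝ → S → E3), Fam f → HSec f →
    (∀ p : S, (∀ q, f 0 q 2 = f 0 p 2 → Reg (f 0) q) → ∀ t ∈ Icc (0 : ℝ) 1, ∀ v,
      FRD.dvec (f t) p v 2 = FRD.dvec (f 0) p v 2) →
    ∀ t ∈ Icc (0 : ℝ) 1, ∃ c : ℝ, ∀ p, f t p 2 = f 0 p 2 + c

/-- HGT (helper97): deformations preserving the height are trivial. -/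
def Stmt_HGT : Prop :=
  ∀ (S : Type w) [TopologicalSpace S] [ChartedSpace E2 S] [IsManifold (𝓡 2) 2 S]
    [CompactSpace S] [ConnectedSpace S] (f : ℝ → S → E3), Fam f →
    (∀ t ∈ Icc (0 : ℝ) 1, ∃ c : ℝ, ∀ p, f t p 2 = f 0 p 2 + c) →
    ∀ t ∈ Icc (0 : ℝ) 1, ∃ B : E3 ≃ᵢ E3, ∀ p, f t p = B (f 0 p)

end Pool.PSC
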