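import Pool.Agent.Work.MP_02e829_ps.Interface

/-!
# The family after the motions
-/

open Set Filter Manifold
open scoped Topology ContDiff Manifold

set_option autoImplicit false

universe w

namespace Pool.PSC

open Pool.RL

variable {S : Type w} [TopologicalSpace S] [ChartedSpace E2 S]

/-- the family after the motions -/
theorem fam_motion {f : ℝ → S → E3} {A : ℝ → E3 ≃ᵢ E3}
    (smooth : ∀ t ∈ Icc (0 : ℝ) 1, ContMDiff (𝓡 2) (𝓡 3) 2 (f t))
    (imm : ∀ p, Function.Injective (FRD.dvec (f 0) p))
    (iso : ∀ t ∈ Icc (0 : ℝ) 1, FRD.firstForm (f t) = FRD.firstForm (f 0))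
    (cont : ∀ p, ContinuousOn (fun t => f t p) (Icc 0 1))
    (cont1 : ∀ p v, ContinuousOn (fun t => FRD.dvec (f t) p v) (Icc 0 1))
    (contA : ∀ x, ContinuousOn (fun t => A t x) (Icc 0 1)) :
    Fam (fun t p => A t (f t p)) where
  smooth := fun t ht => (contDiff_motion (A t)).contMDiff.comp (smooth t ht)
  imm := fun p => by
    have h1 : FRD.dvec (fun q => A 0 (f 0 q)) p = lin (A 0) ∘ FRD.dvec (f 0) p :=
      funext fun v => dvec_motion (smooth 0 zero_mem') (A 0) p v
    rw [h1]
    exact (lin (A 0)).injective.comp (imm p)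
  iso := fun t ht p v w => by
    rw [firstForm_motion (smooth t ht), firstForm_motion (smooth 0 zero_mem'), iso t ht]
  cont := fun p => cont_motion contA (cont p)
  cont1 := fun p v => by
    have h1 : ContinuousOn (fun t => A t (FRD.dvec (f t) p v) - A t 0) (Icc 0 1) :=
      (cont_motion contA (cont1 p v)).sub (contA 0)
    exact h1.congr fun t ht => (dvec_motion (smooth t ht) (A t) p v).trans (lin_eq_sub _ _)

end Pool.PSC
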